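import Pool.Agent.N515.BK.Ext

set_option autoImplicit false

/-! # Near-cliques are almost cliques -/

namespace Pool.Agent.N515.BK

open Finset Classical

section
variable {V : Type} [Fintype V]

/-- two repeated values -/
theorem a0_im2 {K : Type} [DecidableEq K] (c : V → K) (S : Finset V) (x y : V) (hxy : x ≠ y) (hx : x ∈ S)
    (hy : y ∈ S) (hx' : ∃ z ∈ S, z ≠ x ∧ z ≠ y ∧ c z = c x)
    (hy' : ∃ z ∈ S, z ≠ x ∧ z ≠ y ∧ c z = c y) : (S.image c).card + 2 ≤ S.card := by
  have h1 : S.image c ⊆ ((S.erase x).erase y).image c := by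
    intro w hw
    rw [Finset.mem_image] at hw
    obtain ⟨z, hz, rfl⟩ := hw
    rw [Finset.mem_image]
    by_cases hzx : z = x
    · subst hzx
      obtain ⟨t, ht, h2, h3, h4⟩ := hx'
      exact ⟨t, Finset.mem_erase.mpr ⟨h3, Finset.mem_erase.mpr ⟨h2, ht⟩⟩, h4⟩
    · by_cases hzy : z = y
      · subst hzy
        obtain ⟨t, ht, h2, h3, h4⟩ := hy'
        exact ⟨t, Finset.mem_erase.mpr ⟨h3, Finset.mem_erase.mpr ⟨h2, ht⟩⟩, h4⟩
      · exact ⟨z, Finset.mem_erase.mpr ⟨hzy, Finset.mem_erase.mpr ⟨hzx, hz⟩⟩, rfl⟩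
  have h2 := (Finset.card_le_card h1).trans Finset.card_image_le
  have h3 := Finset.card_erase_of_mem hx
  have h4 := Finset.card_erase_of_mem (Finset.mem_erase.mpr ⟨hxy.symm, hy⟩)
  have h5 : 0 < S.card := Finset.card_pos.mpr ⟨x, hx⟩
  have h6 : 0 < (S.erase x).card := Finset.card_pos.mpr ⟨y, Finset.mem_erase.mpr ⟨hxy.symm, hy⟩⟩
  omega

/-- colours not seen outside `T` -/
noncomputable def a0_L (G : SimpleGraph V) {k : ℕ} (c : V → Fin k) (T : Finset V) (x : V) :
    Finset (Fin k) := univ \ (nb G x \ T).image c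

theorem a0_L_card (G : SimpleGraph V) {k : ℕ} (hdeg : ∀ v, (nb G v).card ≤ k + 1)
    (c : V → Fin k) (T : Finset V) (x : V) :
    T.card ≤ (a0_L G c T x).card + 1 + (T \ nb G x).card := by
  have h1 : (a0_L G c T x).card + ((nb G x \ T).image c).card = k := by
    have := Finset.card_sdiff_add_card_inter (univ : Finset (Fin k)) ((nb G x \ T).image c)
    rw [Finset.univ_inter, Finset.card_univ, Fintype.card_fin] at this
    exact this
  have h2 : ((nb G x \ T).image c).card ≤ (nb G x \ T).card := Finset.card_image_le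
  have h3 := Finset.card_sdiff_add_card_inter (nb G x) T
  have h4 := Finset.card_sdiff_add_card_inter T (nb G x)
  have h5 := hdeg x
  rw [Finset.inter_comm] at h4
  omega

theorem a0_prop (G : SimpleGraph V) {k : ℕ} (c : V → Fin k) (T Sp : Finset V) (hSp : Sp ⊆ T)
    (hc : PropOn G k c Tᶜ) (g : V → Fin k) (hg : ∀ s ∈ Sp, g s ∈ a0_L G c T s)
    (hg2 : ∀ s ∈ Sp, ∀ t ∈ Sp, G.Adj s t → g s ≠ g t) :
    PropOn G k (fun x => if x ∈ Sp then g x else c x) (Tᶜ ∪ Sp) := by
  have key : ∀ s ∈ Sp, ∀ y, y ∉ T → G.Adj s y → g s ≠ c y := by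
    intro s hs y hy hsy he
    have h1 := hg s hs
    unfold a0_L at h1
    rw [Finset.mem_sdiff] at h1
    apply h1.2
    rw [Finset.mem_image]
    exact ⟨y, Finset.mem_sdiff.mpr ⟨mem_nb.mpr hsy, hy⟩, he.symm⟩
  intro x hx y hy hxy
  rw [Finset.mem_union, Finset.mem_compl] at hx hy
  by_cases hxS : x ∈ Sp
  · by_cases hyS : y ∈ Sp
    · simp only [hxS, hyS, if_true]
      exact hg2 x hxS y hyS hxy
    · simp only [hxS, hyS, if_true, if_false]
      exact key x hxS y (by tauto) hxy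
  · by_cases hyS : y ∈ Sp
    · simp only [hxS, hyS, if_true, if_false]
      exact (key y hyS x (by tauto) hxy.symm).symm
    · simp only [hxS, hyS, if_false]
      exact hc x (Finset.mem_compl.mpr (by tauto)) y (Finset.mem_compl.mpr (by tauto)) hxy

theorem a0_fin (hEXT : St_EXT) (G : SimpleGraph V) (k : ℕ) (hk : 100 ≤ k)
    (hdeg : ∀ v, (nb G v).card ≤ k + 1) (T : Finset V) (hT : 9 * k ≤ 10 * T.card)
    (hN : ∀ x ∈ T, 9 * (T \ nb G x).card ≤ k) (Sp : Finset V) (hSp : Sp ⊆ T)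
    (h4 : Sp.card ≤ 4) (c : V → Fin k) (hc : PropOn G k c (Tᶜ ∪ Sp))
    (hrep : ∀ u, (∀ s ∈ Sp, G.Adj u s) →
      ((nb G u ∩ (Tᶜ ∪ Sp)).image c).card + 2 ≤ (nb G u ∩ (Tᶜ ∪ Sp)).card) : Col G k := by
  set R := Tᶜ ∪ Sp with hR
  set H := T.filter (fun x => x ∉ Sp ∧ ∀ s ∈ Sp, G.Adj x s) with hH
  have hHT : H ⊆ T := Finset.filter_subset _ _
  have hRH : Disjoint R H := by
    rw [Finset.disjoint_left]
    intro x hx hxH
    rw [hH, Finset.mem_filter] at hxH
    rw [hR, Finset.mem_union, Finset.mem_compl] at hx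
    tauto
  have hTH : (T \ H).card ≤ 4 * (k / 9) := by
    have h1 : T \ H ⊆ Sp.biUnion (fun s => T \ nb G s) := by
      intro x hx
      rw [Finset.mem_sdiff, hH, Finset.mem_filter] at hx
      rw [Finset.mem_biUnion]
      by_cases hxS : x ∈ Sp
      · exact ⟨x, hxS, Finset.mem_sdiff.mpr ⟨hx.1, fun h => (G.loopless.irrefl x) (mem_nb.mp h)⟩⟩
      · have : ¬ ∀ s ∈ Sp, G.Adj x s := fun h => hx.2 ⟨hx.1, hxS, h⟩
        push Not at this
        obtain ⟨s, hs, hxs⟩ := this
        exact ⟨s, hs, Finset.mem_sdiff.mpr ⟨hx.1, fun h => hxs (mem_nb.mp h).symm⟩⟩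
    have h2 := (Finset.card_le_card h1).trans (Finset.card_biUnion_le_card_mul Sp _ (k / 9)
      (fun s hs => by
        have := hN s (hSp hs)
        omega))
    exact h2.trans (Nat.mul_le_mul_right _ h4)
  have hHc : T.card ≤ H.card + 4 * (k / 9) := by
    have := Finset.card_sdiff_add_card_inter T H
    have h2 := Finset.card_le_card (Finset.inter_subset_right : T ∩ H ⊆ H)
    omega
  have hbig : ∀ v ∈ T, 2 ≤ (nb G v ∩ H).card := by
    intro v hv
    have h1 : H ⊆ (nb G v ∩ H) ∪ (T \ nb G v) := by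
      intro x hx
      rw [Finset.mem_union, Finset.mem_inter, Finset.mem_sdiff]
      by_cases hxv : x ∈ nb G v
      · exact Or.inl ⟨hxv, hx⟩
      · exact Or.inr ⟨hHT hx, hxv⟩
    have h2 := (Finset.card_le_card h1).trans (Finset.card_union_le _ _)
    have h3 := hN v hv
    omega
  refine hEXT V G k c R H hRH hc ?_ ?_
  · intro v hvR hvH
    have hvT : v ∈ T := by
      by_contra h
      exact hvR (by rw [hR, Finset.mem_union, Finset.mem_compl]; exact Or.inl h)
    have h1 := hbig v hvT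
    have h2 : ((nb G v ∩ R).image c).card ≤ (nb G v ∩ R).card := Finset.card_image_le
    have h3 := Finset.card_sdiff_add_card_inter (nb G v) R
    have h4 := Finset.card_sdiff_add_card_inter (nb G v \ R) H
    have h5 : (nb G v \ R) ∩ H = nb G v ∩ H := by
      ext x
      simp only [Finset.mem_inter, Finset.mem_sdiff]
      constructor
      · rintro ⟨⟨h, _⟩, h'⟩
        exact ⟨h, h'⟩
      · rintro ⟨h, h'⟩
        exact ⟨⟨h, fun hr => Finset.disjoint_left.mp hRH hr h'⟩, h'⟩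
    rw [h5] at h4
    have h6 := hdeg v
    omega
  · intro u hu
    rw [hH, Finset.mem_filter] at hu
    have h1 := hrep u hu.2.2
    have h3 := Finset.card_sdiff_add_card_inter (nb G u) R
    have h6 := hdeg u
    omega

theorem a0_comb (G : SimpleGraph V) (T : Finset V) (hne : T.Nonempty)
    (hno : ¬ ∃ w, Clq G (T.erase w)) :
    (∃ a a' b b', a ∈ T ∧ a' ∈ T ∧ b ∈ T ∧ b' ∈ T ∧ a ≠ a' ∧ b ≠ b' ∧ a ≠ b ∧ a ≠ b' ∧
      a' ≠ b ∧ a' ≠ b' ∧ ¬ G.Adj a a' ∧ ¬ G.Adj b b') ∨
    (∃ a b d, a ∈ T ∧ b ∈ T ∧ d ∈ T ∧ a ≠ b ∧ a ≠ d ∧ b ≠ d ∧ ¬ G.Adj a b ∧ ¬ G.Adj a d ∧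
      ¬ G.Adj b d) := by
  have hpair : ∀ w, ∃ x y, x ∈ T ∧ y ∈ T ∧ x ≠ w ∧ y ≠ w ∧ x ≠ y ∧ ¬ G.Adj x y := by
    intro w
    have h1 : ¬ Clq G (T.erase w) := fun h => hno ⟨w, h⟩
    unfold Clq at h1
    push Not at h1
    obtain ⟨x, hx, y, hy, hxy, hadj⟩ := h1
    rw [Finset.mem_erase] at hx hy
    exact ⟨x, y, hx.2, hy.2, hx.1, hy.1, hxy, hadj⟩
  obtain ⟨t, ht⟩ := hne
  obtain ⟨a, a', ha, ha', -, -, haa, hnaa⟩ := hpair t
  obtain ⟨x, y, hx, hy, hxa, hya, hxy, hnxy⟩ := hpair a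
  by_cases h1 : x ≠ a' ∧ y ≠ a'
  · left
    exact ⟨a, a', x, y, ha, ha', hx, hy, haa, hxy, hxa.symm, hya.symm, h1.1.symm, h1.2.symm,
      hnaa, hnxy⟩
  -- a non-neighbour `b` of `a'` different from `a`
  have hb : ∃ b, b ∈ T ∧ b ≠ a ∧ b ≠ a' ∧ ¬ G.Adj a' b := by
    by_cases h2 : x = a'
    · subst h2
      exact ⟨y, hy, hya, hxy.symm, hnxy⟩
    · have h3 : y = a' := by
        by_contra h
        exact h1 ⟨h2, h⟩
      subst h3
      exact ⟨x, hx, hxa, hxy, fun h => hnxy h.symm⟩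
  obtain ⟨b, hbT, hba, hba', hnb⟩ := hb
  obtain ⟨z, w, hz, hw, hza, hwa, hzw, hnzw⟩ := hpair a'
  by_cases h4 : z ≠ a ∧ w ≠ a
  · left
    exact ⟨a, a', z, w, ha, ha', hz, hw, haa, hzw, h4.1.symm, h4.2.symm, hza.symm, hwa.symm,
      hnaa, hnzw⟩
  have hd : ∃ d, d ∈ T ∧ d ≠ a ∧ d ≠ a' ∧ ¬ G.Adj a d := by
    by_cases h2 : z = a
    · subst h2
      exact ⟨w, hw, hzw.symm, hwa, hnzw⟩
    · have h3 : w = a := by
        by_contra h
        exact h4 ⟨h2, h⟩
      subst h3
      exact ⟨z, hz, hzw, hza, fun h => hnzw h.symm⟩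
  obtain ⟨d, hdT, hda, hda', hnd⟩ := hd
  by_cases hbd : b = d
  · subst hbd
    right
    exact ⟨a, a', b, ha, ha', hbT, haa, hba.symm, hba'.symm, hnaa, hnd, hnb⟩
  · left
    exact ⟨a', b, a, d, ha', hbT, ha, hdT, hba'.symm, hda.symm, haa.symm, hda'.symm, hba, hbd,
      hnb, hnd⟩

end

theorem t_A0 (hEXT : St_EXT) : St_A0 := by
  intro V _ G k hk hdeg hbad hcrit T hT hN
  by_contra hno
  have hne : T.Nonempty := by
    rw [← Finset.card_pos]
    omega
  obtain ⟨c₀, hc₀⟩ := hcrit T hne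
  have hL : ∀ x ∈ T, 9 * T.card ≤ 9 * (a0_L G c₀ T x).card + 9 + k := by
    intro x hx
    have h1 := a0_L_card G hdeg c₀ T x
    have h2 := hN x hx
    omega
  apply hbad
  rcases a0_comb G T hne hno with ⟨a, a', b, b', ha, ha', hb, hb', haa, hbb, hab, hab', ha'b,
    ha'b', hnaa, hnbb⟩ | ⟨a, b, d, ha, hb, hd, hab, had, hbd, hnab, hnad, hnbd⟩
  · -- two disjoint pairs
    have h1 := Finset.card_inter_add_card_union (a0_L G c₀ T a) (a0_L G c₀ T a')
    have h2 : (a0_L G c₀ T a ∪ a0_L G c₀ T a').card ≤ k := by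
      refine (Finset.card_le_univ _).trans ?_
      rw [Fintype.card_fin]
    have h3 := hL a ha
    have h4 := hL a' ha'
    have h5 : 0 < (a0_L G c₀ T a ∩ a0_L G c₀ T a').card := by omega
    obtain ⟨c₁, hc₁⟩ := Finset.card_pos.mp h5
    have h1' := Finset.card_inter_add_card_union (a0_L G c₀ T b) (a0_L G c₀ T b')
    have h2' : (a0_L G c₀ T b ∪ a0_L G c₀ T b').card ≤ k := by
      refine (Finset.card_le_univ _).trans ?_
      rw [Fintype.card_fin]
    have h3' := hL b hb
    have h4' := hL b' hb'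
    have h5' : 1 < (a0_L G c₀ T b ∩ a0_L G c₀ T b').card := by omega
    obtain ⟨c₂, hc₂, hc₂₁⟩ := Finset.exists_mem_ne h5' c₁
    rw [Finset.mem_inter] at hc₁ hc₂
    let g : V → Fin k := fun x => if x = a ∨ x = a' then c₁ else c₂
    have hga : g a = c₁ := by simp [g]
    have hga' : g a' = c₁ := by simp [g]
    have hgb : g b = c₂ := by
      have : ¬ (b = a ∨ b = a') := by tauto
      simp [g, this]
    have hgb' : g b' = c₂ := by
      have : ¬ (b' = a ∨ b' = a') := by tauto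
      simp [g, this]
    have hmem : ∀ s, s ∈ ({a, a', b, b'} : Finset V) ↔ s = a ∨ s = a' ∨ s = b ∨ s = b' := by
      intro s
      simp
    have hSp : ({a, a', b, b'} : Finset V) ⊆ T := by
      intro s hs
      rw [hmem] at hs
      rcases hs with rfl | rfl | rfl | rfl <;> assumption
    refine a0_fin hEXT G k hk hdeg T hT hN {a, a', b, b'} hSp Finset.card_le_four
      (fun x => if x ∈ ({a, a', b, b'} : Finset V) then g x else c₀ x) ?_ ?_
    · refine a0_prop G c₀ T _ hSp hc₀ g ?_ ?_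
      · intro s hs
        rw [hmem] at hs
        rcases hs with rfl | rfl | rfl | rfl
        · rw [hga]; exact hc₁.1
        · rw [hga']; exact hc₁.2
        · rw [hgb]; exact hc₂.1
        · rw [hgb']; exact hc₂.2
      · intro s hs t ht hst
        rw [hmem] at hs ht
        have hne := G.ne_of_adj hst
        rcases hs with rfl | rfl | rfl | rfl <;> rcases ht with rfl | rfl | rfl | rfl <;>
          first
          | exact absurd rfl hne
          | exact absurd hst hnaa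
          | exact absurd hst.symm hnaa
          | exact absurd hst hnbb
          | exact absurd hst.symm hnbb
          | (simp only [hga, hga', hgb, hgb']; exact hc₂₁)
          | (simp only [hga, hga', hgb, hgb']; exact hc₂₁.symm)
    · intro u hu
      have hmR : ∀ s, s ∈ ({a, a', b, b'} : Finset V) →
          s ∈ nb G u ∩ (Tᶜ ∪ ({a, a', b, b'} : Finset V)) := fun s hs =>
        Finset.mem_inter.mpr ⟨mem_nb.mpr (hu s hs), Finset.mem_union_right _ hs⟩
      have m1 : a ∈ ({a, a', b, b'} : Finset V) := by simp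
      have m2 : a' ∈ ({a, a', b, b'} : Finset V) := by simp
      have m3 : b ∈ ({a, a', b, b'} : Finset V) := by simp
      have m4 : b' ∈ ({a, a', b, b'} : Finset V) := by simp
      refine a0_im2 _ _ a' b' ha'b' (hmR _ m2) (hmR _ m4) ⟨a, hmR _ m1, haa, hab', ?_⟩
        ⟨b, hmR _ m3, ha'b.symm, hbb, ?_⟩
      · simp only [m1, m2, if_true, hga, hga']
      · simp only [m3, m4, if_true, hgb, hgb']
  · -- independent triple
    have h1 := Finset.card_inter_add_card_union (a0_L G c₀ T a) (a0_L G c₀ T b)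
    have h2 : (a0_L G c₀ T a ∪ a0_L G c₀ T b).card ≤ k := by
      refine (Finset.card_le_univ _).trans ?_
      rw [Fintype.card_fin]
    have h1' := Finset.card_inter_add_card_union (a0_L G c₀ T a ∩ a0_L G c₀ T b) (a0_L G c₀ T d)
    have h2' : (a0_L G c₀ T a ∩ a0_L G c₀ T b ∪ a0_L G c₀ T d).card ≤ k := by
      refine (Finset.card_le_univ _).trans ?_
      rw [Fintype.card_fin]
    have h3 := hL a ha
    have h4 := hL b hb
    have h5 := hL d hd
    have h6 : 0 < (a0_L G c₀ T a ∩ a0_L G c₀ T b ∩ a0_L G c₀ T d).card := by omega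
    obtain ⟨c₁, hc₁⟩ := Finset.card_pos.mp h6
    rw [Finset.mem_inter, Finset.mem_inter] at hc₁
    have hmem : ∀ s, s ∈ ({a, b, d} : Finset V) ↔ s = a ∨ s = b ∨ s = d := by
      intro s
      simp
    have hSp : ({a, b, d} : Finset V) ⊆ T := by
      intro s hs
      rw [hmem] at hs
      rcases hs with rfl | rfl | rfl <;> assumption
    refine a0_fin hEXT G k hk hdeg T hT hN {a, b, d} hSp
      (Finset.card_le_three.trans (by norm_num))
      (fun x => if x ∈ ({a, b, d} : Finset V) then (fun _ => c₁ : V → Fin k) x else c₀ x) ?_ ?_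
    · refine a0_prop G c₀ T _ hSp hc₀ (fun _ => c₁) ?_ ?_
      · intro s hs
        rw [hmem] at hs
        rcases hs with rfl | rfl | rfl
        · exact hc₁.1.1
        · exact hc₁.1.2
        · exact hc₁.2
      · intro s hs t ht hst
        rw [hmem] at hs ht
        have hne := G.ne_of_adj hst
        exfalso
        rcases hs with rfl | rfl | rfl <;> rcases ht with rfl | rfl | rfl <;>
          first
          | exact absurd rfl hne
          | exact hnab hst
          | exact hnab hst.symm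
          | exact hnad hst
          | exact hnad hst.symm
          | exact hnbd hst
          | exact hnbd hst.symm
    · intro u hu
      have hmR : ∀ s, s ∈ ({a, b, d} : Finset V) →
          s ∈ nb G u ∩ (Tᶜ ∪ ({a, b, d} : Finset V)) := fun s hs =>
        Finset.mem_inter.mpr ⟨mem_nb.mpr (hu s hs), Finset.mem_union_right _ hs⟩
      have m1 : a ∈ ({a, b, d} : Finset V) := by simp
      have m2 : b ∈ ({a, b, d} : Finset V) := by simp
      have m3 : d ∈ ({a, b, d} : Finset V) := by simp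
      refine a0_im2 _ _ b d hbd (hmR _ m2) (hmR _ m3) ⟨a, hmR _ m1, hab, had, ?_⟩
        ⟨a, hmR _ m1, hab, had, ?_⟩
      · simp only [m1, m2, if_true]
      · simp only [m1, m3, if_true]

end Pool.Agent.N515.BK
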