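import Pool.Agent.N515.BK.Stm

set_option autoImplicit false

/-!
# Basic facts of project BK: product bound, binomial bound, balls (helper618)
-/

namespace Pool.Agent.N515.BK

open Finset Classical
open Pool.Agent.Helper805.CHS.LLL (cnt ev mem_ev indep cnt_mono)

theorem t_PRD : St_PRD := by
  intro T C ι _ _ I F S p hp hN
  have hNr : (0 : ℝ) < Fintype.card (T → C) := by exact_mod_cast hN
  induction I using Finset.induction_on with
  | empty =>
    intro _ _ _
    have : (cnt (fun ω : T → C => ∀ i ∈ (∅ : Finset ι), F i ω)) ≤ Fintype.card (T → C) := by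
      unfold Pool.Agent.Helper805.CHS.LLL.cnt
      exact Finset.card_le_univ _
    have h2 : (cnt (fun ω : T → C => ∀ i ∈ (∅ : Finset ι), F i ω) : ℝ) ≤
        Fintype.card (T → C) := by exact_mod_cast this
    simpa using h2
  | insert i I hiI ih =>
    intro hdep hdis hcnt
    have ih' := ih (fun j hj => hdep j (mem_insert_of_mem hj))
      (fun j hj l hl => hdis j (mem_insert_of_mem hj) l (mem_insert_of_mem hl))
      (fun j hj => hcnt j (mem_insert_of_mem hj))
    have hind := indep (F i) (fun ω : T → C => ∀ j ∈ I, F j ω) (S i)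
      (hdep i (mem_insert_self i I)) (by
        intro ω ω' hω h j hj
        refine hdep j (mem_insert_of_mem hj) ω ω' ?_ (h j hj)
        intro t ht
        apply hω
        intro hti
        have hij : i ≠ j := by rintro rfl; exact hiI hj
        exact (Finset.disjoint_left.mp (hdis i (mem_insert_self i I) j
          (mem_insert_of_mem hj) hij)) hti ht)
    have e1 : cnt (fun ω : T → C => ∀ j ∈ insert i I, F j ω) ≤
        cnt (fun ω : T → C => F i ω ∧ ∀ j ∈ I, F j ω) := by
      apply cnt_mono
      intro ω hω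
      exact ⟨hω i (mem_insert_self i I), fun j hj => hω j (mem_insert_of_mem hj)⟩
    have e1' : (cnt (fun ω : T → C => ∀ j ∈ insert i I, F j ω) : ℝ) ≤
        cnt (fun ω : T → C => F i ω ∧ ∀ j ∈ I, F j ω) := by exact_mod_cast e1
    refine e1'.trans ?_
    refine le_of_mul_le_mul_right ?_ hNr
    have hind' : (cnt (fun ω : T → C => F i ω ∧ ∀ j ∈ I, F j ω) : ℝ) *
        (Fintype.card (T → C) : ℝ) = (cnt (F i) : ℝ) *
        (cnt (fun ω : T → C => ∀ j ∈ I, F j ω) : ℝ) := by exact_mod_cast hind
    rw [hind', card_insert_of_notMem hiI]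
    calc (cnt (F i) : ℝ) * (cnt (fun ω : T → C => ∀ j ∈ I, F j ω) : ℝ)
        ≤ (p * Fintype.card (T → C)) * (p ^ I.card * Fintype.card (T → C)) :=
          mul_le_mul (hcnt i (mem_insert_self i I)) ih' (Nat.cast_nonneg _) (by positivity)
      _ = p ^ (I.card + 1) * Fintype.card (T → C) * Fintype.card (T → C) := by ring

theorem bas_cnt_not {T C : Type} [Fintype T] [Fintype C] (P : (T → C) → Prop) :
    (cnt (fun ω => ¬ P ω) : ℝ) = Fintype.card (T → C) - cnt P := by
  have h : cnt P + cnt (fun ω => ¬ P ω) = Fintype.card (T → C) := by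
    unfold Pool.Agent.Helper805.CHS.LLL.cnt Pool.Agent.Helper805.CHS.LLL.ev
    rw [← Finset.card_univ]
    convert Finset.card_filter_add_card_filter_not (s := (univ : Finset (T → C))) P
  have h' : (cnt P : ℝ) + (cnt (fun ω => ¬ P ω) : ℝ) = Fintype.card (T → C) := by exact_mod_cast h
  linarith

theorem t_BIN (hPRD : St_PRD) : St_BIN := by
  intro T C _ _ h F S p hp0 hp1 hh hN hdep hdis hcnt
  have hsub : ev (fun ω : T → C => ¬ ∃ i < h, ∃ j < h, i ≠ j ∧ F i ω ∧ F j ω) ⊆
      (range h).biUnion (fun j => ev (fun ω : T → C => ∀ i ∈ (range h).erase j, ¬ F i ω)) := by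
    intro ω hω
    rw [mem_ev] at hω
    rw [mem_biUnion]
    by_cases hs : ∃ j < h, F j ω
    · obtain ⟨j, hj, hFj⟩ := hs
      refine ⟨j, mem_range.mpr hj, ?_⟩
      rw [mem_ev]
      intro i hi hFi
      rw [mem_erase, mem_range] at hi
      exact hω ⟨i, hi.2, j, hj, hi.1, hFi, hFj⟩
    · refine ⟨0, mem_range.mpr (by omega), ?_⟩
      rw [mem_ev]
      intro i hi hFi
      rw [mem_erase, mem_range] at hi
      exact hs ⟨i, hi.2, hFi⟩
  have h1 : cnt (fun ω : T → C => ¬ ∃ i < h, ∃ j < h, i ≠ j ∧ F i ω ∧ F j ω) ≤
      ∑ j ∈ range h, cnt (fun ω : T → C => ∀ i ∈ (range h).erase j, ¬ F i ω) :=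
    (Finset.card_le_card hsub).trans Finset.card_biUnion_le
  have h1' : (cnt (fun ω : T → C => ¬ ∃ i < h, ∃ j < h, i ≠ j ∧ F i ω ∧ F j ω) : ℝ) ≤
      ∑ j ∈ range h, (cnt (fun ω : T → C => ∀ i ∈ (range h).erase j, ¬ F i ω) : ℝ) := by
    exact_mod_cast h1
  have h2 : ∀ j ∈ range h, (cnt (fun ω : T → C => ∀ i ∈ (range h).erase j, ¬ F i ω) : ℝ) ≤
      (1 - p) ^ (h - 1) * Fintype.card (T → C) := by
    intro j hj
    have hcard : ((range h).erase j).card = h - 1 := by
      rw [card_erase_of_mem hj, card_range]
    have := hPRD T C ℕ ((range h).erase j) (fun i ω => ¬ F i ω) S (1 - p) (by linarith) hN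
      (by
        intro i hi ω ω' hω hn hF
        rw [mem_erase, mem_range] at hi
        exact hn (hdep i hi.2 ω' ω (fun t ht => (hω t ht).symm) hF))
      (by
        intro i hi l hl hil
        rw [mem_erase, mem_range] at hi hl
        exact hdis i hi.2 l hl.2 hil)
      (by
        intro i hi
        rw [mem_erase, mem_range] at hi
        rw [bas_cnt_not]
        have := hcnt i hi.2
        linarith)
    rw [hcard] at this
    exact this
  refine h1'.trans ((Finset.sum_le_sum h2).trans ?_)
  rw [sum_const, card_range, nsmul_eq_mul, mul_assoc]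

theorem t_BALL : St_BALL := by
  intro V _ G k hdeg
  have hmem : ∀ r (v w : V), w ∈ ball G (r + 1) v ↔ ∃ x ∈ ball G r v, w ∈ insert x (nb G x) := by
    intro r v w
    change w ∈ (ball G r v).biUnion (fun x => insert x (nb G x)) ↔ _
    rw [mem_biUnion]
  have h0 : ∀ r (v : V), v ∈ ball G r v := by
    intro r v
    induction r with
    | zero => exact mem_singleton_self v
    | succ r ih => exact (hmem r v v).mpr ⟨v, ih, mem_insert_self _ _⟩
  have hstep : ∀ r (v x w : V), x ∈ ball G r v → w ∈ insert x (nb G x) → w ∈ ball G (r + 1) v :=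
    fun r v x w hx hw => (hmem r v w).mpr ⟨x, hx, hw⟩
  have hcard : ∀ r (v : V), (ball G r v).card ≤ (k + 2) ^ r := by
    intro r v
    induction r with
    | zero => exact le_of_eq (card_singleton v)
    | succ r ih =>
      change ((ball G r v).biUnion (fun x => insert x (nb G x))).card ≤ _
      have h1 : ((ball G r v).biUnion (fun x => insert x (nb G x))).card ≤
          (ball G r v).card * (k + 2) := by
        apply card_biUnion_le_card_mul
        intro x _
        exact (card_insert_le _ _).trans (Nat.succ_le_succ (hdeg x))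
      rw [pow_succ]
      exact h1.trans (Nat.mul_le_mul_right _ ih)
  have hcomp : ∀ s r (v x w : V), x ∈ ball G r v → w ∈ ball G s x → w ∈ ball G (r + s) v := by
    intro s
    induction s with
    | zero =>
      intro r v x w hx hw
      have : w = x := mem_singleton.mp hw
      rw [this]
      exact hx
    | succ s ih =>
      intro r v x w hx hw
      obtain ⟨y, hy, hwy⟩ := (hmem s x w).mp hw
      exact hstep (r + s) v y w (ih r v x y hx hy) hwy
  have hsymm : ∀ r (v x : V), x ∈ ball G r v → v ∈ ball G r x := by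
    intro r
    induction r with
    | zero =>
      intro v x hx
      have : x = v := mem_singleton.mp hx
      rw [this]
      exact mem_singleton_self v
    | succ r ih =>
      intro v x hx
      obtain ⟨y, hy, hxy⟩ := (hmem r v x).mp hx
      have h1 : y ∈ ball G 1 x := by
        refine hstep 0 x x y (h0 0 x) ?_
        rw [mem_insert] at hxy ⊢
        rcases hxy with h | h
        · exact Or.inl h.symm
        · right
          rw [mem_nb] at h ⊢
          exact h.symm
      have := hcomp r 1 x y v h1 (ih v y hy)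
      rwa [add_comm] at this
  refine ⟨h0, hcard, ?_, ?_, ?_⟩
  · intro r v w hw
    exact hstep r v w w hw (mem_insert_self _ _)
  · intro r v x w hx hw
    exact hstep r v x w hx (mem_insert_of_mem hw)
  · intro r v
    refine le_trans (card_le_card ?_) (hcard (2 * r) v)
    intro w hw
    rw [mem_filter, Finset.not_disjoint_iff] at hw
    obtain ⟨_, x, hxv, hxw⟩ := hw
    have := hcomp r r v x w hxv (hsymm r w x hxw)
    rwa [two_mul]

end Pool.Agent.N515.BK
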