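import Pool.Agent.N515.BK.Stm

set_option autoImplicit false

/-! # Extension of partial colourings and use of minimality -/

namespace Pool.Agent.N515.BK

open Finset Classical

section
variable {V : Type} [Fintype V]

/-- one greedy step -/
theorem ext_step (G : SimpleGraph V) (k : ℕ) (c : V → Fin k) (S : Finset V) (v : V)
    (hc : PropOn G k c S) (hv : v ∉ S) (hlt : ((nb G v ∩ S).image c).card < k) :
    ∃ c' : V → Fin k, PropOn G k c' (insert v S) ∧ ∀ x, x ≠ v → c' x = c x := by
  have h1 : ∃ col : Fin k, col ∉ (nb G v ∩ S).image c := by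
    by_contra hno
    push Not at hno
    have h2 : (univ : Finset (Fin k)) ⊆ (nb G v ∩ S).image c := fun x _ => hno x
    have h3 := Finset.card_le_card h2
    rw [Finset.card_univ, Fintype.card_fin] at h3
    omega
  obtain ⟨col, hcol⟩ := h1
  have hcol' : ∀ x ∈ S, G.Adj v x → c x ≠ col := by
    intro x hx hvx he
    apply hcol
    rw [Finset.mem_image]
    exact ⟨x, Finset.mem_inter.mpr ⟨mem_nb.mpr hvx, hx⟩, he⟩
  refine ⟨Function.update c v col, ?_, fun x hx => Function.update_of_ne hx _ _⟩
  intro a ha b hb hab
  rw [Finset.mem_insert] at ha hb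
  have hne : a ≠ b := G.ne_of_adj hab
  by_cases hav : a = v
  · subst hav
    have hbS : b ∈ S := by
      rcases hb with h | h
      · exact absurd h.symm hne
      · exact h
    rw [Function.update_self, Function.update_of_ne hne.symm]
    exact (hcol' b hbS hab).symm
  · have haS : a ∈ S := by
      rcases ha with h | h
      · exact absurd h hav
      · exact h
    rw [Function.update_of_ne hav]
    by_cases hbv : b = v
    · subst hbv
      rw [Function.update_self]
      exact hcol' a haS hab.symm
    · have hbS : b ∈ S := by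
        rcases hb with h | h
        · exact absurd h hbv
        · exact h
      rw [Function.update_of_ne hbv]
      exact hc a haS b hbS hab

/-- greedy extension over a finite set `X` -/
theorem ext_greedy (G : SimpleGraph V) (k : ℕ) (S : Finset V) (c : V → Fin k)
    (hc : PropOn G k c S) (X : Finset V) (hX : Disjoint S X)
    (hlt : ∀ v ∈ X, ∀ c' : V → Fin k, (∀ x ∈ S, c' x = c x) →
      ∀ X' ⊆ X, v ∉ X' → ((nb G v ∩ (S ∪ X')).image c').card < k) :
    ∃ c' : V → Fin k, PropOn G k c' (S ∪ X) ∧ ∀ x ∈ S, c' x = c x := by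
  induction X using Finset.induction_on with
  | empty => exact ⟨c, by simpa using hc, fun _ _ => rfl⟩
  | insert v X hvX ih =>
    have hXS : Disjoint S X := Finset.disjoint_of_subset_right (Finset.subset_insert _ _) hX
    obtain ⟨c', h1, h2⟩ := ih hXS (fun w hw c'' hc'' X' hX' hwX' =>
      hlt w (Finset.mem_insert_of_mem hw) c'' hc'' X' (hX'.trans (Finset.subset_insert _ _)) hwX')
    have hvS : v ∉ S := fun h => Finset.disjoint_left.mp hX h (Finset.mem_insert_self _ _)
    have hv : v ∉ S ∪ X := by
      rw [Finset.mem_union]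
      push Not
      exact ⟨hvS, hvX⟩
    obtain ⟨c'', h3, h4⟩ := ext_step G k c' (S ∪ X) v h1 hv
      (hlt v (Finset.mem_insert_self _ _) c' h2 X (Finset.subset_insert _ _) hvX)
    refine ⟨c'', ?_, ?_⟩
    · have : S ∪ insert v X = insert v (S ∪ X) := by
        ext x
        simp only [Finset.mem_union, Finset.mem_insert]
        tauto
      rw [this]
      exact h3
    · intro x hx
      rw [h4 x (fun h => hvS (h ▸ hx)), h2 x hx]

end

theorem t_EXT : St_EXT := by
  intro V _ G k c R H hRH hc h1 h2
  -- first the vertices outside `R ∪ H`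
  obtain ⟨c₁, hc₁, hag₁⟩ := ext_greedy G k R c hc ((R ∪ H)ᶜ)
    (by
      rw [Finset.disjoint_left]
      intro x hx hx'
      exact (Finset.mem_compl.mp hx') (Finset.mem_union_left _ hx))
    (by
      intro v hv c' hag X' hX' hvX'
      have hv' := Finset.mem_compl.mp hv
      have hvR : v ∉ R := fun h => hv' (Finset.mem_union_left _ h)
      have hvH : v ∉ H := fun h => hv' (Finset.mem_union_right _ h)
      refine lt_of_le_of_lt ?_ (h1 v hvR hvH)
      have hsub : (nb G v ∩ (R ∪ X')).image c' ⊆
          (nb G v ∩ R).image c ∪ ((nb G v \ R) \ H).image c' := by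
        intro z hz
        rw [Finset.mem_image] at hz
        obtain ⟨x, hx, rfl⟩ := hz
        rw [Finset.mem_inter, Finset.mem_union] at hx
        rw [Finset.mem_union, Finset.mem_image, Finset.mem_image]
        by_cases hxR : x ∈ R
        · left
          exact ⟨x, Finset.mem_inter.mpr ⟨hx.1, hxR⟩, (hag x hxR).symm⟩
        · right
          have hxX : x ∈ X' := by
            rcases hx.2 with h | h
            · exact absurd h hxR
            · exact h
          have hxH : x ∉ H := fun h =>
            (Finset.mem_compl.mp (hX' hxX)) (Finset.mem_union_right _ h)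
          exact ⟨x, Finset.mem_sdiff.mpr ⟨Finset.mem_sdiff.mpr ⟨hx.1, hxR⟩, hxH⟩, rfl⟩
      refine (Finset.card_le_card hsub).trans ((Finset.card_union_le _ _).trans ?_)
      exact Nat.add_le_add_left Finset.card_image_le _)
  -- then the vertices of `H`
  obtain ⟨c₂, hc₂, -⟩ := ext_greedy G k (R ∪ (R ∪ H)ᶜ) c₁ hc₁ H
    (by
      rw [Finset.disjoint_left]
      intro x hx hxH
      rw [Finset.mem_union] at hx
      rcases hx with h | h
      · exact Finset.disjoint_left.mp hRH h hxH
      · exact (Finset.mem_compl.mp h) (Finset.mem_union_right _ hxH))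
    (by
      intro u hu c' hag X' hX' huX'
      refine lt_of_le_of_lt ?_ (h2 u hu)
      have hsub : (nb G u ∩ (R ∪ (R ∪ H)ᶜ ∪ X')).image c' ⊆
          (nb G u ∩ R).image c ∪ (nb G u \ R).image c' := by
        intro z hz
        rw [Finset.mem_image] at hz
        obtain ⟨x, hx, rfl⟩ := hz
        rw [Finset.mem_inter] at hx
        rw [Finset.mem_union, Finset.mem_image, Finset.mem_image]
        by_cases hxR : x ∈ R
        · left
          refine ⟨x, Finset.mem_inter.mpr ⟨hx.1, hxR⟩, ?_⟩
          rw [hag x (Finset.mem_union_left _ hxR), hag₁ x hxR]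
        · right
          exact ⟨x, Finset.mem_sdiff.mpr ⟨hx.1, hxR⟩, rfl⟩
      refine (Finset.card_le_card hsub).trans ((Finset.card_union_le _ _).trans ?_)
      exact Nat.add_le_add_left Finset.card_image_le _)
  refine ⟨c₂, ?_⟩
  intro a _ b _ hab
  refine hc₂ a ?_ b ?_ hab
  · simp only [Finset.mem_union, Finset.mem_compl]
    tauto
  · simp only [Finset.mem_union, Finset.mem_compl]
    tauto

theorem t_USE : St_USE := by
  intro V _ G k hG H T hT hdeg hclq
  have hk : 0 < k := by
    have := hclq ∅ (Finset.disjoint_empty_left _) (by intro a ha; simp at ha)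
    simpa using this
  let W : Type := {x : V // x ∉ T}
  let HW : SimpleGraph W := H.comap Subtype.val
  obtain ⟨t, ht⟩ := hT
  have hcard : Fintype.card W < Fintype.card V :=
    Fintype.card_subtype_lt (p := fun x => x ∉ T) (x := t) (by simpa using ht)
  have hgood : Good HW k := by
    constructor
    · intro v
      refine le_trans ?_ (hdeg v.1 v.2)
      have : (nb HW v).map (Function.Embedding.subtype (fun x : V => x ∉ T)) ⊆ nb H v.1 \ T := by
        intro z hz
        rw [Finset.mem_map] at hz
        obtain ⟨w, hw, rfl⟩ := hz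
        rw [mem_nb] at hw
        exact Finset.mem_sdiff.mpr ⟨mem_nb.mpr hw, w.2⟩
      have h2 := Finset.card_le_card this
      rwa [Finset.card_map] at h2
    · intro Q hQ
      have h3 := hclq (Q.map (Function.Embedding.subtype (fun x : V => x ∉ T))) ?_ ?_
      · rwa [Finset.card_map] at h3
      · rw [Finset.disjoint_left]
        intro z hz hzT
        rw [Finset.mem_map] at hz
        obtain ⟨w, hw, rfl⟩ := hz
        exact w.2 hzT
      · intro a ha b hb hab
        rw [Finset.mem_map] at ha hb
        obtain ⟨a', ha', rfl⟩ := ha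
        obtain ⟨b', hb', rfl⟩ := hb
        exact hQ a' ha' b' hb' (fun h => hab (by rw [h]))
  obtain ⟨c, hc⟩ := hG.min W HW hcard hgood
  refine ⟨fun x => if hx : x ∉ T then c ⟨x, hx⟩ else ⟨0, hk⟩, ?_⟩
  intro a ha b hb hab
  have ha' : a ∉ T := Finset.mem_compl.mp ha
  have hb' : b ∉ T := Finset.mem_compl.mp hb
  simp only [ha', hb', not_false_eq_true, dif_pos]
  exact hc ⟨a, ha'⟩ (Finset.mem_univ _) ⟨b, hb'⟩ (Finset.mem_univ _) hab

theorem t_DEG : St_DEG := by
  intro V _ G k hG v
  by_contra hlt
  push Not at hlt
  obtain ⟨c, hc⟩ := t_USE V G k hG G {v} (Finset.singleton_nonempty v)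
    (fun w _ => (Finset.card_le_card Finset.sdiff_subset).trans (hG.good.1 w))
    (fun Q _ hQ => hG.good.2 Q hQ)
  apply hG.bad
  refine t_EXT V G k c ({v}ᶜ) ∅ (Finset.disjoint_empty_right _) hc ?_ (by simp)
  intro w hw _
  have hwv : w = v := by
    by_contra h
    exact hw (by simpa using h)
  subst hwv
  have h1 : ((nb G w ∩ {w}ᶜ).image c).card ≤ (nb G w ∩ {w}ᶜ).card := Finset.card_image_le
  have h2 : ((nb G w \ {w}ᶜ) \ ∅).card = (nb G w \ {w}ᶜ).card := by simp
  have h3 := Finset.card_sdiff_add_card_inter (nb G w) ({w}ᶜ)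
  omega

end Pool.Agent.N515.BK
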