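import Pool.Agent.N515.BK.Ext

set_option autoImplicit false

/-! # Assembly -/

namespace Pool.Agent.N515.BK

open Finset Classical

theorem arith1 (n : ℕ) (hn : 40 ≤ n) : 2 * n ^ 5 + 6 ≤ n ^ 26 := by
  have h1 : n ^ 26 = n ^ 5 * n ^ 21 := by ring
  have h2 : 40 ≤ n ^ 21 := hn.trans (Nat.le_self_pow (by norm_num) n)
  have h3 : 1 ≤ n ^ 5 := Nat.one_le_pow _ _ (by omega)
  rw [h1]
  nlinarith

theorem arith2 (n : ℕ) (hn : 40 ≤ n) : 10 * (2 * n ^ 5 + 1 + n ^ 26) ≤ 9 * (20 * n ^ 40) := by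
  have h1 : n ^ 26 ≤ n ^ 40 := Nat.pow_le_pow_right (by omega) (by norm_num)
  have h2 : n ^ 5 ≤ n ^ 40 := Nat.pow_le_pow_right (by omega) (by norm_num)
  have h3 : 1 ≤ n ^ 40 := Nat.one_le_pow _ _ (by omega)
  nlinarith

theorem arith3 (n : ℕ) (hn : 40 ≤ n) :
    20 * n ^ 40 * (2 * n ^ 5 + 2) ≤ 80 * n ^ 19 * n ^ 26 := by
  have h1 : 80 * n ^ 19 * n ^ 26 = 20 * n ^ 40 * (4 * n ^ 5) := by ring
  have h3 : 1 ≤ n ^ 5 := Nat.one_le_pow _ _ (by omega)
  rw [h1]
  exact Nat.mul_le_mul_left _ (by omega)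

theorem arith4 (n : ℕ) (hn : 40 ≤ n) :
    80 * n ^ 19 * (80 * n ^ 19) + 8 * n ^ 13 * (2 * n ^ 26 + 1) + 2 * (2 * n ^ 5) + 4 ≤
      20 * n ^ 40 := by
  have e1 : 80 * n ^ 19 * (80 * n ^ 19) = 6400 * n ^ 38 := by ring
  have e2 : 8 * n ^ 13 * (2 * n ^ 26 + 1) = 16 * n ^ 39 + 8 * n ^ 13 := by ring
  have h1 : 1600 * n ^ 38 ≤ n ^ 40 := by
    have : n ^ 40 = n ^ 38 * (n * n) := by ring
    rw [this, mul_comm]
    exact Nat.mul_le_mul_left _ (by nlinarith)
  have h2 : 40 * n ^ 39 ≤ n ^ 40 := by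
    have : n ^ 40 = n ^ 39 * n := by ring
    rw [this, mul_comm]
    exact Nat.mul_le_mul_left _ hn
  have h3 : n ^ 13 ≤ n ^ 39 := Nat.pow_le_pow_right (by omega) (by norm_num)
  have h4 : n ^ 5 ≤ n ^ 39 := Nat.pow_le_pow_right (by omega) (by norm_num)
  have h5 : 1 ≤ n ^ 39 := Nat.one_le_pow _ _ (by omega)
  rw [e1, e2]
  omega

theorem t_BK (hSTR : St_STR) (hP1 : St_P1) (hP2 : St_P2) (hP3 : St_P3) (hNUM : St_NUM) :
    St_BK := by
  obtain ⟨n, hn, hnum⟩ := hNUM
  have hn1 : 1 ≤ n := by omega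
  have hnp : ∀ m : ℕ, 1 ≤ n ^ m := fun m => Nat.one_le_pow _ _ (by omega)
  have h40 : 40 ≤ n ^ 40 := hn.trans (Nat.le_self_pow (by norm_num) n)
  refine ⟨20 * n ^ 40, by omega, ?_⟩
  by_contra hno
  push Not at hno
  -- a counterexample with the least number of vertices
  let P : ℕ → Prop := fun m => ∃ (V : Type) (_ : Fintype V) (G : SimpleGraph V),
    Fintype.card V = m ∧ Good G (20 * n ^ 40) ∧ ¬ Col G (20 * n ^ 40)
  have hP : ∃ m, P m := by
    obtain ⟨V, hV, G, h1, h2⟩ := hno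
    exact ⟨_, V, hV, G, rfl, h1, h2⟩
  obtain ⟨V, hV, G, hcard, hgood, hbad⟩ := Nat.find_spec hP
  have hmin : MinBad V G (20 * n ^ 40) := by
    refine ⟨hgood, hbad, ?_⟩
    intro W hW H hlt hH
    by_contra hH2
    have hlt' : Fintype.card W < Nat.find hP := by
      calc Fintype.card W < Fintype.card V := hlt
        _ = Nat.find hP := hcard
    exact Nat.find_min hP hlt' ⟨W, hW, H, rfl, hH, hH2⟩
  obtain ⟨hn1', hn2'⟩ := hnum (n ^ 4) (20 * n ^ 40) (61 * n ^ 36) (n ^ 35) (10 * n ^ 36)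
    (400 * n ^ 36) _ rfl rfl rfl rfl rfl rfl rfl
  have hstr := hSTR V G (20 * n ^ 40) (2 * n ^ 5) (8 * n ^ 13) (n ^ 26) (80 * n ^ 19) hmin
    (by omega)
    (by
      have : n ^ 5 ≤ n ^ 40 := Nat.pow_le_pow_right (by omega) (by norm_num)
      omega)
    (by have := hnp 5; omega) (arith1 n hn) (arith2 n hn) (arith3 n hn) (arith4 n hn)
    (by
      have h5 : n ^ 5 ≤ n ^ 39 := Nat.pow_le_pow_right (by omega) (by norm_num)
      have h2 : 40 * n ^ 39 ≤ n ^ 40 := by
        have : n ^ 40 = n ^ 39 * n := by ring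
        rw [this, mul_comm]
        exact Nat.mul_le_mul_left _ hn
      omega)
  obtain ⟨β, hβ1, hβ2, hβ3⟩ := hP1 V G (20 * n ^ 40) (n ^ 4) n (61 * n ^ 36) (n ^ 35)
    (2 * n ^ 5) (8 * n ^ 13) hgood.1 (hnp 4) hn1
    (le_of_eq (by ring)) (le_of_eq (by ring)) (le_of_eq (by ring))
    (by
      have e : 2 * n ^ 4 * (61 * n ^ 36) = 122 * n ^ 40 := by ring
      rw [e]
      omega)
    (by exact_mod_cast hn1') hstr
  obtain ⟨φ, hφ⟩ := hP2 V G (20 * n ^ 40) (n ^ 4) (10 * n ^ 36) (400 * n ^ 36) (61 * n ^ 36)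
    (n ^ 35) _ β hgood.1 (hnp 4) (by have := hnp 36; omega) (by have := hnp 36; omega)
    (by have := hnp 36; omega)
    (by
      have h1 : n ^ 35 ≤ n ^ 36 := Nat.pow_le_pow_right (by omega) (by norm_num)
      omega)
    hβ1 hβ2 hβ3 rfl (by exact_mod_cast hn2')
  exact hbad (hP3 V G (20 * n ^ 40) (n ^ 4) (10 * n ^ 36) (400 * n ^ 36) β φ hgood.1
    (le_of_eq (by ring)) (by omega) hφ)

theorem final (hBK : St_BK) : ¬ (∀ d : ℕ, 3 ≤ d →
      ∀ (V : Type) [Finite V] (G : SimpleGraph V),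
        (∀ v : V, (G.neighborSet v).ncard ≤ d) →
        Nonempty ((⊤ : SimpleGraph (Fin 2)) →g G) →
        IsEmpty (G →g (⊤ : SimpleGraph (Fin 2))) →
        Nonempty (G →g (⊤ : SimpleGraph (Fin d))) →
        IsEmpty ((⊤ : SimpleGraph (Fin d)) →g G) →
        ∃ (W : Type) (_ : Finite W) (H : SimpleGraph W),
          (∀ w : W, (H.neighborSet w).ncard ≤ d) ∧
          IsEmpty (G →g H) ∧ IsEmpty (H →g G)) := by
  intro hall
  obtain ⟨k, hk, hBK⟩ := hBK
  have key : ∀ {m p : ℕ} (f : (⊤ : SimpleGraph (Fin m)) →g (⊤ : SimpleGraph (Fin p))), m ≤ p := by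
    intro m p f
    have hinj : Function.Injective f := by
      intro a b hab
      by_contra hne
      have h1 : (⊤ : SimpleGraph (Fin m)).Adj a b := by simpa using hne
      have h2 := f.map_adj h1
      rw [hab] at h2
      exact (⊤ : SimpleGraph (Fin p)).loopless.irrefl _ h2
    simpa using Fintype.card_le_of_injective f hinj
  obtain ⟨W, hW, H, hdeg, hGH, hHG⟩ := hall (k + 1) (by omega) (Fin k)
    (⊤ : SimpleGraph (Fin k))
    (by
      intro v
      have h1 : ((⊤ : SimpleGraph (Fin k)).neighborSet v).ncard ≤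
          (Set.univ : Set (Fin k)).ncard := Set.ncard_le_ncard (Set.subset_univ _)
      rw [Set.ncard_univ, Nat.card_eq_fintype_card, Fintype.card_fin] at h1
      omega)
    ⟨{ toFun := fun i => ⟨i.1, by omega⟩
       map_rel' := by
        intro a b hab
        simp only [SimpleGraph.top_adj, ne_eq, Fin.mk.injEq] at hab ⊢
        exact fun h => hab (Fin.ext h) }⟩
    ⟨fun f => by have := key f; omega⟩
    ⟨{ toFun := fun i => ⟨i.1, by omega⟩
       map_rel' := by
        intro a b hab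
        simp only [SimpleGraph.top_adj, ne_eq, Fin.mk.injEq] at hab ⊢
        exact fun h => hab (Fin.ext h) }⟩
    ⟨fun f => by have := key f; omega⟩
  have := Fintype.ofFinite W
  have hgood : Good H k := by
    constructor
    · intro v
      have h1 := hdeg v
      have h2 : (H.neighborSet v).ncard = (nb H v).card := by
        rw [← Set.ncard_coe_finset]
        congr 1
        ext w
        simp [nb]
      omega
    · intro Q hQ
      by_contra hge
      push Not at hge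
      obtain ⟨Q', hQ', hcard⟩ := Finset.exists_subset_card_eq hge
      let e := Q'.equivFin
      refine hGH.false ?_
      refine { toFun := fun i => (e.symm (Fin.cast hcard.symm i)).1, map_rel' := ?_ }
      intro a b hab
      refine hQ _ (hQ' (e.symm _).2) _ (hQ' (e.symm _).2) ?_
      intro h
      simp only [SimpleGraph.top_adj, ne_eq] at hab
      apply hab
      have h3 := e.symm.injective (Subtype.ext h)
      exact Fin.cast_injective _ h3
  obtain ⟨c, hc⟩ := hBK W H hgood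
  refine hHG.false { toFun := c, map_rel' := ?_ }
  intro a b hab
  simp only [SimpleGraph.top_adj, ne_eq]
  exact hc a (Finset.mem_univ _) b (Finset.mem_univ _) hab

end Pool.Agent.N515.BK
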