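import Mathlib
import Pool.Agent.Helper805.CHS.Colour

set_option autoImplicit false

/-!
# Graphs with maximum degree at most `k + 1` and no clique of size `k` are `k`-colourable (one huge `k`)

Definitions and statements of project BK (weak Borodin-Kostochka theorem for one huge `k`).
-/

namespace Pool.Agent.N515.BK

open Finset Classical
open Pool.Agent.Helper805.CHS.LLL (cnt)

/-- the event `P` is determined by the coordinates in `S` -/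
abbrev Dep {T C : Type} (P : (T → C) → Prop) (S : Finset T) : Prop :=
  Pool.Agent.Helper805.CHS.LLL.DependsOn P S

section Defs

variable {V : Type} [Fintype V]

/-- the neighbours of `v` -/
noncomputable def nb (G : SimpleGraph V) (v : V) : Finset V := univ.filter (fun w => G.Adj v w)

theorem mem_nb {G : SimpleGraph V} {v w : V} : w ∈ nb G v ↔ G.Adj v w := by simp [nb]

/-- `Q` is a clique -/
def Clq (G : SimpleGraph V) (Q : Finset V) : Prop := ∀ a ∈ Q, ∀ b ∈ Q, a ≠ b → G.Adj a b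

/-- `c` is a proper colouring of the graph induced on `S` -/
def PropOn (G : SimpleGraph V) (k : ℕ) (c : V → Fin k) (S : Finset V) : Prop :=
  ∀ a ∈ S, ∀ b ∈ S, G.Adj a b → c a ≠ c b

/-- `G` is `k`-colourable -/
def Col (G : SimpleGraph V) (k : ℕ) : Prop := ∃ c : V → Fin k, PropOn G k c univ

/-- maximum degree at most `k + 1`, all cliques have fewer than `k` vertices -/
def Good (G : SimpleGraph V) (k : ℕ) : Prop :=
  (∀ v, (nb G v).card ≤ k + 1) ∧ ∀ Q : Finset V, Clq G Q → Q.card < k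

/-- a counterexample with the least number of vertices -/
structure MinBad (V : Type) [Fintype V] (G : SimpleGraph V) (k : ℕ) : Prop where
  good : Good G k
  bad : ¬ Col G k
  min : ∀ (W : Type) [Fintype W] (H : SimpleGraph W),
    Fintype.card W < Fintype.card V → Good H k → Col H k

/-- non-neighbours of `y` among the neighbours of `u` -/
noncomputable def Bn (G : SimpleGraph V) (u y : V) : Finset V := (nb G u \ nb G y).erase y

/-- the special neighbours of `u`: they have at least `k / 10` non-neighbours in `nb G u` -/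
noncomputable def Y (G : SimpleGraph V) (k : ℕ) (u : V) : Finset V :=
  (nb G u).filter (fun y => k ≤ 10 * (Bn G u y).card)

/-- `M` disjoint candidates near `v` -/
def Cand (G : SimpleGraph V) (k : ℕ) (v : V) {M : ℕ} (u y₁ y₂ : Fin M → V) : Prop :=
  (∀ i, u i ∈ nb G v ∧ y₁ i ∈ Y G k (u i) ∧ y₂ i ∈ Y G k (u i) ∧
    ((nb G (u i)).card = k ∨ y₁ i ≠ y₂ i)) ∧
  ∀ i j, i ≠ j → Disjoint ({u i, y₁ i, y₂ i} : Finset V) {u j, y₁ j, y₂ j}

/-- the plan of `v` for the partition `β` into `2 h` parts -/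
def Plan (G : SimpleGraph V) (k h : ℕ) (β : V → Fin (2 * h)) (v : V) : Prop :=
  (∀ i < h, ∃ y ∈ Y G k v, (β y : ℕ) = 2 * i) ∨
  (∀ i < h, ∃ u ∈ nb G v, (β u : ℕ) = 2 * i ∧ (∃ y ∈ Y G k u, (β y : ℕ) = 2 * i) ∧
    ((nb G u).card = k ∨ ∃ y ∈ Y G k u, (β y : ℕ) = 2 * i + 1))

/-- the vertex `x` keeps its colour -/
def Ret (G : SimpleGraph V) {h L : ℕ} (κ : ℕ) (β : V → Fin (2 * h)) (φ : V → Fin L) (x : V) :
    Prop :=
  (φ x : ℕ) < κ ∧ ∀ z ∈ nb G x, β z = β x → φ z ≠ φ x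

/-- two non-adjacent neighbours `y`, `a` of `u` in the part `q` have kept the same colour -/
def Sv (G : SimpleGraph V) {h L : ℕ} (κ : ℕ) (β : V → Fin (2 * h)) (φ : V → Fin L) (u : V)
    (q : ℕ) : Prop :=
  ∃ y ∈ nb G u, ∃ a ∈ Bn G u y, (β y : ℕ) = q ∧ (β a : ℕ) = q ∧ Ret G κ β φ y ∧
    Ret G κ β φ a ∧ φ a = φ y

/-- success of the pair of parts `2 i`, `2 i + 1` for `v` -/
def Suc (G : SimpleGraph V) (k : ℕ) {h L : ℕ} (κ : ℕ) (β : V → Fin (2 * h)) (φ : V → Fin L)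
    (v : V) (i : ℕ) : Prop :=
  Sv G κ β φ v (2 * i) ∨
  ∃ u ∈ nb G v, (β u : ℕ) = 2 * i ∧ κ ≤ (φ u : ℕ) ∧ Sv G κ β φ u (2 * i) ∧
    ((nb G u).card = k ∨ Sv G κ β φ u (2 * i + 1))

/-- balls -/
noncomputable def ball (G : SimpleGraph V) : ℕ → V → Finset V
  | 0, v => {v}
  | r + 1, v => (ball G r v).biUnion (fun x => insert x (nb G x))

end Defs

/-! ## Statements -/

/-- extension of a partial colouring: first the vertices outside `R ∪ H`, then `H` -/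
def St_EXT : Prop := ∀ (V : Type) [Fintype V] (G : SimpleGraph V) (k : ℕ) (c : V → Fin k)
  (R H : Finset V), Disjoint R H → PropOn G k c R →
  (∀ v, v ∉ R → v ∉ H → ((nb G v ∩ R).image c).card + ((nb G v \ R) \ H).card < k) →
  (∀ u ∈ H, ((nb G u ∩ R).image c).card + (nb G u \ R).card < k) → Col G k

/-- use of minimality -/
def St_USE : Prop := ∀ (V : Type) [Fintype V] (G : SimpleGraph V) (k : ℕ), MinBad V G k →
  ∀ (H : SimpleGraph V) (T : Finset V), T.Nonempty →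
  (∀ v, v ∉ T → (nb H v \ T).card ≤ k + 1) →
  (∀ Q : Finset V, Disjoint Q T → Clq H Q → Q.card < k) →
  ∃ c : V → Fin k, PropOn H k c Tᶜ

/-- degrees in a minimal counterexample -/
def St_DEG : Prop := ∀ (V : Type) [Fintype V] (G : SimpleGraph V) (k : ℕ), MinBad V G k →
  ∀ v, k ≤ (nb G v).card

/-- near-cliques -/
def St_A0 : Prop := ∀ (V : Type) [Fintype V] (G : SimpleGraph V) (k : ℕ), 100 ≤ k →
  (∀ v, (nb G v).card ≤ k + 1) → ¬ Col G k →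
  (∀ T : Finset V, T.Nonempty → ∃ c : V → Fin k, PropOn G k c Tᶜ) →
  ∀ T : Finset V, 9 * k ≤ 10 * T.card → (∀ x ∈ T, 9 * (T \ nb G x).card ≤ k) →
  ∃ w, Clq G (T.erase w)

/-- two outside vertices with many neighbours in a large clique -/
def St_S2 : Prop := ∀ (V : Type) [Fintype V] (G : SimpleGraph V) (k : ℕ), MinBad V G k →
  ∀ (Q : Finset V) (j : ℕ) (y₁ y₂ a₁ a₂ : V), Clq G Q → Q.card + j = k → y₁ ∉ Q → y₂ ∉ Q →
  y₁ ≠ y₂ → j + 6 ≤ (nb G y₁ ∩ Q).card → j + 6 ≤ (nb G y₂ ∩ Q).card →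
  2 ≤ (nb G y₁ ∩ nb G y₂ ∩ Q).card → a₁ ∈ Q → a₂ ∈ Q → a₁ ≠ a₂ → ¬ G.Adj y₁ a₁ →
  ¬ G.Adj y₂ a₂ → False

/-- structure of a minimal counterexample -/
def St_STR : Prop := ∀ (V : Type) [Fintype V] (G : SimpleGraph V) (k m₀ M τ r : ℕ),
  MinBad V G k → 100 ≤ k → 10 * m₀ ≤ k → 1 ≤ m₀ → m₀ + 6 ≤ τ → 10 * (m₀ + 1 + τ) ≤ 9 * k →
  k * (m₀ + 2) ≤ r * τ → r * r + M * (2 * τ + 1) + 2 * m₀ + 4 ≤ k →
  4 * m₀ + 20 ≤ k →
  ∀ v, m₀ ≤ (Y G k v).card ∨ ∃ u y₁ y₂ : Fin M → V, Cand G k v u y₁ y₂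

/-- product bound for events depending on disjoint sets of coordinates -/
def St_PRD : Prop := ∀ (T C ι : Type) [Fintype T] [Fintype C] (I : Finset ι)
  (F : ι → (T → C) → Prop) (S : ι → Finset T) (p : ℝ), 0 ≤ p → 0 < Fintype.card (T → C) →
  (∀ i ∈ I, Dep (F i) (S i)) → (∀ i ∈ I, ∀ j ∈ I, i ≠ j → Disjoint (S i) (S j)) →
  (∀ i ∈ I, (cnt (F i) : ℝ) ≤ p * Fintype.card (T → C)) →
  (cnt (fun ω => ∀ i ∈ I, F i ω) : ℝ) ≤ p ^ I.card * Fintype.card (T → C)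

/-- at most one success among `h` independent trials -/
def St_BIN : Prop := ∀ (T C : Type) [Fintype T] [Fintype C] (h : ℕ)
  (F : ℕ → (T → C) → Prop) (S : ℕ → Finset T) (p : ℝ), 0 ≤ p → p ≤ 1 → 1 ≤ h →
  0 < Fintype.card (T → C) →
  (∀ i < h, Dep (F i) (S i)) → (∀ i < h, ∀ j < h, i ≠ j → Disjoint (S i) (S j)) →
  (∀ i < h, p * Fintype.card (T → C) ≤ (cnt (F i) : ℝ)) →
  (cnt (fun ω => ¬ ∃ i < h, ∃ j < h, i ≠ j ∧ F i ω ∧ F j ω) : ℝ) ≤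
    h * (1 - p) ^ (h - 1) * Fintype.card (T → C)

/-- balls -/
def St_BALL : Prop := ∀ (V : Type) [Fintype V] (G : SimpleGraph V) (k : ℕ),
  (∀ v, (nb G v).card ≤ k + 1) →
  (∀ r v, v ∈ ball G r v) ∧ (∀ r v, (ball G r v).card ≤ (k + 2) ^ r) ∧
  (∀ r v, ball G r v ⊆ ball G (r + 1) v) ∧
  (∀ r v x w, x ∈ ball G r v → w ∈ nb G x → w ∈ ball G (r + 1) v) ∧
  (∀ r v, (univ.filter (fun w => ¬ Disjoint (ball G r v) (ball G r w))).card ≤ (k + 2) ^ (2 * r))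

/-- first stage: the partition -/
def St_P1 : Prop := ∀ (V : Type) [Fintype V] (G : SimpleGraph V) (k h n a b m₀ M : ℕ),
  (∀ v, (nb G v).card ≤ k + 1) → 1 ≤ h → 1 ≤ n → 2 * h * n ≤ m₀ → (2 * h) ^ 3 * n ≤ M →
  10 * b * (2 * h) * n ≤ k → 6 * (k + 1) ≤ 2 * h * a →
  4 * (2 * h * (1 / 2 : ℝ) ^ a + ((k + 1) * b + 1) * (2 * h) * Real.exp (-(n : ℝ))) *
    (k + 2) ^ 4 ≤ 1 →
  (∀ v, m₀ ≤ (Y G k v).card ∨ ∃ u y₁ y₂ : Fin M → V, Cand G k v u y₁ y₂) →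
  ∃ β : V → Fin (2 * h), (∀ x q, ((nb G x).filter (fun z => β z = q)).card ≤ a) ∧
    (∀ u, ∀ y ∈ Y G k u, ∀ q, b ≤ ((Bn G u y).filter (fun z => β z = q)).card) ∧
    ∀ v, Plan G k h β v

/-- one trial -/
def St_TR : Prop := ∀ (V : Type) [Fintype V] (G : SimpleGraph V) (h κ L a b : ℕ)
  (β : V → Fin (2 * h)) (q : Fin (2 * h)), 1 ≤ L → 2 * (3 * a + κ) ≤ L →
  (∀ x, ((nb G x).filter (fun z => β z = q)).card ≤ a) →
  ∀ (u y : V) (X : Finset V), X.card ≤ 1 → y ∉ X → Disjoint X (Bn G u y) → y ∈ nb G u →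
  β y = q → b ≤ ((Bn G u y).filter (fun z => β z = q)).card →
  (κ * b : ℝ) / (2 * (L : ℝ) ^ 2) * Fintype.card (V → Fin L) ≤
    (cnt (fun φ : V → Fin L => Sv G κ β φ u q ∧ ∀ x ∈ X, κ ≤ (φ x : ℕ)) : ℝ)

/-- second stage: the random colours -/
def St_P2 : Prop := ∀ (V : Type) [Fintype V] (G : SimpleGraph V) (k h κ L a b : ℕ) (p : ℝ)
  (β : V → Fin (2 * h)), (∀ v, (nb G v).card ≤ k + 1) → 1 ≤ h → 1 ≤ κ → 1 ≤ L →
  2 * (3 * a + κ) ≤ L → b ≤ L →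
  (∀ x q, ((nb G x).filter (fun z => β z = q)).card ≤ a) →
  (∀ u, ∀ y ∈ Y G k u, ∀ q, b ≤ ((Bn G u y).filter (fun z => β z = q)).card) →
  (∀ v, Plan G k h β v) →
  p = ((κ * b : ℝ) / (2 * (L : ℝ) ^ 2)) ^ 2 →
  4 * (h * (1 - p) ^ (h - 1)) * (k + 2) ^ 6 ≤ 1 →
  ∃ φ : V → Fin L, ∀ v, ∃ i < h, ∃ j < h, i ≠ j ∧ Suc G k κ β φ v i ∧ Suc G k κ β φ v j

/-- the colouring from the random colours -/
def St_P3 : Prop := ∀ (V : Type) [Fintype V] (G : SimpleGraph V) (k h κ L : ℕ)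
  (β : V → Fin (2 * h)) (φ : V → Fin L), (∀ v, (nb G v).card ≤ k + 1) →
  2 * h * κ ≤ k → 1 ≤ k →
  (∀ v, ∃ i < h, ∃ j < h, i ≠ j ∧ Suc G k κ β φ v i ∧ Suc G k κ β φ v j) → Col G k

/-- the numbers -/
def St_NUM : Prop := ∃ n : ℕ, 40 ≤ n ∧ ∀ h k a b κ L : ℕ, ∀ p : ℝ,
  h = n ^ 4 → k = 20 * n ^ 40 → a = 61 * n ^ 36 → b = n ^ 35 → κ = 10 * n ^ 36 →
  L = 400 * n ^ 36 → p = ((κ * b : ℝ) / (2 * (L : ℝ) ^ 2)) ^ 2 →
  4 * (2 * h * (1 / 2 : ℝ) ^ a + ((k + 1) * b + 1) * (2 * h) * Real.exp (-(n : ℝ))) *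
    (k + 2) ^ 4 ≤ 1 ∧
  4 * (h * (1 - p) ^ (h - 1)) * (k + 2) ^ 6 ≤ 1

/-- weak Borodin-Kostochka for one `k` -/
def St_BK : Prop := ∃ k : ℕ, 100 ≤ k ∧ ∀ (V : Type) [Fintype V] (G : SimpleGraph V),
  Good G k → Col G k

end Pool.Agent.N515.BK
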