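import Mathlib
import Pool.Agent.N515.BK.Stm

set_option autoImplicit false

namespace Pool.Agent.N515.BK

open Finset Classical

theorem num_ev : ∃ n : ℕ, 3000000000 ≤ n ∧
    (1000000000 : ℝ) * ((n : ℝ) ^ 244 * Real.exp (-(n : ℝ))) ≤ 1 := by
  have h1 := Real.tendsto_pow_mul_exp_neg_atTop_nhds_zero 244
  have h2 := h1.comp (tendsto_natCast_atTop_atTop (R := ℝ))
  have h3 := h2.eventually (gt_mem_nhds (show (0 : ℝ) < 1 / 1000000000 by norm_num))
  obtain ⟨n, hn, hn2⟩ := (h3.and (Filter.eventually_ge_atTop 3000000000)).exists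
  refine ⟨n, hn2, ?_⟩
  simp only [Function.comp] at hn
  have := hn.le
  rw [le_div_iff₀ (by norm_num)] at this
  linarith

theorem t_NUM : St_NUM := by
  obtain ⟨n, hn, hE⟩ := num_ev
  refine ⟨n, by omega, ?_⟩
  intro h k a b κ L p hh hk ha hb hκ hL hp
  have hx : (3000000000 : ℝ) ≤ (n : ℝ) := by exact_mod_cast hn
  set x : ℝ := (n : ℝ) with hxdef
  have hx1 : (1 : ℝ) ≤ x := by linarith
  have hx0 : (0 : ℝ) < x := by linarith
  set e : ℝ := Real.exp (-x) with he
  have he0 : 0 < e := Real.exp_pos _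
  have hpow : ∀ i j : ℕ, i ≤ j → x ^ i ≤ x ^ j := fun i j hij => pow_le_pow_right₀ hx1 hij
  have h40 : (1 : ℝ) ≤ x ^ 40 := one_le_pow₀ hx1
  have hkx : (k : ℝ) = 20 * x ^ 40 := by rw [hk]; push_cast; rfl
  have hhx : (h : ℝ) = x ^ 4 := by rw [hh]; push_cast; rfl
  have hbx : (b : ℝ) = x ^ 35 := by rw [hb]; push_cast; rfl
  have hκx : (κ : ℝ) = 10 * x ^ 36 := by rw [hκ]; push_cast; rfl
  have hLx : (L : ℝ) = 400 * x ^ 36 := by rw [hL]; push_cast; rfl
  have hk2 : (k : ℝ) + 2 ≤ 22 * x ^ 40 := by rw [hkx]; linarith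
  have hk0 : (0 : ℝ) ≤ (k : ℝ) + 2 := by positivity
  constructor
  · -- first
    have h2a : ((1 : ℝ) / 2) ^ a ≤ e := by
      have h3 : n ≤ n ^ 36 := Nat.le_self_pow (by norm_num) n
      have h4 : 2 * n ≤ a := by rw [ha]; omega
      have h5 : ((1 : ℝ) / 2) ^ a ≤ ((1 : ℝ) / 2) ^ (2 * n) :=
        pow_le_pow_of_le_one (by norm_num) (by norm_num) h4
      refine h5.trans ?_
      rw [pow_mul, he]
      have h6 : ((1 : ℝ) / 2) ^ 2 ≤ Real.exp (-1) := by
        have := Real.exp_one_lt_d9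
        rw [Real.exp_neg, le_inv_comm₀ (by norm_num) (Real.exp_pos _)]
        norm_num
        linarith
      calc (((1 : ℝ) / 2) ^ 2) ^ n ≤ (Real.exp (-1)) ^ n := pow_le_pow_left₀ (by norm_num) h6 n
        _ = Real.exp (-x) := by
          rw [← Real.exp_nat_mul]
          congr 1
          rw [hxdef]; ring
    have h3 : 2 * (h : ℝ) * (1 / 2 : ℝ) ^ a + ((k + 1) * b + 1) * (2 * h) * e ≤
        46 * x ^ 79 * e := by
      have h4 : 2 * (h : ℝ) * (1 / 2 : ℝ) ^ a ≤ 2 * x ^ 79 * e := by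
        rw [hhx]
        have := hpow 4 79 (by norm_num)
        calc 2 * x ^ 4 * (1 / 2 : ℝ) ^ a ≤ 2 * x ^ 4 * e :=
              mul_le_mul_of_nonneg_left h2a (by positivity)
          _ ≤ 2 * x ^ 79 * e := mul_le_mul_of_nonneg_right (by linarith) he0.le
      have h5 : (((k : ℝ) + 1) * b + 1) ≤ 22 * x ^ 75 := by
        rw [hkx, hbx]
        have h6 := hpow 35 75 (by norm_num)
        have h7 := hpow 0 75 (by norm_num)
        rw [pow_zero] at h7
        have h8 : (20 * x ^ 40 + 1) * x ^ 35 = 20 * x ^ 75 + x ^ 35 := by ring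
        rw [h8]
        linarith
      have h6 : (((k : ℝ) + 1) * b + 1) * (2 * h) * e ≤ 44 * x ^ 79 * e := by
        have h9 : (((k : ℝ) + 1) * b + 1) * (2 * h) ≤ 22 * x ^ 75 * (2 * h) :=
          mul_le_mul_of_nonneg_right h5 (by positivity)
        have h10 : 22 * x ^ 75 * (2 * (h : ℝ)) = 44 * x ^ 79 := by
          rw [hhx]; ring
        rw [h10] at h9
        exact mul_le_mul_of_nonneg_right h9 he0.le
      linarith
    have h4 : ((k : ℝ) + 2) ^ 4 ≤ (22 * x ^ 40) ^ 4 := pow_le_pow_left₀ hk0 hk2 4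
    calc 4 * (2 * (h : ℝ) * (1 / 2 : ℝ) ^ a + ((k + 1) * b + 1) * (2 * h) * e) *
        ((k : ℝ) + 2) ^ 4 ≤ 4 * (46 * x ^ 79 * e) * (22 * x ^ 40) ^ 4 := by
          refine mul_le_mul (by linarith) h4 (by positivity) (by positivity)
      _ = 43103104 * (x ^ 239 * e) := by ring
      _ ≤ 1000000000 * (x ^ 244 * e) := by
          have h5 := hpow 239 244 (by norm_num)
          have h6 : x ^ 239 * e ≤ x ^ 244 * e := mul_le_mul_of_nonneg_right h5 he0.le
          have h7 : 0 ≤ x ^ 239 * e := by positivity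
          linarith
      _ ≤ 1 := hE
  · -- second
    have hpx : p = 1 / (1024000000 * x ^ 2) := by
      rw [hp, hκx, hbx, hLx]
      field_simp
      ring
    have hp0 : 0 ≤ p := by rw [hpx]; positivity
    have hp1 : p ≤ 1 := by
      rw [hpx, div_le_one (by positivity)]
      have : (1 : ℝ) ≤ x ^ 2 := one_le_pow₀ hx1
      linarith
    have h1 : (1 - p) ^ (h - 1) ≤ e := by
      have h2 : 1 - p ≤ Real.exp (-p) := Real.one_sub_le_exp_neg p
      have h3 : (1 - p) ^ (h - 1) ≤ (Real.exp (-p)) ^ (h - 1) :=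
        pow_le_pow_left₀ (by linarith) h2 _
      refine h3.trans ?_
      rw [← Real.exp_nat_mul, he, Real.exp_le_exp]
      have hh1 : 1 ≤ h := by rw [hh]; exact Nat.one_le_pow _ _ (by omega)
      have h4 : ((h - 1 : ℕ) : ℝ) = x ^ 4 - 1 := by
        rw [Nat.cast_sub hh1, hhx]; simp
      rw [h4, hpx]
      have h5 : (x ^ 4 - 1) * -(1 / (1024000000 * x ^ 2)) = -((x ^ 4 - 1) / (1024000000 * x ^ 2)) := by
        ring
      rw [h5, neg_le_neg_iff, le_div_iff₀ (by positivity)]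
      have h6 : x * (1024000000 * x ^ 2) = 1024000000 * x ^ 3 := by ring
      rw [h6]
      have h7 : 3000000000 * x ^ 3 ≤ x ^ 4 := by
        have : x ^ 4 = x * x ^ 3 := by ring
        rw [this]
        exact mul_le_mul_of_nonneg_right hx (by positivity)
      have h8 : (1 : ℝ) ≤ x ^ 3 := one_le_pow₀ hx1
      linarith
    have h4 : ((k : ℝ) + 2) ^ 6 ≤ (22 * x ^ 40) ^ 6 := pow_le_pow_left₀ hk0 hk2 6
    have h5 : 0 ≤ (1 - p) ^ (h - 1) := pow_nonneg (by linarith) _
    calc 4 * ((h : ℝ) * (1 - p) ^ (h - 1)) * ((k : ℝ) + 2) ^ 6 ≤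
        4 * (x ^ 4 * e) * (22 * x ^ 40) ^ 6 := by
          refine mul_le_mul ?_ h4 (by positivity) (by positivity)
          rw [hhx]
          have : x ^ 4 * (1 - p) ^ (h - 1) ≤ x ^ 4 * e :=
            mul_le_mul_of_nonneg_left h1 (by positivity)
          linarith
      _ = 453519616 * (x ^ 244 * e) := by ring
      _ ≤ 1000000000 * (x ^ 244 * e) := by
          have h7 : 0 ≤ x ^ 244 * e := by positivity
          linarith
      _ ≤ 1 := hE

end Pool.Agent.N515.BK
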