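import Pool.Agent.N515.BK.Stm

set_option autoImplicit false
set_option linter.all false

/-!
# Project BK: the first local lemma stage (random partition into `2 h` parts)
-/

namespace Pool.Agent.N515.BK

open Finset Classical
open Pool.Agent.Helper805.CHS.LLL (cnt ev mem_ev cnt_mono)

section

variable {T C : Type} [Fintype T] [Fintype C]

theorem p1_cnt_or (P Q : (T → C) → Prop) : cnt (fun ω => P ω ∨ Q ω) ≤ cnt P + cnt Q := by
  refine le_trans (Finset.card_le_card ?_) (Finset.card_union_le (ev P) (ev Q))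
  intro ω hω
  rw [mem_ev] at hω
  rw [Finset.mem_union, mem_ev, mem_ev]
  exact hω

theorem p1_cnt_ex {ι : Type} (I : Finset ι) (F : ι → (T → C) → Prop) :
    cnt (fun ω => ∃ i ∈ I, F i ω) ≤ ∑ i ∈ I, cnt (F i) := by
  refine le_trans (Finset.card_le_card ?_)
    (Finset.card_biUnion_le (s := I) (t := fun i => ev (F i)))
  intro ω hω
  rw [mem_ev] at hω
  obtain ⟨i, hi, h⟩ := hω
  rw [Finset.mem_biUnion]
  exact ⟨i, hi, mem_ev.2 h⟩

theorem p1_cnt_ex_le {ι : Type} (I : Finset ι) (F : ι → (T → C) → Prop) (P : (T → C) → Prop)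
    (x : ℝ) (h : ∀ ω, P ω → ∃ i ∈ I, F i ω) (hx : ∀ i ∈ I, (cnt (F i) : ℝ) ≤ x) :
    (cnt P : ℝ) ≤ I.card * x := by
  have h1 : cnt P ≤ ∑ i ∈ I, cnt (F i) := (cnt_mono h).trans (p1_cnt_ex I F)
  have h2 : (cnt P : ℝ) ≤ ∑ i ∈ I, (cnt (F i) : ℝ) := by exact_mod_cast h1
  refine h2.trans ((Finset.sum_le_sum hx).trans ?_)
  rw [Finset.sum_const, nsmul_eq_mul]

theorem p1_cnt_not (P : (T → C) → Prop) :
    cnt (fun ω => ¬ P ω) + cnt P = Fintype.card (T → C) := by
  have h : ev (fun ω => ¬ P ω) = (ev P)ᶜ := by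
    ext ω
    rw [Finset.mem_compl, mem_ev, mem_ev]
  rw [cnt, cnt, h, Finset.card_compl_add_card]

theorem p1_coord (x : T) (c : C) :
    (cnt (fun ω : T → C => ω x = c) : ℝ) * Fintype.card C = Fintype.card (T → C) := by
  have h := Pool.Agent.Helper805.CHS.sum_update (T := T) (C := C) x
    (fun ω => if ω x = c then (1 : ℝ) else 0)
  have e1 : ∑ ω : T → C, ∑ c' : C, (if (Function.update ω x c') x = c then (1:ℝ) else 0) =
      Fintype.card (T → C) := by
    simp [Function.update_self]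
  have e2 : ∑ ω : T → C, (if ω x = c then (1:ℝ) else 0) =
      (cnt (fun ω : T → C => ω x = c) : ℝ) := by
    rw [cnt, ev, Finset.sum_boole]
  rw [e1, e2] at h
  rw [h, mul_comm]

theorem p1_cyl (hC : 0 < Fintype.card (T → C)) (f : T → C) (A : Finset T) :
    (cnt (fun ω : T → C => ∀ x ∈ A, ω x = f x) : ℝ) * (Fintype.card C : ℝ) ^ A.card =
      Fintype.card (T → C) := by
  have hN : (0 : ℝ) < Fintype.card (T → C) := by exact_mod_cast hC
  induction A using Finset.induction_on with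
  | empty =>
    have : ev (fun ω : T → C => ∀ x ∈ (∅ : Finset T), ω x = f x) = univ := by
      ext ω; rw [mem_ev]; simp
    rw [cnt, this]; simp
  | insert x A hx ih =>
    have h1 := Pool.Agent.Helper805.CHS.LLL.indep (fun ω : T → C => ω x = f x)
      (fun ω => ∀ y ∈ A, ω y = f y) {x}
      (by intro ω ω' h hp; rw [← h x (mem_singleton_self x)]; exact hp)
      (by
        intro ω ω' h hq y hy
        rw [← h y (by
          intro hyx
          rw [mem_singleton] at hyx
          subst hyx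
          exact hx hy)]
        exact hq y hy)
    have h2 : cnt (fun ω : T → C => ∀ y ∈ insert x A, ω y = f y) =
        cnt (fun ω : T → C => ω x = f x ∧ ∀ y ∈ A, ω y = f y) := by
      congr 1; funext ω; simp
    have h3 := p1_coord (T := T) (C := C) x (f x)
    have h1' : (cnt (fun ω : T → C => ω x = f x ∧ ∀ y ∈ A, ω y = f y) : ℝ) *
        Fintype.card (T → C) = (cnt (fun ω : T → C => ω x = f x) : ℝ) *
          (cnt (fun ω : T → C => ∀ y ∈ A, ω y = f y) : ℝ) := by exact_mod_cast h1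
    rw [h2, Finset.card_insert_of_notMem hx]
    apply mul_right_cancel₀ hN.ne'
    calc (cnt (fun ω : T → C => ω x = f x ∧ ∀ y ∈ A, ω y = f y) : ℝ) *
          (Fintype.card C : ℝ) ^ (A.card + 1) * (Fintype.card (T → C) : ℝ)
        = ((cnt (fun ω : T → C => ω x = f x ∧ ∀ y ∈ A, ω y = f y) : ℝ) *
          (Fintype.card (T → C) : ℝ)) * ((Fintype.card C : ℝ) ^ A.card * Fintype.card C) := by ring
      _ = ((cnt (fun ω : T → C => ω x = f x) : ℝ) * Fintype.card C) *
          ((cnt (fun ω : T → C => ∀ y ∈ A, ω y = f y) : ℝ) *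
            (Fintype.card C : ℝ) ^ A.card) := by rw [h1']; ring
      _ = (Fintype.card (T → C) : ℝ) * (Fintype.card (T → C) : ℝ) := by rw [h3, ih]

end

/-- `(1 - x)^m ≤ exp(-n)` when `n ≤ x m` -/
theorem p1_exp (x : ℝ) (hx : x ≤ 1) (m : ℕ) (n : ℝ) (h : n ≤ x * m) :
    (1 - x) ^ m ≤ Real.exp (-n) := by
  have h1 : 1 - x ≤ Real.exp (-x) := by
    have := Real.add_one_le_exp (-x)
    linarith
  calc (1 - x) ^ m ≤ (Real.exp (-x)) ^ m := pow_le_pow_left₀ (by linarith) h1 m
    _ = Real.exp (-(x * m)) := by rw [← Real.exp_nat_mul]; ring_nf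
    _ ≤ Real.exp (-n) := Real.exp_le_exp.mpr (by linarith)

section

variable {V : Type} [Fintype V] {g : ℕ}

theorem p1_card_pos (hg : 1 ≤ g) : 0 < Fintype.card (V → Fin g) := by
  haveI : Nonempty (Fin g) := ⟨⟨0, hg⟩⟩
  exact Fintype.card_pos

/-- too many neighbours in one part -/
theorem p1_A (k a : ℕ) (hg : 1 ≤ g) (hk : 6 * (k + 1) ≤ g * a) (S : Finset V)
    (hS : S.card ≤ k + 1) (q : Fin g) :
    (cnt (fun β : V → Fin g => a < (S.filter (fun z => β z = q)).card) : ℝ) ≤
      (1 / 2) ^ a * Fintype.card (V → Fin g) := by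
  have hN := p1_card_pos (V := V) hg
  have hNr : (0 : ℝ) < Fintype.card (V → Fin g) := by exact_mod_cast hN
  have hgr : (0 : ℝ) < g := by exact_mod_cast hg
  have h1 := p1_cnt_ex_le (T := V) (C := Fin g) (S.powersetCard (a + 1))
    (fun A β => ∀ z ∈ A, β z = q) (fun β => a < (S.filter (fun z => β z = q)).card)
    (Fintype.card (V → Fin g) / (g : ℝ) ^ (a + 1))
    (by
      intro β hβ
      obtain ⟨A, hA, hAc⟩ := Finset.exists_subset_card_eq (Nat.succ_le_of_lt hβ)
      refine ⟨A, ?_, ?_⟩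
      · rw [Finset.mem_powersetCard]
        exact ⟨hA.trans (Finset.filter_subset _ _), hAc⟩
      · intro z hz
        exact (Finset.mem_filter.mp (hA hz)).2)
    (by
      intro A hA
      rw [Finset.mem_powersetCard] at hA
      have h := p1_cyl (T := V) (C := Fin g) hN (fun _ => q) A
      rw [hA.2, Fintype.card_fin] at h
      rw [le_div_iff₀ (by positivity)]
      exact h.le)
  refine h1.trans ?_
  rw [Finset.card_powersetCard]
  have h2 : ((S.card.choose (a + 1) : ℕ) : ℝ) ≤ ((k + 1 : ℕ) : ℝ) ^ (a + 1) / (a + 1).factorial := by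
    have h3 : S.card.choose (a + 1) ≤ (k + 1).choose (a + 1) := Nat.choose_le_choose _ hS
    have h4 := Nat.choose_le_pow_div (α := ℝ) (a + 1) (k + 1)
    exact le_trans (by exact_mod_cast h3) h4
  have h5 : ((a : ℝ) + 1) ^ (a + 1) / (a + 1).factorial ≤ Real.exp (a + 1) := by
    have := Real.pow_div_factorial_le_exp ((a : ℝ) + 1) (by positivity) (a + 1)
    exact this
  have h6 : Real.exp ((a : ℝ) + 1) ≤ 3 ^ (a + 1) := by
    have h7 : Real.exp ((a : ℝ) + 1) = Real.exp 1 ^ (a + 1) := by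
      rw [← Real.exp_nat_mul]; push_cast; ring_nf
    rw [h7]
    exact pow_le_pow_left₀ (Real.exp_pos 1).le (by
      have := Real.exp_one_lt_d9
      linarith) _
  have hkr : ((k + 1 : ℕ) : ℝ) ≤ g * ((a + 1) / 6) := by
    have : (6 * (k + 1) : ℝ) ≤ g * a := by exact_mod_cast hk
    push_cast
    nlinarith
  have hfac : (0 : ℝ) < (a + 1).factorial := by exact_mod_cast Nat.factorial_pos _
  have h8 : ((k + 1 : ℕ) : ℝ) ^ (a + 1) / (a + 1).factorial ≤ (g : ℝ) ^ (a + 1) * (1 / 2) ^ (a + 1) := by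
    calc ((k + 1 : ℕ) : ℝ) ^ (a + 1) / (a + 1).factorial
        ≤ (g * (((a : ℝ) + 1) / 6)) ^ (a + 1) / (a + 1).factorial := by
          gcongr
      _ = (g : ℝ) ^ (a + 1) * (1 / 6) ^ (a + 1) * (((a : ℝ) + 1) ^ (a + 1) / (a + 1).factorial) := by
          rw [mul_pow, div_pow, one_div, inv_pow]
          ring
      _ ≤ (g : ℝ) ^ (a + 1) * (1 / 6) ^ (a + 1) * 3 ^ (a + 1) := by
          refine mul_le_mul_of_nonneg_left (h5.trans h6) (by positivity)
      _ = (g : ℝ) ^ (a + 1) * (1 / 2) ^ (a + 1) := by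
          rw [mul_assoc, ← mul_pow]
          norm_num
  calc ((S.card.choose (a + 1) : ℕ) : ℝ) * (Fintype.card (V → Fin g) / (g : ℝ) ^ (a + 1))
      ≤ ((g : ℝ) ^ (a + 1) * (1 / 2) ^ (a + 1)) * (Fintype.card (V → Fin g) / (g : ℝ) ^ (a + 1)) := by
        refine mul_le_mul_of_nonneg_right (h2.trans h8) (by positivity)
    _ = (1 / 2) ^ (a + 1) * Fintype.card (V → Fin g) := by
        field_simp
    _ ≤ (1 / 2) ^ a * Fintype.card (V → Fin g) := by
        refine mul_le_mul_of_nonneg_right ?_ hNr.le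
        exact pow_le_pow_of_le_one (by norm_num) (by norm_num) (Nat.le_succ a)

/-- no element in a given part -/
theorem p1_none (hPRD : St_PRD) (n : ℕ) (hg : 1 ≤ g) (D : Finset V) (hD : g * n ≤ D.card)
    (q : Fin g) :
    (cnt (fun β : V → Fin g => ∀ z ∈ D, β z ≠ q) : ℝ) ≤
      Real.exp (-(n : ℝ)) * Fintype.card (V → Fin g) := by
  have hN := p1_card_pos (V := V) hg
  have hNr : (0 : ℝ) < Fintype.card (V → Fin g) := by exact_mod_cast hN
  have hgr : (0 : ℝ) < g := by exact_mod_cast hg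
  have hg1 : (1 : ℝ) / g ≤ 1 := by
    rw [div_le_one hgr]
    exact_mod_cast hg
  have h := hPRD V (Fin g) V D (fun z β => β z ≠ q) (fun z => {z}) (1 - 1 / g)
    (by linarith) hN
    (by
      intro z hz ω ω' h hp
      rw [← h z (mem_singleton_self z)]
      exact hp)
    (by
      intro i _ j _ hij
      rw [Finset.disjoint_singleton]
      exact hij)
    (by
      intro z _
      have h1 := p1_cnt_not (T := V) (C := Fin g) (fun β => β z = q)
      have h2 := p1_coord (T := V) (C := Fin g) z q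
      rw [Fintype.card_fin] at h2
      have h1' : (cnt (fun β : V → Fin g => ¬ β z = q) : ℝ) + (cnt (fun β : V → Fin g => β z = q) : ℝ) =
        Fintype.card (V → Fin g) := by exact_mod_cast h1
      have h3 : (cnt (fun β : V → Fin g => β z = q) : ℝ) = 1 / g * Fintype.card (V → Fin g) := by
        rw [← h2]; field_simp
      have h4 : (cnt (fun β : V → Fin g => β z ≠ q) : ℝ) = (cnt (fun β : V → Fin g => ¬ β z = q) : ℝ) := rfl
      rw [h4]
      linarith)
  refine h.trans (mul_le_mul_of_nonneg_right ?_ hNr.le)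
  refine p1_exp _ hg1 _ _ ?_
  have : ((g * n : ℕ) : ℝ) ≤ D.card := by exact_mod_cast hD
  push_cast at this
  rw [div_mul_eq_mul_div, one_mul, le_div_iff₀ hgr]
  linarith

/-- too few elements in a given part -/
theorem p1_B (hPRD : St_PRD) (b n : ℕ) (hg : 1 ≤ g) (S : Finset V)
    (hS : b * (g * n) ≤ S.card) (q : Fin g) :
    (cnt (fun β : V → Fin g => (S.filter (fun z => β z = q)).card < b) : ℝ) ≤
      b * (Real.exp (-(n : ℝ)) * Fintype.card (V → Fin g)) := by
  have hcard : Fintype.card (Fin b × Fin (g * n)) ≤ Fintype.card S := by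
    rw [Fintype.card_prod, Fintype.card_fin, Fintype.card_fin, Fintype.card_coe]
    exact hS
  obtain ⟨e⟩ := Function.Embedding.nonempty_of_card_le hcard
  let D : Fin b → Finset V := fun l => univ.image (fun j : Fin (g * n) => (e (l, j) : V))
  have hDc : ∀ l, (D l).card = g * n := by
    intro l
    rw [Finset.card_image_of_injective, Finset.card_univ, Fintype.card_fin]
    intro j j' hjj
    have h1 := e.injective (Subtype.ext hjj)
    exact (Prod.mk.inj h1).2
  have h := p1_cnt_ex_le (T := V) (C := Fin g) (univ : Finset (Fin b))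
    (fun l β => ∀ z ∈ D l, β z ≠ q) (fun β => (S.filter (fun z => β z = q)).card < b)
    (Real.exp (-(n : ℝ)) * Fintype.card (V → Fin g))
    (by
      intro β hβ
      by_contra hcon
      push Not at hcon
      have h1 : ∀ l : Fin b, ∃ j : Fin (g * n), β (e (l, j)) = q := by
        intro l
        obtain ⟨z, hz, hzq⟩ := hcon l (mem_univ l)
        obtain ⟨j, _, rfl⟩ := Finset.mem_image.mp hz
        exact ⟨j, hzq⟩
      choose j hj using h1
      have h2 : (univ.image (fun l : Fin b => (e (l, j l) : V))) ⊆ S.filter (fun z => β z = q) := by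
        intro z hz
        obtain ⟨l, _, rfl⟩ := Finset.mem_image.mp hz
        rw [Finset.mem_filter]
        exact ⟨(e (l, j l)).2, hj l⟩
      have h3 := Finset.card_le_card h2
      rw [Finset.card_image_of_injective, Finset.card_univ, Fintype.card_fin] at h3
      · omega
      · intro l l' hll
        have h1 := e.injective (Subtype.ext hll)
        exact (Prod.mk.inj h1).1)
    (by
      intro l _
      exact p1_none hPRD n hg (D l) (hDc l).ge q)
  rw [Finset.card_univ, Fintype.card_fin] at h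
  exact h

end

/-- no good candidate -/
theorem p1_cand (hPRD : St_PRD) {V : Type} [Fintype V] (G : SimpleGraph V) (k h n M : ℕ)
    (hh : 1 ≤ h) (hM : (2 * h) ^ 3 * n ≤ M) (v : V) (u y₁ y₂ : Fin M → V)
    (hc : Cand G k v u y₁ y₂) (i : ℕ) (hi : i < h) :
    (cnt (fun β : V → Fin (2 * h) => ∀ l ∈ (univ : Finset (Fin M)),
      ¬ ((β (u l) : ℕ) = 2 * i ∧ (β (y₁ l) : ℕ) = 2 * i ∧
        ((nb G (u l)).card = k ∨ (β (y₂ l) : ℕ) = 2 * i + 1))) : ℝ) ≤
      Real.exp (-(n : ℝ)) * Fintype.card (V → Fin (2 * h)) := by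
  have hg : 1 ≤ 2 * h := by omega
  have hN := p1_card_pos (V := V) hg
  have hNr : (0 : ℝ) < Fintype.card (V → Fin (2 * h)) := by exact_mod_cast hN
  have hgr : (0 : ℝ) < ((2 * h : ℕ) : ℝ) := by exact_mod_cast hg
  have hgr1 : (1 : ℝ) ≤ ((2 * h : ℕ) : ℝ) := by exact_mod_cast hg
  have hg1 : (1 : ℝ) / ((2 * h : ℕ) : ℝ) ^ 3 ≤ 1 := by
    rw [div_le_one (by positivity)]
    exact one_le_pow₀ hgr1
  obtain ⟨hc1, hc2⟩ := hc
  have hmain := hPRD V (Fin (2 * h)) (Fin M) univ
    (fun l β => ¬ ((β (u l) : ℕ) = 2 * i ∧ (β (y₁ l) : ℕ) = 2 * i ∧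
        ((nb G (u l)).card = k ∨ (β (y₂ l) : ℕ) = 2 * i + 1)))
    (fun l => {u l, y₁ l, y₂ l}) (1 - 1 / ((2 * h : ℕ) : ℝ) ^ 3)
    (by linarith) hN
    (by
      intro l _ ω ω' hω hp
      rw [← hω (u l) (by simp), ← hω (y₁ l) (by simp), ← hω (y₂ l) (by simp)]
      exact hp)
    (by
      intro i _ j _ hij
      exact hc2 i j hij)
    (by
      intro l _
      have hul : y₂ l ≠ u l := by
        intro hcon
        have h1 := (hc1 l).2.2.1
        rw [Y, Finset.mem_filter, mem_nb, hcon] at h1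
        exact G.loopless.irrefl _ h1.1
      set f : V → Fin (2 * h) := fun x =>
        if (nb G (u l)).card ≠ k ∧ x = y₂ l then ⟨2 * i + 1, by omega⟩ else ⟨2 * i, by omega⟩ with hf
      have h1 := p1_cnt_not (T := V) (C := Fin (2 * h)) (fun β => (β (u l) : ℕ) = 2 * i ∧ (β (y₁ l) : ℕ) = 2 * i ∧
        ((nb G (u l)).card = k ∨ (β (y₂ l) : ℕ) = 2 * i + 1))
      have h2 := p1_cyl (T := V) (C := Fin (2 * h)) hN f {u l, y₁ l, y₂ l}
      rw [Fintype.card_fin] at h2
      have h3 : (cnt (fun β : V → Fin (2 * h) => ∀ x ∈ ({u l, y₁ l, y₂ l} : Finset V), β x = f x) : ℝ) ≤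
          (cnt (fun β : V → Fin (2 * h) => (β (u l) : ℕ) = 2 * i ∧ (β (y₁ l) : ℕ) = 2 * i ∧
        ((nb G (u l)).card = k ∨ (β (y₂ l) : ℕ) = 2 * i + 1)) : ℝ) := by
        have : cnt (fun β : V → Fin (2 * h) => ∀ x ∈ ({u l, y₁ l, y₂ l} : Finset V), β x = f x) ≤
          cnt (fun β : V → Fin (2 * h) => (β (u l) : ℕ) = 2 * i ∧ (β (y₁ l) : ℕ) = 2 * i ∧
          ((nb G (u l)).card = k ∨ (β (y₂ l) : ℕ) = 2 * i + 1)) := by
          refine cnt_mono (fun β hβ => ?_)
          have e1 := hβ (u l) (by simp)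
          have e2 := hβ (y₁ l) (by simp)
          have e3 := hβ (y₂ l) (by simp)
          refine ⟨?_, ?_, ?_⟩
          · rw [e1, hf]
            simp only []
            rw [if_neg (fun hh => hul hh.2.symm)]
          · rw [e2, hf]
            simp only []
            rw [if_neg]
            rintro ⟨hh1, hh2⟩
            rcases (hc1 l).2.2.2 with h5 | h5
            · exact hh1 h5
            · exact h5 hh2
          · by_cases h6 : (nb G (u l)).card = k
            · exact Or.inl h6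
            · right
              rw [e3, hf]
              simp only []
              rw [if_pos ⟨h6, trivial⟩]
        exact_mod_cast this
      have hA : ({u l, y₁ l, y₂ l} : Finset V).card ≤ 3 := Finset.card_le_three
      have h4 : ((2 * h : ℕ) : ℝ) ^ ({u l, y₁ l, y₂ l} : Finset V).card ≤ ((2 * h : ℕ) : ℝ) ^ 3 :=
        pow_le_pow_right₀ hgr1 hA
      have h5 : (1 / ((2 * h : ℕ) : ℝ) ^ 3) * Fintype.card (V → Fin (2 * h)) ≤
          (cnt (fun β : V → Fin (2 * h) => ∀ x ∈ ({u l, y₁ l, y₂ l} : Finset V), β x = f x) : ℝ) := by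
        rw [div_mul_eq_mul_div, one_mul, div_le_iff₀ (by positivity), ← h2]
        exact mul_le_mul_of_nonneg_left h4 (Nat.cast_nonneg _)
      have h1' : (cnt (fun β : V → Fin (2 * h) => ¬ ((β (u l) : ℕ) = 2 * i ∧ (β (y₁ l) : ℕ) = 2 * i ∧
        ((nb G (u l)).card = k ∨ (β (y₂ l) : ℕ) = 2 * i + 1))) : ℝ) +
          (cnt (fun β : V → Fin (2 * h) => (β (u l) : ℕ) = 2 * i ∧ (β (y₁ l) : ℕ) = 2 * i ∧
        ((nb G (u l)).card = k ∨ (β (y₂ l) : ℕ) = 2 * i + 1)) : ℝ) =
          Fintype.card (V → Fin (2 * h)) := by exact_mod_cast h1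
      linarith)
  refine hmain.trans (mul_le_mul_of_nonneg_right ?_ hNr.le)
  rw [Finset.card_univ, Fintype.card_fin]
  refine p1_exp _ hg1 _ _ ?_
  have : (((2 * h) ^ 3 * n : ℕ) : ℝ) ≤ M := by exact_mod_cast hM
  rw [div_mul_eq_mul_div, one_mul, le_div_iff₀ (by positivity)]
  push_cast at this ⊢
  linarith

/-- the bad event of `v` -/
def p1_E {V : Type} [Fintype V] (G : SimpleGraph V) (k h a b : ℕ) (v : V)
    (β : V → Fin (2 * h)) : Prop :=
  (∃ q ∈ (univ : Finset (Fin (2 * h))), a < ((nb G v).filter (fun z => β z = q)).card) ∨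
  ((∃ yq ∈ (Y G k v) ×ˢ (univ : Finset (Fin (2 * h))),
    ((Bn G v yq.1).filter (fun z => β z = yq.2)).card < b) ∨ ¬ Plan G k h β v)

theorem p1_nb_ball {V : Type} [Fintype V] (G : SimpleGraph V) (v : V) :
    (∀ z ∈ nb G v, z ∈ ball G 2 v) ∧ (∀ u ∈ nb G v, ∀ z ∈ nb G u, z ∈ ball G 2 v) ∧
      v ∈ ball G 2 v := by
  have h1 : ∀ z ∈ nb G v, z ∈ ball G 1 v := by
    intro z hz
    simp only [ball, mem_biUnion, mem_singleton, mem_insert, exists_eq_left]
    exact Or.inr hz
  have h0 : v ∈ ball G 1 v := by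
    simp only [ball, mem_biUnion, mem_singleton, mem_insert, exists_eq_left]
    exact Or.inl trivial
  refine ⟨?_, ?_, ?_⟩
  · intro z hz
    rw [ball, mem_biUnion]
    exact ⟨z, h1 z hz, mem_insert_self _ _⟩
  · intro u hu z hz
    rw [ball, mem_biUnion]
    exact ⟨u, h1 u hu, mem_insert_of_mem hz⟩
  · rw [ball, mem_biUnion]
    exact ⟨v, h0, mem_insert_self _ _⟩

theorem p1_Y_nb {V : Type} [Fintype V] {G : SimpleGraph V} {k : ℕ} {v y : V} (h : y ∈ Y G k v) :
    y ∈ nb G v := (Finset.mem_filter.mp h).1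

theorem p1_Bn_nb {V : Type} [Fintype V] {G : SimpleGraph V} {v y z : V} (h : z ∈ Bn G v y) :
    z ∈ nb G v := (Finset.mem_sdiff.mp (Finset.mem_of_mem_erase h)).1

theorem p1_Plan_dep {V : Type} [Fintype V] (G : SimpleGraph V) (k h : ℕ) (v : V)
    (β β' : V → Fin (2 * h)) (hb : ∀ t ∈ ball G 2 v, β t = β' t) (hP : Plan G k h β v) :
    Plan G k h β' v := by
  obtain ⟨n1, n2, _⟩ := p1_nb_ball G v
  rcases hP with hP | hP
  · left
    intro i hi
    obtain ⟨y, hy, hyq⟩ := hP i hi
    exact ⟨y, hy, by rw [← hb y (n1 y (p1_Y_nb hy))]; exact hyq⟩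
  · right
    intro i hi
    obtain ⟨u, hu, huq, ⟨y, hy, hyq⟩, hrest⟩ := hP i hi
    refine ⟨u, hu, by rw [← hb u (n1 u hu)]; exact huq,
      ⟨y, hy, by rw [← hb y (n2 u hu y (p1_Y_nb hy))]; exact hyq⟩, ?_⟩
    rcases hrest with h | ⟨y', hy', hyq'⟩
    · exact Or.inl h
    · exact Or.inr ⟨y', hy', by rw [← hb y' (n2 u hu y' (p1_Y_nb hy'))]; exact hyq'⟩

theorem p1_E_dep {V : Type} [Fintype V] (G : SimpleGraph V) (k h a b : ℕ) (v : V) :
    Dep (p1_E G k h a b v) (ball G 2 v) := by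
  intro β β' hb hE
  obtain ⟨n1, n2, _⟩ := p1_nb_ball G v
  rcases hE with ⟨q, hq, hE⟩ | ⟨yq, hyq, hE⟩ | hE
  · left
    refine ⟨q, hq, ?_⟩
    have : (nb G v).filter (fun z => β' z = q) = (nb G v).filter (fun z => β z = q) := by
      refine Finset.filter_congr (fun z hz => ?_)
      rw [hb z (n1 z hz)]
    rw [this]
    exact hE
  · right; left
    refine ⟨yq, hyq, ?_⟩
    have : (Bn G v yq.1).filter (fun z => β' z = yq.2) =
        (Bn G v yq.1).filter (fun z => β z = yq.2) := by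
      refine Finset.filter_congr (fun z hz => ?_)
      rw [hb z (n1 z (p1_Bn_nb hz))]
    rw [this]
    exact hE
  · right; right
    intro hP
    exact hE (p1_Plan_dep G k h v β' β (fun t ht => (hb t ht).symm) hP)

theorem t_P1 (hPRD : St_PRD) (hBALL : St_BALL) : St_P1 := by
  intro V _ G k h n a b m₀ M hdeg hh hn hm0 hM hbk hka hnum hstr
  have hg : 1 ≤ 2 * h := by omega
  have hN := p1_card_pos (V := V) hg
  have hNr : (0 : ℝ) < Fintype.card (V → Fin (2 * h)) := by exact_mod_cast hN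
  obtain ⟨-, -, -, -, hB⟩ := hBALL V G k hdeg
  set p : ℝ := 2 * h * (1 / 2 : ℝ) ^ a + ((k + 1) * b + 1) * (2 * h) * Real.exp (-(n : ℝ)) with hp
  have hp0 : 0 ≤ p := by positivity
  have hA : ∀ v, (cnt (fun β : V → Fin (2 * h) => ∃ q ∈ (univ : Finset (Fin (2 * h))),
      a < ((nb G v).filter (fun z => β z = q)).card) : ℝ) ≤
      2 * h * ((1 / 2 : ℝ) ^ a * Fintype.card (V → Fin (2 * h))) := by
    intro v
    have h1 := p1_cnt_ex_le (T := V) (C := Fin (2 * h)) (univ : Finset (Fin (2 * h)))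
      (fun q β => a < ((nb G v).filter (fun z => β z = q)).card) (fun β =>
        ∃ q ∈ (univ : Finset (Fin (2 * h))), a < ((nb G v).filter (fun z => β z = q)).card)
      ((1 / 2 : ℝ) ^ a * Fintype.card (V → Fin (2 * h))) (fun ω hω => hω)
      (fun q _ => p1_A k a hg hka (nb G v) (hdeg v) q)
    rw [Finset.card_univ, Fintype.card_fin] at h1
    push_cast at h1
    exact h1
  have hBb : ∀ v, (cnt (fun β : V → Fin (2 * h) => ∃ yq ∈ (Y G k v) ×ˢ (univ : Finset (Fin (2 * h))),
      ((Bn G v yq.1).filter (fun z => β z = yq.2)).card < b) : ℝ) ≤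
      ((k + 1) * (2 * h)) * (b * (Real.exp (-(n : ℝ)) * Fintype.card (V → Fin (2 * h)))) := by
    intro v
    have h1 := p1_cnt_ex_le (T := V) (C := Fin (2 * h)) ((Y G k v) ×ˢ (univ : Finset (Fin (2 * h))))
      (fun yq β => ((Bn G v yq.1).filter (fun z => β z = yq.2)).card < b) (fun β =>
        ∃ yq ∈ (Y G k v) ×ˢ (univ : Finset (Fin (2 * h))),
          ((Bn G v yq.1).filter (fun z => β z = yq.2)).card < b)
      (b * (Real.exp (-(n : ℝ)) * Fintype.card (V → Fin (2 * h)))) (fun ω hω => hω)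
      (fun yq hyq => p1_B hPRD b n hg (Bn G v yq.1) (by
        have h2 := (Finset.mem_filter.mp (Finset.mem_product.mp hyq).1).2
        have h3 : 10 * (b * (2 * h * n)) ≤ 10 * (Bn G v yq.1).card :=
          le_trans (by rw [← mul_assoc, ← mul_assoc]; exact hbk) h2
        omega) yq.2)
    refine h1.trans (mul_le_mul_of_nonneg_right ?_ (by positivity))
    rw [Finset.card_product, Finset.card_univ, Fintype.card_fin]
    have h4 : (Y G k v).card ≤ k + 1 := (Finset.card_filter_le _ _).trans (hdeg v)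
    have h5 : (Y G k v).card * (2 * h) ≤ (k + 1) * (2 * h) := Nat.mul_le_mul_right _ h4
    exact_mod_cast h5
  have hCc : ∀ v, (cnt (fun β : V → Fin (2 * h) => ¬ Plan G k h β v) : ℝ) ≤
      2 * h * (Real.exp (-(n : ℝ)) * Fintype.card (V → Fin (2 * h))) := by
    intro v
    have hmain : (cnt (fun β : V → Fin (2 * h) => ¬ Plan G k h β v) : ℝ) ≤
      h * (Real.exp (-(n : ℝ)) * Fintype.card (V → Fin (2 * h))) := by
      rcases hstr v with hY | ⟨u, y₁, y₂, hc⟩
      · have h1 := p1_cnt_ex_le (T := V) (C := Fin (2 * h)) (univ : Finset (Fin h))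
          (fun i β => ∀ z ∈ Y G k v, β z ≠ (⟨2 * (i : ℕ), by omega⟩ : Fin (2 * h))) (fun β => ¬ Plan G k h β v)
          (Real.exp (-(n : ℝ)) * Fintype.card (V → Fin (2 * h)))
          (by
            intro β hβ
            by_contra hcon
            apply hβ
            left
            intro i hi
            push Not at hcon
            obtain ⟨z, hz, hzq⟩ := hcon ⟨i, hi⟩ (mem_univ _)
            exact ⟨z, hz, by rw [hzq]⟩)
          (fun i _ => p1_none hPRD n hg (Y G k v) (hm0.trans hY) ⟨2 * (i : ℕ), by omega⟩)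
        rw [Finset.card_univ, Fintype.card_fin] at h1
        exact h1
      · have h1 := p1_cnt_ex_le (T := V) (C := Fin (2 * h)) (univ : Finset (Fin h))
          (fun i β => ∀ l ∈ (univ : Finset (Fin M)),
            ¬ ((β (u l) : ℕ) = 2 * (i : ℕ) ∧ (β (y₁ l) : ℕ) = 2 * (i : ℕ) ∧
            ((nb G (u l)).card = k ∨ (β (y₂ l) : ℕ) = 2 * (i : ℕ) + 1))) (fun β => ¬ Plan G k h β v)
          (Real.exp (-(n : ℝ)) * Fintype.card (V → Fin (2 * h)))
          (by
            intro β hβ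
            by_contra hcon
            apply hβ
            right
            intro i hi
            have h2 : ¬ ∀ l ∈ (univ : Finset (Fin M)),
                ¬ ((β (u l) : ℕ) = 2 * i ∧ (β (y₁ l) : ℕ) = 2 * i ∧
                ((nb G (u l)).card = k ∨ (β (y₂ l) : ℕ) = 2 * i + 1)) := fun h3 =>
              hcon ⟨⟨i, hi⟩, mem_univ _, h3⟩
            push Not at h2
            obtain ⟨l, _, g1, g2, g3⟩ := h2
            refine ⟨u l, (hc.1 l).1, g1, ⟨y₁ l, (hc.1 l).2.1, g2⟩, ?_⟩
            rcases g3 with g3 | g3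
            · exact Or.inl g3
            · exact Or.inr ⟨y₂ l, (hc.1 l).2.2.1, g3⟩)
          (fun i _ => p1_cand hPRD G k h n M hh hM v u y₁ y₂ hc i i.2)
        rw [Finset.card_univ, Fintype.card_fin] at h1
        exact h1
    refine hmain.trans (mul_le_mul_of_nonneg_right ?_ (by positivity))
    have : (0 : ℝ) ≤ h := Nat.cast_nonneg _
    linarith
  have hE : ∀ v ∈ (univ : Finset V), (cnt (p1_E G k h a b v) : ℝ) ≤ p * Fintype.card (V → Fin (2 * h)) := by
    intro v _
    have h1 : cnt (p1_E G k h a b v) ≤ _ := p1_cnt_or _ _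
    have h2 := p1_cnt_or (T := V) (C := Fin (2 * h))
      (fun β => ∃ yq ∈ (Y G k v) ×ˢ (univ : Finset (Fin (2 * h))),
        ((Bn G v yq.1).filter (fun z => β z = yq.2)).card < b) (fun β => ¬ Plan G k h β v)
    have h3 : (cnt (p1_E G k h a b v) : ℝ) ≤
        (cnt (fun β : V → Fin (2 * h) => ∃ q ∈ (univ : Finset (Fin (2 * h))),
          a < ((nb G v).filter (fun z => β z = q)).card) : ℝ) +
        ((cnt (fun β : V → Fin (2 * h) => ∃ yq ∈ (Y G k v) ×ˢ (univ : Finset (Fin (2 * h))),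
          ((Bn G v yq.1).filter (fun z => β z = yq.2)).card < b) : ℝ) +
        (cnt (fun β : V → Fin (2 * h) => ¬ Plan G k h β v) : ℝ)) := by
      exact_mod_cast h1.trans (Nat.add_le_add_left h2 _)
    have := hA v
    have := hBb v
    have := hCc v
    rw [hp]
    linarith
  obtain ⟨β, hβ⟩ := Pool.Agent.Helper805.CHS.LLL.lll (T := V) (C := Fin (2 * h)) (univ : Finset V)
    (p1_E G k h a b) (ball G 2) (fun v _ => p1_E_dep G k h a b v) p ((k + 2) ^ 4) hp0 hE
    (fun v _ => hB 2 v) (by push_cast; exact hnum) (Nat.one_le_pow _ _ (by omega)) hN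
  refine ⟨β, ?_, ?_, ?_⟩
  · intro x q
    by_contra hcon
    exact hβ x (mem_univ x) (Or.inl ⟨q, mem_univ q, not_le.mp hcon⟩)
  · intro u y hy q
    by_contra hcon
    exact hβ u (mem_univ u) (Or.inr (Or.inl ⟨(y, q), Finset.mem_product.mpr ⟨hy, mem_univ q⟩,
      not_le.mp hcon⟩))
  · intro v
    by_contra hcon
    exact hβ v (mem_univ v) (Or.inr (Or.inr hcon))

end Pool.Agent.N515.BK
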