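import Pool.Agent.N515.BK.Stm

set_option autoImplicit false

/-!
# Second stage of project BK: random colours (helper618)
-/

namespace Pool.Agent.N515.BK

open Finset Classical
open Pool.Agent.Helper805.CHS.LLL (cnt)

section P2

variable {V : Type} [Fintype V]

theorem p2_ret_congr {G : SimpleGraph V} {h L κ : ℕ} {β : V → Fin (2 * h)} {φ φ' : V → Fin L}
    {x : V} (hx : φ x = φ' x) (hz : ∀ z ∈ nb G x, β z = β x → φ z = φ' z)
    (hR : Ret G κ β φ x) : Ret G κ β φ' x := by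
  refine ⟨by rw [← hx]; exact hR.1, ?_⟩
  intro z hzx hbz
  rw [← hx, ← hz z hzx hbz]
  exact hR.2 z hzx hbz

theorem p2_mem_Bn {G : SimpleGraph V} {u y a : V} (ha : a ∈ Bn G u y) : a ∈ nb G u := by
  unfold Bn at ha
  exact (Finset.mem_sdiff.mp (Finset.mem_of_mem_erase ha)).1

theorem p2_sv_congr {G : SimpleGraph V} {h L κ : ℕ} {β : V → Fin (2 * h)} {φ φ' : V → Fin L}
    {u : V} {q : ℕ} (hy : ∀ y ∈ nb G u, (β y : ℕ) = q → φ y = φ' y)
    (hz : ∀ y ∈ nb G u, (β y : ℕ) = q → ∀ z ∈ nb G y, β z = β y → φ z = φ' z)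
    (hS : Sv G κ β φ u q) : Sv G κ β φ' u q := by
  obtain ⟨y, hyu, a, ha, hby, hba, hRy, hRa, hay⟩ := hS
  have hau := p2_mem_Bn ha
  refine ⟨y, hyu, a, ha, hby, hba, p2_ret_congr (hy y hyu hby) (hz y hyu hby) hRy,
    p2_ret_congr (hy a hau hba) (hz a hau hba) hRa, ?_⟩
  rw [← hy a hau hba, ← hy y hyu hby]
  exact hay

theorem p2_suc_congr {G : SimpleGraph V} {k h L κ : ℕ} {β : V → Fin (2 * h)} {φ φ' : V → Fin L}
    {v : V} {i : ℕ}
    (h0 : ∀ y ∈ nb G v, (β y : ℕ) = 2 * i → φ y = φ' y)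
    (h1 : ∀ y ∈ nb G v, (β y : ℕ) = 2 * i → ∀ z ∈ nb G y, β z = β y → φ z = φ' z)
    (h2 : ∀ u ∈ nb G v, ∀ y ∈ nb G u, ((β y : ℕ) = 2 * i ∨ (β y : ℕ) = 2 * i + 1) → φ y = φ' y)
    (h3 : ∀ u ∈ nb G v, ∀ y ∈ nb G u, ((β y : ℕ) = 2 * i ∨ (β y : ℕ) = 2 * i + 1) →
      ∀ z ∈ nb G y, β z = β y → φ z = φ' z)
    (hS : Suc G k κ β φ v i) : Suc G k κ β φ' v i := by
  rcases hS with hS | ⟨u, huv, hbu, hku, hSu, hor⟩
  · exact Or.inl (p2_sv_congr h0 h1 hS)
  · right
    refine ⟨u, huv, hbu, ?_, ?_, ?_⟩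
    · rw [← h0 u huv hbu]; exact hku
    · exact p2_sv_congr (fun y hy hb => h2 u huv y hy (Or.inl hb))
        (fun y hy hb => h3 u huv y hy (Or.inl hb)) hSu
    · rcases hor with h | h
      · exact Or.inl h
      · right
        exact p2_sv_congr (fun y hy hb => h2 u huv y hy (Or.inr hb))
          (fun y hy hb => h3 u huv y hy (Or.inr hb)) h

/-- probability of success -/
theorem p2_prob (hTR : St_TR) (G : SimpleGraph V) (k h κ L a b : ℕ)
    (β : V → Fin (2 * h)) (hκ : 1 ≤ κ) (hL : 1 ≤ L)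
    (hL2 : 2 * (3 * a + κ) ≤ L) (hbL : b ≤ L)
    (ha : ∀ x q, ((nb G x).filter (fun z => β z = q)).card ≤ a)
    (hb : ∀ u, ∀ y ∈ Y G k u, ∀ q, b ≤ ((Bn G u y).filter (fun z => β z = q)).card)
    (q1 : ℝ) (hq1 : q1 = (κ * b : ℝ) / (2 * (L : ℝ) ^ 2)) (v : V) (hplan : Plan G k h β v)
    (i : ℕ) (hi : i < h) :
    q1 ^ 2 * Fintype.card (V → Fin L) ≤ (cnt (fun φ : V → Fin L => Suc G k κ β φ v i) : ℝ) := by
  have hLpos : (0 : ℝ) < L := by exact_mod_cast hL
  have hq0 : 0 ≤ q1 := by rw [hq1]; positivity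
  have hκL : (κ : ℝ) ≤ L := by
    have : κ ≤ L := by omega
    exact_mod_cast this
  have hbL' : (b : ℝ) ≤ L := by exact_mod_cast hbL
  have hq1' : q1 ≤ 1 := by
    rw [hq1, div_le_one (by positivity)]
    have h1 : (κ : ℝ) * b ≤ L * L := mul_le_mul hκL hbL' (Nat.cast_nonneg _) hLpos.le
    nlinarith [mul_pos hLpos hLpos]
  have hqq : q1 ^ 2 ≤ q1 := by nlinarith
  have hNne : Nonempty (Fin L) := ⟨⟨0, by omega⟩⟩
  have hN : 0 < Fintype.card (V → Fin L) := Fintype.card_pos
  have hNr : (0 : ℝ) < Fintype.card (V → Fin L) := by exact_mod_cast hN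
  rcases hplan with hp | hp
  · obtain ⟨y, hyY, hby⟩ := hp i hi
    have hyv : y ∈ nb G v := (Finset.mem_filter.mp hyY).1
    have h1 := hTR V G h κ L a b β (β y) hL hL2 (fun x => ha x (β y)) v y ∅ (by simp)
      (by simp) (by simp) hyv rfl (hb v y hyY (β y))
    have h2 : cnt (fun φ : V → Fin L => Sv G κ β φ v (β y) ∧ ∀ x ∈ (∅ : Finset V), κ ≤ (φ x : ℕ))
        ≤ cnt (fun φ : V → Fin L => Suc G k κ β φ v i) := by
      apply Pool.Agent.Helper805.CHS.LLL.cnt_mono
      intro φ hφ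
      left
      rw [← hby]
      exact hφ.1
    have h2' : (cnt (fun φ : V → Fin L => Sv G κ β φ v (β y) ∧
        ∀ x ∈ (∅ : Finset V), κ ≤ (φ x : ℕ)) : ℝ)
        ≤ cnt (fun φ : V → Fin L => Suc G k κ β φ v i) := by exact_mod_cast h2
    rw [← hq1] at h1
    refine le_trans (mul_le_mul_of_nonneg_right hqq hNr.le) (h1.trans h2')
  · obtain ⟨u, huv, hbu, ⟨y, hyY, hby⟩, hor⟩ := hp i hi
    have hyu : y ∈ nb G u := (Finset.mem_filter.mp hyY).1
    have hyne : y ≠ u := by
      intro h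
      rw [h, mem_nb] at hyu
      exact G.loopless.irrefl u hyu
    have huBn : u ∉ Bn G u y := by
      intro h
      have := p2_mem_Bn h
      rw [mem_nb] at this
      exact G.loopless.irrefl u this
    have h1 := hTR V G h κ L a b β (β y) hL hL2 (fun x => ha x (β y)) u y {u} (by simp)
      (by simpa using hyne) (by simpa using huBn) hyu rfl (hb u y hyY (β y))
    rw [← hq1] at h1
    rcases hor with hdeg | ⟨y', hyY', hby'⟩
    · have h2 : cnt (fun φ : V → Fin L => Sv G κ β φ u (β y) ∧ ∀ x ∈ ({u} : Finset V),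
          κ ≤ (φ x : ℕ)) ≤ cnt (fun φ : V → Fin L => Suc G k κ β φ v i) := by
        apply Pool.Agent.Helper805.CHS.LLL.cnt_mono
        intro φ hφ
        right
        refine ⟨u, huv, hbu, hφ.2 u (by simp), ?_, Or.inl hdeg⟩
        rw [← hby]
        exact hφ.1
      have h2' : (cnt (fun φ : V → Fin L => Sv G κ β φ u (β y) ∧
          ∀ x ∈ ({u} : Finset V), κ ≤ (φ x : ℕ)) : ℝ)
          ≤ cnt (fun φ : V → Fin L => Suc G k κ β φ v i) := by exact_mod_cast h2
      exact le_trans (mul_le_mul_of_nonneg_right hqq hNr.le) (h1.trans h2')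
    · have hyu' : y' ∈ nb G u := (Finset.mem_filter.mp hyY').1
      have h3 := hTR V G h κ L a b β (β y') hL hL2 (fun x => ha x (β y')) u y' ∅ (by simp)
        (by simp) (by simp) hyu' rfl (hb u y' hyY' (β y'))
      rw [← hq1] at h3
      have hind := Pool.Agent.Helper805.CHS.LLL.indep
        (fun φ : V → Fin L => Sv G κ β φ u (β y) ∧ ∀ x ∈ ({u} : Finset V), κ ≤ (φ x : ℕ))
        (fun φ : V → Fin L => Sv G κ β φ u (β y') ∧ ∀ x ∈ (∅ : Finset V), κ ≤ (φ x : ℕ))
        (univ.filter (fun z => (β z : ℕ) = 2 * i)) (by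
          intro ω ω' hω hP
          refine ⟨p2_sv_congr ?_ ?_ hP.1, ?_⟩
          · intro z _ hz
            apply hω
            simp only [mem_filter, mem_univ, true_and]
            omega
          · intro z _ hz w _ hw
            apply hω
            simp only [mem_filter, mem_univ, true_and]
            rw [hw]
            omega
          · intro x hx
            rw [mem_singleton] at hx
            rw [hx, ← hω u (by simp [hbu])]
            exact hP.2 u (by simp)) (by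
          intro ω ω' hω hP
          refine ⟨p2_sv_congr ?_ ?_ hP.1, ?_⟩
          · intro z _ hz
            apply hω
            simp only [mem_filter, mem_univ, true_and]
            omega
          · intro z _ hz w _ hw
            apply hω
            simp only [mem_filter, mem_univ, true_and]
            rw [hw]
            omega
          · intro x hx
            simp at hx)
      have h2 : cnt (fun φ : V → Fin L => (Sv G κ β φ u (β y) ∧ ∀ x ∈ ({u} : Finset V),
          κ ≤ (φ x : ℕ)) ∧ (Sv G κ β φ u (β y') ∧ ∀ x ∈ (∅ : Finset V), κ ≤ (φ x : ℕ)))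
          ≤ cnt (fun φ : V → Fin L => Suc G k κ β φ v i) := by
        apply Pool.Agent.Helper805.CHS.LLL.cnt_mono
        intro φ hφ
        right
        refine ⟨u, huv, hbu, hφ.1.2 u (by simp), ?_, Or.inr ?_⟩
        · rw [← hby]
          exact hφ.1.1
        · rw [← hby']
          exact hφ.2.1
      have h2' : (cnt (fun φ : V → Fin L => (Sv G κ β φ u (β y) ∧ ∀ x ∈ ({u} : Finset V),
          κ ≤ (φ x : ℕ)) ∧ (Sv G κ β φ u (β y') ∧ ∀ x ∈ (∅ : Finset V), κ ≤ (φ x : ℕ))) : ℝ)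
          ≤ cnt (fun φ : V → Fin L => Suc G k κ β φ v i) := by exact_mod_cast h2
      refine le_trans ?_ h2'
      have hind' : (cnt (fun φ : V → Fin L => (Sv G κ β φ u (β y) ∧ ∀ x ∈ ({u} : Finset V),
          κ ≤ (φ x : ℕ)) ∧ (Sv G κ β φ u (β y') ∧ ∀ x ∈ (∅ : Finset V), κ ≤ (φ x : ℕ))) : ℝ) *
          (Fintype.card (V → Fin L) : ℝ) =
          (cnt (fun φ : V → Fin L => Sv G κ β φ u (β y) ∧ ∀ x ∈ ({u} : Finset V),
            κ ≤ (φ x : ℕ)) : ℝ) *
          (cnt (fun φ : V → Fin L => Sv G κ β φ u (β y') ∧ ∀ x ∈ (∅ : Finset V),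
            κ ≤ (φ x : ℕ)) : ℝ) := by exact_mod_cast hind
      refine le_of_mul_le_mul_right ?_ hNr
      rw [hind']
      calc q1 ^ 2 * (Fintype.card (V → Fin L) : ℝ) * (Fintype.card (V → Fin L) : ℝ)
          = (q1 * (Fintype.card (V → Fin L) : ℝ)) * (q1 * (Fintype.card (V → Fin L) : ℝ)) := by ring
        _ ≤ _ := mul_le_mul h1 h3 (by positivity) (Nat.cast_nonneg _)

end P2

theorem t_P2 (hTR : St_TR) (hBIN : St_BIN) (hBALL : St_BALL) : St_P2 := by
  intro V _ G k h κ L a b p β hdeg hh hκ hL hL2 hbL ha hb hplan hp hlll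
  set q1 : ℝ := (κ * b : ℝ) / (2 * (L : ℝ) ^ 2) with hq1
  have hLpos : (0 : ℝ) < L := by exact_mod_cast hL
  have hq0 : 0 ≤ q1 := by rw [hq1]; positivity
  have hκL : (κ : ℝ) ≤ L := by
    have : κ ≤ L := by omega
    exact_mod_cast this
  have hbL' : (b : ℝ) ≤ L := by exact_mod_cast hbL
  have hq1' : q1 ≤ 1 := by
    rw [hq1, div_le_one (by positivity)]
    have h1 : (κ : ℝ) * b ≤ L * L := mul_le_mul hκL hbL' (Nat.cast_nonneg _) hLpos.le
    nlinarith [mul_pos hLpos hLpos]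
  have hp0 : 0 ≤ p := by rw [hp]; positivity
  have hp1 : p ≤ 1 := by rw [hp]; exact pow_le_one₀ hq0 hq1'
  have hNne : Nonempty (Fin L) := ⟨⟨0, by omega⟩⟩
  have hN : 0 < Fintype.card (V → Fin L) := Fintype.card_pos
  obtain ⟨hB0, hBc, hBs, hBn, hBd⟩ := hBALL V G k hdeg
  -- membership in balls
  have hb1 : ∀ v : V, ∀ u ∈ nb G v, u ∈ ball G 3 v := fun v u hu =>
    hBs 2 v (hBs 1 v (hBn 0 v v u (hB0 0 v) hu))
  have hb2 : ∀ v : V, ∀ u ∈ nb G v, ∀ y ∈ nb G u, y ∈ ball G 3 v := fun v u hu y hy =>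
    hBs 2 v (hBn 1 v u y (hBn 0 v v u (hB0 0 v) hu) hy)
  have hb3 : ∀ v : V, ∀ u ∈ nb G v, ∀ y ∈ nb G u, ∀ z ∈ nb G y, z ∈ ball G 3 v :=
    fun v u hu y hy z hz => hBn 2 v y z (hBn 1 v u y (hBn 0 v v u (hB0 0 v) hu) hy) hz
  have hmain := Pool.Agent.Helper805.CHS.LLL.lll (T := V) (C := Fin L) (univ : Finset V)
    (fun v φ => ¬ ∃ i < h, ∃ j < h, i ≠ j ∧ Suc G k κ β φ v i ∧ Suc G k κ β φ v j)
    (fun v => ball G 3 v) (by
      intro v _ ω ω' hω hbad hgood
      apply hbad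
      obtain ⟨i, hi, j, hj, hij, hsi, hsj⟩ := hgood
      have key : ∀ i, Suc G k κ β ω' v i → Suc G k κ β ω v i := by
        intro i
        apply p2_suc_congr
        · intro y hy _
          exact (hω y (hb1 v y hy)).symm
        · intro y hy _ z hz _
          exact (hω z (hb2 v y hy z hz)).symm
        · intro u hu y hy _
          exact (hω y (hb2 v u hu y hy)).symm
        · intro u hu y hy _ z hz _
          exact (hω z (hb3 v u hu y hy z hz)).symm
      exact ⟨i, hi, j, hj, hij, key i hsi, key j hsj⟩)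
    (h * (1 - p) ^ (h - 1)) ((k + 2) ^ 6)
    (mul_nonneg (Nat.cast_nonneg _) (pow_nonneg (by linarith) _)) (by
      intro v _
      refine hBIN V (Fin L) h (fun i φ => Suc G k κ β φ v i)
        (fun i => univ.filter (fun z => (β z : ℕ) = 2 * i ∨ (β z : ℕ) = 2 * i + 1)) p hp0 hp1 hh hN
        ?_ ?_ ?_
      · intro i _ ω ω' hω
        have hω' : ∀ z, ((β z : ℕ) = 2 * i ∨ (β z : ℕ) = 2 * i + 1) → ω z = ω' z := by
          intro z hz
          apply hω
          simpa using hz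
        apply p2_suc_congr
        · intro y _ hy
          exact hω' y (Or.inl hy)
        · intro y _ hy z _ hz
          exact hω' z (by rw [hz]; exact Or.inl hy)
        · intro u _ y _ hy
          exact hω' y hy
        · intro u _ y _ hy z _ hz
          exact hω' z (by rw [hz]; exact hy)
      · intro i _ j _ hij
        rw [Finset.disjoint_left]
        intro z hz hz'
        simp only [mem_filter, mem_univ, true_and] at hz hz'
        omega
      · intro i hi
        rw [hp]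
        exact p2_prob hTR G k h κ L a b β hκ hL hL2 hbL ha hb q1 hq1 v (hplan v) i hi)
    (by
      intro v _
      exact hBd 3 v)
    (by
      push_cast
      exact hlll)
    (Nat.one_le_pow _ _ (by omega)) hN
  obtain ⟨φ, hφ⟩ := hmain
  refine ⟨φ, fun v => ?_⟩
  have := hφ v (mem_univ v)
  rwa [not_not] at this

end Pool.Agent.N515.BK
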