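import Pool.Agent.N515.BK.A0

set_option autoImplicit false

namespace Pool.Agent.N515.BK

open Finset Classical

variable {V : Type} [Fintype V]

/-- one repeated colour -/
theorem p3_im1 {K : Type} [DecidableEq K] (c : V → K) (S : Finset V) (x y : V) (hxy : x ≠ y)
    (hx : x ∈ S) (hy : y ∈ S) (hc : c x = c y) : (S.image c).card + 1 ≤ S.card := by
  have h1 : S.image c = (S.erase x).image c := by
    ext z
    simp only [mem_image, mem_erase]
    constructor
    · rintro ⟨w, hw, rfl⟩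
      by_cases h : w = x
      · exact ⟨y, ⟨hxy.symm, hy⟩, by rw [h, hc]⟩
      · exact ⟨w, ⟨h, hw⟩, rfl⟩
    · rintro ⟨w, ⟨_, hw⟩, rfl⟩
      exact ⟨w, hw, rfl⟩
  have h2 : ((S.erase x).image c).card ≤ (S.erase x).card := card_image_le
  have h3 : (S.erase x).card + 1 = S.card := card_erase_add_one hx
  rw [h1]
  omega

/-- the colour -/
noncomputable def p3_col (G : SimpleGraph V) {h L : ℕ} (k κ : ℕ) (β : V → Fin (2 * h))
    (φ : V → Fin L) (hk : 2 * h * κ ≤ k) (h1 : 1 ≤ k) (x : V) : Fin k :=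
  if hx : Ret G κ β φ x then
    ⟨(β x : ℕ) * κ + (φ x : ℕ), by
      have h2 := hx.1
      have h3 : (β x : ℕ) + 1 ≤ 2 * h := (β x).2
      have h4 : ((β x : ℕ) + 1) * κ ≤ 2 * h * κ := Nat.mul_le_mul_right κ h3
      have h5 : ((β x : ℕ) + 1) * κ = (β x : ℕ) * κ + κ := by ring
      omega⟩
  else ⟨0, h1⟩

theorem p3_col_eq {G : SimpleGraph V} {h L k κ : ℕ} {β : V → Fin (2 * h)}
    {φ : V → Fin L} (hk : 2 * h * κ ≤ k) (h1 : 1 ≤ k) {x y : V} (hx : Ret G κ β φ x)
    (hy : Ret G κ β φ y) :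
    p3_col G k κ β φ hk h1 x = p3_col G k κ β φ hk h1 y ↔ β x = β y ∧ φ x = φ y := by
  unfold p3_col
  rw [dif_pos hx, dif_pos hy]
  rw [Fin.mk.injEq]
  constructor
  · intro h
    have hx' := hx.1
    have hy' := hy.1
    have hκ : 0 < κ := by omega
    have e1 : ((β x : ℕ) * κ + (φ x : ℕ)) / κ = β x := by
      rw [Nat.add_comm, Nat.add_mul_div_right _ _ hκ, Nat.div_eq_of_lt hx', Nat.zero_add]
    have e2 : ((β y : ℕ) * κ + (φ y : ℕ)) / κ = β y := by
      rw [Nat.add_comm, Nat.add_mul_div_right _ _ hκ, Nat.div_eq_of_lt hy', Nat.zero_add]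
    have e3 : (β x : ℕ) = β y := by rw [← e1, ← e2, h]
    refine ⟨Fin.ext e3, Fin.ext ?_⟩
    rw [e3] at h
    omega
  · rintro ⟨h2, h3⟩
    rw [h2, h3]

/-- what a saving gives -/
theorem p3_sv {G : SimpleGraph V} {h L k κ : ℕ} {β : V → Fin (2 * h)}
    {φ : V → Fin L} (hk : 2 * h * κ ≤ k) (h1 : 1 ≤ k) {u : V} {q : ℕ} (hs : Sv G κ β φ u q) :
    ∃ y a, y ≠ a ∧ y ∈ nb G u ∩ univ.filter (Ret G κ β φ) ∧
      a ∈ nb G u ∩ univ.filter (Ret G κ β φ) ∧ (β y : ℕ) = q ∧ (β a : ℕ) = q ∧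
      p3_col G k κ β φ hk h1 y = p3_col G k κ β φ hk h1 a := by
  obtain ⟨y, hy, a, ha, hyq, haq, hry, hra, he⟩ := hs
  unfold Bn at ha
  rw [mem_erase, mem_sdiff] at ha
  refine ⟨y, a, ha.1.symm, ?_, ?_, hyq, haq, ?_⟩
  · rw [mem_inter]; exact ⟨hy, by simp [hry]⟩
  · rw [mem_inter]; exact ⟨ha.2.1, by simp [hra]⟩
  · rw [p3_col_eq hk h1 hry hra]
    exact ⟨Fin.ext (by rw [hyq, haq]), he.symm⟩

theorem p3_one {G : SimpleGraph V} {h L k κ : ℕ} {β : V → Fin (2 * h)}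
    {φ : V → Fin L} (hk : 2 * h * κ ≤ k) (h1 : 1 ≤ k) {u : V} {q : ℕ} (hs : Sv G κ β φ u q) :
    ((nb G u ∩ univ.filter (Ret G κ β φ)).image (p3_col G k κ β φ hk h1)).card + 1 ≤
      (nb G u ∩ univ.filter (Ret G κ β φ)).card := by
  obtain ⟨y, a, hya, hy, ha, _, _, hc⟩ := p3_sv hk h1 hs
  exact p3_im1 _ _ y a hya hy ha hc

theorem p3_two {G : SimpleGraph V} {h L k κ : ℕ} {β : V → Fin (2 * h)}
    {φ : V → Fin L} (hk : 2 * h * κ ≤ k) (h1 : 1 ≤ k) {u : V} {q q' : ℕ} (hq : q ≠ q')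
    (hs : Sv G κ β φ u q) (hs' : Sv G κ β φ u q') :
    ((nb G u ∩ univ.filter (Ret G κ β φ)).image (p3_col G k κ β φ hk h1)).card + 2 ≤
      (nb G u ∩ univ.filter (Ret G κ β φ)).card := by
  obtain ⟨y, a, hya, hy, ha, hyq, haq, hc⟩ := p3_sv hk h1 hs
  obtain ⟨y', a', hya', hy', ha', hyq', haq', hc'⟩ := p3_sv hk h1 hs'
  have d1 : y ≠ y' := by rintro rfl; exact hq (hyq.symm.trans hyq')
  have d2 : a ≠ y' := by rintro rfl; exact hq (haq.symm.trans hyq')
  have d3 : a' ≠ y := by rintro rfl; exact hq (hyq.symm.trans haq')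
  exact a0_im2 _ _ y y' d1 hy hy' ⟨a, ha, hya.symm, d2, hc.symm⟩ ⟨a', ha', d3, hya'.symm, hc'.symm⟩

theorem p3_split (G : SimpleGraph V) (v : V) (R : Finset V) :
    (nb G v ∩ R).card + (nb G v \ R).card = (nb G v).card := by
  rw [Finset.card_inter_add_card_sdiff]

theorem p3_H {G : SimpleGraph V} {h L k κ : ℕ} {β : V → Fin (2 * h)}
    {φ : V → Fin L} (hk : 2 * h * κ ≤ k) (h1 : 1 ≤ k) (hdeg : ∀ v, (nb G v).card ≤ k + 1)
    {u : V} {q q' : ℕ} (hq : q ≠ q') (hs : Sv G κ β φ u q)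
    (hs' : (nb G u).card = k ∨ Sv G κ β φ u q') :
    ((nb G u ∩ univ.filter (Ret G κ β φ)).image (p3_col G k κ β φ hk h1)).card +
      (nb G u \ univ.filter (Ret G κ β φ)).card < k := by
  have h2 := p3_split G u (univ.filter (Ret G κ β φ))
  have h3 := hdeg u
  rcases hs' with h4 | h4
  · have h5 := p3_one hk h1 hs
    omega
  · have h5 := p3_two hk h1 hq hs h4
    omega

theorem t_P3 (hEXT : St_EXT) : St_P3 := by
  intro V _ G k h κ L β φ hdeg hk h1 hsuc
  set R : Finset V := univ.filter (Ret G κ β φ) with hR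
  set c : V → Fin k := p3_col G k κ β φ hk h1 with hc
  set H : Finset V := univ.filter (fun u => u ∉ R ∧
    ((nb G u ∩ R).image c).card + (nb G u \ R).card < k) with hH
  have memR : ∀ x, x ∈ R ↔ Ret G κ β φ x := fun x => by simp [hR]
  have memH : ∀ x, x ∈ H ↔ x ∉ R ∧ ((nb G x ∩ R).image c).card + (nb G x \ R).card < k :=
    fun x => by simp [hH]
  -- what the second alternative gives
  have hsec : ∀ v i, Suc G k κ β φ v i → Sv G κ β φ v (2 * i) ∨
      ∃ u ∈ (nb G v \ R) ∩ H, (β u : ℕ) = 2 * i := by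
    intro v i hs
    rcases hs with hs | ⟨u, hu, hβ, hφ, hs1, hs2⟩
    · exact Or.inl hs
    · refine Or.inr ⟨u, ?_, hβ⟩
      have huR : u ∉ R := by
        rw [memR]
        intro hret
        have := hret.1
        omega
      rw [mem_inter, mem_sdiff, memH]
      exact ⟨⟨hu, huR⟩, huR, p3_H hk h1 hdeg (by omega) hs1 hs2⟩
  refine hEXT V G k c R H ?_ ?_ ?_ ?_
  · rw [Finset.disjoint_right]
    intro x hx
    exact ((memH x).1 hx).1
  · intro a ha b hb hab he
    have ha' := (memR a).1 ha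
    have hb' := (memR b).1 hb
    have := (p3_col_eq hk h1 ha' hb').1 he
    exact ha'.2 b (mem_nb.2 hab) this.1.symm this.2.symm
  · intro v hvR hvH
    obtain ⟨i, hi, j, hj, hij, hsi, hsj⟩ := hsuc v
    have e1 := p3_split G v R
    have e2 := hdeg v
    have e3 : ((nb G v \ R) ∩ H).card + ((nb G v \ R) \ H).card = (nb G v \ R).card := by
      rw [Finset.card_inter_add_card_sdiff]
    have e4 : ((nb G v ∩ R).image c).card ≤ (nb G v ∩ R).card := card_image_le
    rcases hsec v i hsi with a1 | ⟨u, hu, hβu⟩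
    · rcases hsec v j hsj with a2 | ⟨w, hw, hβw⟩
      · have h5 := p3_two hk h1 (q := 2 * i) (q' := 2 * j) (by omega) a1 a2
        rw [← hR, ← hc] at h5
        omega
      · have h5 := p3_one hk h1 a1
        rw [← hR, ← hc] at h5
        have h6 : 0 < ((nb G v \ R) ∩ H).card := card_pos.2 ⟨w, hw⟩
        omega
    · rcases hsec v j hsj with a2 | ⟨w, hw, hβw⟩
      · have h5 := p3_one hk h1 a2
        rw [← hR, ← hc] at h5
        have h6 : 0 < ((nb G v \ R) ∩ H).card := card_pos.2 ⟨u, hu⟩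
        omega
      · have h6 : 1 < ((nb G v \ R) ∩ H).card := by
          rw [Finset.one_lt_card]
          refine ⟨u, hu, w, hw, ?_⟩
          rintro rfl
          omega
        omega
  · intro u hu
    exact ((memH u).1 hu).2

end Pool.Agent.N515.BK
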