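import Pool.Agent.N515.BK.A0

set_option autoImplicit false

/-! # Two outside vertices with many neighbours in a large clique -/

namespace Pool.Agent.N515.BK

open Finset Classical

theorem t_S2 (hEXT : St_EXT) (hUSE : St_USE) : St_S2 := by
  intro V _ G k hG Q j y₁ y₂ a₁ a₂ hQ hQc hy₁ hy₂ hy hd₁ hd₂ hd ha₁ ha₂ ha hn₁ hn₂
  have hdeg := hG.good.1
  have hy1Q : ∀ a ∈ Q, a ≠ y₁ := fun a ha h => hy₁ (h ▸ ha)
  have hy2Q : ∀ a ∈ Q, a ≠ y₂ := fun a ha h => hy₂ (h ▸ ha)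
  let r : V → V → Prop := fun x z => G.Adj x z ∨ (x = y₁ ∧ (G.Adj a₁ z ∨ z = y₂)) ∨
    (x = y₂ ∧ G.Adj a₂ z)
  let H : SimpleGraph V := SimpleGraph.fromRel r
  have hH : ∀ x z, H.Adj x z ↔ x ≠ z ∧ (r x z ∨ r z x) := fun x z =>
    SimpleGraph.fromRel_adj r x z
  -- neighbours of a vertex of `Q` inside `Q`
  have hQnb : ∀ a ∈ Q, Q.card ≤ (nb G a ∩ Q).card + 1 := by
    intro a ha
    have h1 : Q.erase a ⊆ nb G a ∩ Q := by
      intro x hx
      rw [Finset.mem_erase] at hx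
      exact Finset.mem_inter.mpr ⟨mem_nb.mpr (hQ a ha x hx.2 hx.1.symm), hx.2⟩
    have h2 := Finset.card_le_card h1
    rw [Finset.card_erase_of_mem ha] at h2
    omega
  have hj : j + 6 ≤ Q.card := hd₁.trans (Finset.card_le_card Finset.inter_subset_right)
  have hY₁ : (nb H y₁ \ Q).card + 2 ≤ k := by
    have h1 : nb H y₁ \ Q ⊆ (nb G y₁ \ Q) ∪ (nb G a₁ \ Q) ∪ {y₂} := by
      intro w hw
      rw [Finset.mem_sdiff, mem_nb, hH] at hw
      obtain ⟨⟨hne, hr⟩, hwQ⟩ := hw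
      simp only [Finset.mem_union, Finset.mem_sdiff, mem_nb, Finset.mem_singleton]
      rcases hr with (h | ⟨_, h | h⟩ | ⟨h, _⟩) | (h | ⟨h, _⟩ | ⟨h, _⟩)
      · exact Or.inl (Or.inl ⟨h, hwQ⟩)
      · exact Or.inl (Or.inr ⟨h, hwQ⟩)
      · exact Or.inr h
      · exact absurd h hy
      · exact Or.inl (Or.inl ⟨h.symm, hwQ⟩)
      · exact absurd h.symm hne
      · exact Or.inr h
    have h2 := (Finset.card_le_card h1).trans (Finset.card_union_le _ _)
    have h3 := Finset.card_union_le (nb G y₁ \ Q) (nb G a₁ \ Q)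
    have h4 := Finset.card_sdiff_add_card_inter (nb G y₁) Q
    have h5 := Finset.card_sdiff_add_card_inter (nb G a₁) Q
    have h6 := hdeg y₁
    have h7 := hdeg a₁
    have h8 := hQnb a₁ ha₁
    rw [Finset.card_singleton] at h2
    omega
  have hY₂ : (nb H y₂ \ Q).card + 2 ≤ k := by
    have h1 : nb H y₂ \ Q ⊆ (nb G y₂ \ Q) ∪ (nb G a₂ \ Q) ∪ {y₁} := by
      intro w hw
      rw [Finset.mem_sdiff, mem_nb, hH] at hw
      obtain ⟨⟨hne, hr⟩, hwQ⟩ := hw
      simp only [Finset.mem_union, Finset.mem_sdiff, mem_nb, Finset.mem_singleton]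
      rcases hr with (h | ⟨h, _⟩ | ⟨_, h⟩) | (h | ⟨h, _⟩ | ⟨h, _⟩)
      · exact Or.inl (Or.inl ⟨h, hwQ⟩)
      · exact absurd h.symm hy
      · exact Or.inl (Or.inr ⟨h, hwQ⟩)
      · exact Or.inl (Or.inl ⟨h.symm, hwQ⟩)
      · exact Or.inr h
      · exact absurd h.symm hne
    have h2 := (Finset.card_le_card h1).trans (Finset.card_union_le _ _)
    have h3 := Finset.card_union_le (nb G y₂ \ Q) (nb G a₂ \ Q)
    have h4 := Finset.card_sdiff_add_card_inter (nb G y₂) Q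
    have h5 := Finset.card_sdiff_add_card_inter (nb G a₂) Q
    have h6 := hdeg y₂
    have h7 := hdeg a₂
    have h8 := hQnb a₂ ha₂
    rw [Finset.card_singleton] at h2
    omega
  obtain ⟨c₀, hc₀⟩ := hUSE V G k hG H Q ⟨a₁, ha₁⟩
    (by
      intro z hz
      by_cases hz1 : z = y₁
      · subst hz1
        omega
      by_cases hz2 : z = y₂
      · subst hz2
        omega
      let f : V → V := fun a => if a = a₁ then y₁ else y₂
      have h1 : nb H z \ Q ⊆ (nb G z \ Q) ∪ (nb G z ∩ {a₁, a₂}).image f := by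
        intro w hw
        rw [Finset.mem_sdiff, mem_nb, hH] at hw
        obtain ⟨⟨hne, hr⟩, hwQ⟩ := hw
        rw [Finset.mem_union, Finset.mem_sdiff, mem_nb, Finset.mem_image]
        rcases hr with (h | ⟨h, _⟩ | ⟨h, _⟩) | (h | ⟨h, h' | h'⟩ | ⟨h, h'⟩)
        · exact Or.inl ⟨h, hwQ⟩
        · exact absurd h hz1
        · exact absurd h hz2
        · exact Or.inl ⟨h.symm, hwQ⟩
        · right
          refine ⟨a₁, Finset.mem_inter.mpr ⟨mem_nb.mpr h'.symm, by simp⟩, ?_⟩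
          simp [f, h]
        · exact absurd h' hz2
        · right
          refine ⟨a₂, Finset.mem_inter.mpr ⟨mem_nb.mpr h'.symm, by simp⟩, ?_⟩
          simp [f, h, ha.symm]
      have h2 := (Finset.card_le_card h1).trans (Finset.card_union_le _ _)
      have h3 : ((nb G z ∩ {a₁, a₂}).image f).card ≤ (nb G z ∩ {a₁, a₂}).card :=
        Finset.card_image_le
      have h4 : nb G z ∩ {a₁, a₂} ⊆ nb G z ∩ Q := by
        apply Finset.inter_subset_inter_left
        intro x hx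
        rw [Finset.mem_insert, Finset.mem_singleton] at hx
        rcases hx with rfl | rfl <;> assumption
      have h5 := Finset.card_le_card h4
      have h6 := Finset.card_sdiff_add_card_inter (nb G z) Q
      have h7 := hdeg z
      omega)
    (by
      intro Q' hdis hQ'
      have hout : ∀ x ∈ Q', x ∉ Q := fun x hx hxQ => Finset.disjoint_left.mp hdis hx hxQ
      have haux : ∀ y ∈ Q', (nb H y \ Q).card + 2 ≤ k → Q'.card < k := by
        intro y hyQ' hc
        have h1 : Q'.erase y ⊆ nb H y \ Q := by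
          intro x hx
          rw [Finset.mem_erase] at hx
          exact Finset.mem_sdiff.mpr ⟨mem_nb.mpr (hQ' y hyQ' x hx.2 hx.1.symm), hout x hx.2⟩
        have h2 := Finset.card_le_card h1
        rw [Finset.card_erase_of_mem hyQ'] at h2
        omega
      by_cases h1 : y₁ ∈ Q'
      · exact haux y₁ h1 hY₁
      by_cases h2 : y₂ ∈ Q'
      · exact haux y₂ h2 hY₂
      apply hG.good.2
      intro x hx z hz hxz
      have h3 := hQ' x hx z hz hxz
      rw [hH] at h3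
      have hx1 : x ≠ y₁ := fun h => h1 (h ▸ hx)
      have hx2 : x ≠ y₂ := fun h => h2 (h ▸ hx)
      have hz1 : z ≠ y₁ := fun h => h1 (h ▸ hz)
      have hz2 : z ≠ y₂ := fun h => h2 (h ▸ hz)
      rcases h3.2 with (h | ⟨h, _⟩ | ⟨h, _⟩) | (h | ⟨h, _⟩ | ⟨h, _⟩)
      · exact h
      · exact absurd h hx1
      · exact absurd h hx2
      · exact h.symm
      · exact absurd h hz1
      · exact absurd h hz2)
  -- properties of `c₀`
  have hcG : ∀ x z, x ∉ Q → z ∉ Q → G.Adj x z → c₀ x ≠ c₀ z := by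
    intro x z hx hz hxz
    exact hc₀ x (Finset.mem_compl.mpr hx) z (Finset.mem_compl.mpr hz)
      ((hH x z).mpr ⟨G.ne_of_adj hxz, Or.inl (Or.inl hxz)⟩)
  have hc1 : ∀ z, z ∉ Q → G.Adj a₁ z → c₀ y₁ ≠ c₀ z := by
    intro z hz hz'
    have hne : y₁ ≠ z := by
      rintro rfl
      exact hn₁ hz'.symm
    exact hc₀ y₁ (Finset.mem_compl.mpr hy₁) z (Finset.mem_compl.mpr hz)
      ((hH y₁ z).mpr ⟨hne, Or.inl (Or.inr (Or.inl ⟨rfl, Or.inl hz'⟩))⟩)
  have hc2 : ∀ z, z ∉ Q → G.Adj a₂ z → c₀ y₂ ≠ c₀ z := by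
    intro z hz hz'
    have hne : y₂ ≠ z := by
      rintro rfl
      exact hn₂ hz'.symm
    exact hc₀ y₂ (Finset.mem_compl.mpr hy₂) z (Finset.mem_compl.mpr hz)
      ((hH y₂ z).mpr ⟨hne, Or.inl (Or.inr (Or.inr ⟨rfl, hz'⟩))⟩)
  have hc12 : c₀ y₁ ≠ c₀ y₂ :=
    hc₀ y₁ (Finset.mem_compl.mpr hy₁) y₂ (Finset.mem_compl.mpr hy₂)
      ((hH y₁ y₂).mpr ⟨hy, Or.inl (Or.inr (Or.inl ⟨rfl, Or.inr rfl⟩))⟩)
  -- the colouring of `G` outside `Q \ {a₁, a₂}`
  let c : V → Fin k := fun x => if x = a₁ then c₀ y₁ else if x = a₂ then c₀ y₂ else c₀ x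
  have ca1 : c a₁ = c₀ y₁ := by simp [c]
  have ca2 : c a₂ = c₀ y₂ := by simp [c, ha.symm]
  have cout : ∀ x, x ∉ Q → c x = c₀ x := by
    intro x hx
    have h1 : x ≠ a₁ := fun h => hx (h ▸ ha₁)
    have h2 : x ≠ a₂ := fun h => hx (h ▸ ha₂)
    simp [c, h1, h2]
  set R : Finset V := Qᶜ ∪ {a₁, a₂} with hR
  set K : Finset V := nb G y₁ ∩ nb G y₂ ∩ Q with hK
  have hmR : ∀ x, x ∈ R ↔ x ∉ Q ∨ x = a₁ ∨ x = a₂ := by
    intro x
    simp only [hR, Finset.mem_union, Finset.mem_compl, Finset.mem_insert, Finset.mem_singleton]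
  have hmK : ∀ x, x ∈ K ↔ G.Adj y₁ x ∧ G.Adj y₂ x ∧ x ∈ Q := by
    intro x
    simp [hK, mem_nb, and_assoc]
  have hRK : Disjoint R K := by
    rw [Finset.disjoint_left]
    intro x hx hx'
    rw [hmR] at hx
    rw [hmK] at hx'
    rcases hx with h | rfl | rfl
    · exact h hx'.2.2
    · exact hn₁ hx'.1
    · exact hn₂ hx'.2.1
  have hprop : PropOn G k c R := by
    have main : ∀ x ∈ R, ∀ z ∈ R, G.Adj x z → x ∈ Q → c x ≠ c z := by
      intro x hx z hz hxz hxQ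
      rw [hmR] at hx hz
      have hne := G.ne_of_adj hxz
      rcases hx with h | rfl | rfl
      · exact absurd hxQ h
      · rw [ca1]
        rcases hz with h | rfl | rfl
        · rw [cout z h]; exact hc1 z h hxz
        · exact absurd rfl hne
        · rw [ca2]; exact hc12
      · rw [ca2]
        rcases hz with h | rfl | rfl
        · rw [cout z h]; exact hc2 z h hxz
        · rw [ca1]; exact hc12.symm
        · exact absurd rfl hne
    intro x hx z hz hxz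
    by_cases hxQ : x ∈ Q
    · exact main x hx z hz hxz hxQ
    · by_cases hzQ : z ∈ Q
      · exact (main z hz x hx hxz.symm hzQ).symm
      · rw [cout x hxQ, cout z hzQ]
        exact hcG x z hxQ hzQ hxz
  apply hG.bad
  refine hEXT V G k c R K hRK hprop ?_ ?_
  · intro v hvR hvK
    have hvQ : v ∈ Q := by
      by_contra h
      exact hvR ((hmR v).mpr (Or.inl h))
    have h1 : K ⊆ (nb G v \ R) ∩ K := by
      intro x hx
      have hx' := (hmK x).mp hx
      refine Finset.mem_inter.mpr ⟨Finset.mem_sdiff.mpr ⟨mem_nb.mpr ?_, ?_⟩, hx⟩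
      · exact hQ v hvQ x hx'.2.2 (fun h => hvK (h ▸ hx))
      · exact fun h => Finset.disjoint_left.mp hRK h hx
    have h2 := Finset.card_le_card h1
    have h3 : ((nb G v ∩ R).image c).card ≤ (nb G v ∩ R).card := Finset.card_image_le
    have h4 := Finset.card_sdiff_add_card_inter (nb G v) R
    have h5 := Finset.card_sdiff_add_card_inter (nb G v \ R) K
    have h6 := hdeg v
    omega
  · intro u hu
    have hu' := (hmK u).mp hu
    have hua1 : u ≠ a₁ := by
      rintro rfl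
      exact hn₁ hu'.1
    have hua2 : u ≠ a₂ := by
      rintro rfl
      exact hn₂ hu'.2.1
    have m1 : a₁ ∈ nb G u ∩ R := Finset.mem_inter.mpr
      ⟨mem_nb.mpr (hQ u hu'.2.2 a₁ ha₁ hua1), (hmR _).mpr (Or.inr (Or.inl rfl))⟩
    have m2 : a₂ ∈ nb G u ∩ R := Finset.mem_inter.mpr
      ⟨mem_nb.mpr (hQ u hu'.2.2 a₂ ha₂ hua2), (hmR _).mpr (Or.inr (Or.inr rfl))⟩
    have m3 : y₁ ∈ nb G u ∩ R := Finset.mem_inter.mpr
      ⟨mem_nb.mpr hu'.1.symm, (hmR _).mpr (Or.inl hy₁)⟩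
    have m4 : y₂ ∈ nb G u ∩ R := Finset.mem_inter.mpr
      ⟨mem_nb.mpr hu'.2.1.symm, (hmR _).mpr (Or.inl hy₂)⟩
    have h1 := a0_im2 c (nb G u ∩ R) a₁ a₂ ha m1 m2
      ⟨y₁, m3, (hy1Q a₁ ha₁).symm, (hy1Q a₂ ha₂).symm, by rw [ca1, cout _ hy₁]⟩
      ⟨y₂, m4, (hy2Q a₁ ha₁).symm, (hy2Q a₂ ha₂).symm, by rw [ca2, cout _ hy₂]⟩
    have h4 := Finset.card_sdiff_add_card_inter (nb G u) R
    have h6 := hdeg u
    omega

end Pool.Agent.N515.BK
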