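import Pool.Agent.N515.BK.Stm

set_option autoImplicit false

/-! # Structure of a minimal counterexample -/

namespace Pool.Agent.N515.BK

open Finset Classical

section
variable {V : Type} [Fintype V]

theorem str_inter {G : SimpleGraph V} {Q : Finset V} (hQ : Clq G Q) {u : V} (hu : u ∈ Q) :
    nb G u ∩ Q = Q.erase u := by
  ext z
  rw [mem_inter, mem_nb, mem_erase]
  constructor
  · rintro ⟨h1, h2⟩
    exact ⟨(G.ne_of_adj h1).symm, h2⟩
  · rintro ⟨h1, h2⟩
    exact ⟨hQ u hu z h2 (Ne.symm h1), h2⟩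

theorem str_out {G : SimpleGraph V} {Q : Finset V} (hQ : Clq G Q) {u : V} (hu : u ∈ Q) :
    (nb G u \ Q).card + Q.card = (nb G u).card + 1 := by
  have h1 := Finset.card_sdiff_add_card_inter (nb G u) Q
  rw [str_inter hQ hu, Finset.card_erase_of_mem hu] at h1
  have h2 : 0 < Q.card := Finset.card_pos.mpr ⟨u, hu⟩
  omega

theorem str_not_self (G : SimpleGraph V) (v : V) : v ∉ nb G v := by
  rw [mem_nb]
  exact fun h => G.ne_of_adj h rfl

/-- the start: a large clique near `v` -/
theorem str_start (hA0 : St_A0) {G : SimpleGraph V} {k m₀ : ℕ} (h100 : 100 ≤ k)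
    (hm : 10 * m₀ ≤ k)
    (hdeg : ∀ v, (nb G v).card ≤ k + 1) (hdeg' : ∀ v, k ≤ (nb G v).card) (hbad : ¬ Col G k)
    (hcol : ∀ T : Finset V, T.Nonempty → ∃ c : V → Fin k, PropOn G k c Tᶜ) (v : V)
    (hY : (Y G k v).card < m₀) :
    ∃ Q₀ : Finset V, Clq G Q₀ ∧ k + 1 ≤ Q₀.card + m₀ ∧ Q₀ ⊆ insert v (nb G v) := by
  set T : Finset V := insert v (nb G v \ Y G k v) with hT
  have hvn : v ∉ nb G v \ Y G k v := fun h => str_not_self G v (mem_sdiff.mp h).1
  have hYs : Y G k v ⊆ nb G v := Finset.filter_subset _ _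
  have hTc : T.card + (Y G k v).card = (nb G v).card + 1 := by
    rw [hT, card_insert_of_notMem hvn]
    have := Finset.card_sdiff_add_card_eq_card hYs
    omega
  have hTc' : k + 2 ≤ T.card + m₀ := by
    have := hdeg' v
    omega
  obtain ⟨w, hw⟩ := hA0 V G k h100 hdeg hbad hcol T (by omega) (by
    intro x hx
    rw [hT, mem_insert] at hx
    rcases hx with rfl | hx
    · have h1 : T \ nb G x ⊆ {x} := by
        intro z hz
        rw [mem_sdiff, hT, mem_insert] at hz
        rw [mem_singleton]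
        rcases hz.1 with h | h
        · exact h
        · exact absurd (mem_sdiff.mp h).1 hz.2
      have h2 := Finset.card_le_card h1
      rw [card_singleton] at h2
      omega
    · have hxv : G.Adj v x := mem_nb.mp (mem_sdiff.mp hx).1
      have hxY : x ∉ Y G k v := (mem_sdiff.mp hx).2
      have hB : 10 * (Bn G v x).card < k := by
        by_contra hno
        push Not at hno
        apply hxY
        unfold Y
        rw [mem_filter]
        exact ⟨(mem_sdiff.mp hx).1, hno⟩
      have h1 : T \ nb G x ⊆ insert x (Bn G v x) := by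
        intro z hz
        rw [mem_sdiff, hT, mem_insert] at hz
        rw [mem_insert]
        rcases hz.1 with h | h
        · exfalso
          apply hz.2
          rw [h, mem_nb]
          exact hxv.symm
        · by_cases hzx : z = x
          · exact Or.inl hzx
          · right
            unfold Bn
            rw [mem_erase, mem_sdiff]
            exact ⟨hzx, (mem_sdiff.mp h).1, hz.2⟩
      have h2 := (Finset.card_le_card h1).trans (Finset.card_insert_le _ _)
      omega)
  refine ⟨T.erase w, hw, ?_, ?_⟩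
  · have := Finset.pred_card_le_card_erase (s := T) (a := w)
    omega
  · exact (Finset.erase_subset _ _).trans (insert_subset_insert _ sdiff_subset)

/-- the choice of the largest clique with many neighbours of `v` -/
theorem str_max {G : SimpleGraph V} {k m₀ : ℕ} (hk : 4 * m₀ + 20 ≤ k)
    (hdeg : ∀ v, (nb G v).card ≤ k + 1)
    (v : V) (Q₀ : Finset V) (hQ₀ : Clq G Q₀) (hc₀ : k + 1 ≤ Q₀.card + m₀)
    (hs₀ : Q₀ ⊆ insert v (nb G v)) :
    ∃ Q : Finset V, Clq G Q ∧ k + 1 ≤ Q.card + m₀ ∧ k ≤ (Q ∩ nb G v).card + 2 * m₀ + 1 ∧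
      ∀ Q' : Finset V, Clq G Q' → k ≤ 2 * (Q' ∩ nb G v).card → Q'.card ≤ Q.card := by
  have h0 : Q₀.card ≤ (Q₀ ∩ nb G v).card + 1 := by
    have h1 : Q₀ ⊆ insert v (Q₀ ∩ nb G v) := by
      intro z hz
      have := hs₀ hz
      rw [mem_insert] at this ⊢
      rcases this with h | h
      · exact Or.inl h
      · exact Or.inr (mem_inter.mpr ⟨hz, h⟩)
    exact (Finset.card_le_card h1).trans (Finset.card_insert_le _ _)
  obtain ⟨Q, hQ, hmax⟩ := Finset.exists_max_image
    ((univ : Finset (Finset V)).filter (fun Q => Clq G Q ∧ k ≤ 2 * (Q ∩ nb G v).card))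
    Finset.card ⟨Q₀, by
      rw [mem_filter]
      exact ⟨mem_univ _, hQ₀, by omega⟩⟩
  rw [mem_filter] at hQ
  obtain ⟨-, hQc, hQk⟩ := hQ
  have hmax' : ∀ Q' : Finset V, Clq G Q' → k ≤ 2 * (Q' ∩ nb G v).card → Q'.card ≤ Q.card := by
    intro Q' h1 h2
    exact hmax Q' (by rw [mem_filter]; exact ⟨mem_univ _, h1, h2⟩)
  have hge : Q₀.card ≤ Q.card := hmax' Q₀ hQ₀ (by omega)
  refine ⟨Q, hQc, by omega, ?_, hmax'⟩
  -- a common vertex
  have hx : ∃ x, x ∈ Q ∧ x ∈ Q₀ := by
    by_contra hno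
    push Not at hno
    have hd : Disjoint (Q ∩ nb G v) (Q₀ ∩ nb G v) := by
      rw [Finset.disjoint_left]
      intro z hz hz'
      exact hno z (mem_inter.mp hz).1 (mem_inter.mp hz').1
    have h1 : ((Q ∩ nb G v) ∪ (Q₀ ∩ nb G v)).card ≤ (nb G v).card :=
      Finset.card_le_card (union_subset inter_subset_right inter_subset_right)
    rw [card_union_of_disjoint hd] at h1
    have := hdeg v
    omega
  obtain ⟨x, hxQ, hxQ₀⟩ := hx
  have hun : Q ∪ Q₀ ⊆ insert x (nb G x) := by
    intro z hz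
    rw [mem_insert, mem_nb]
    by_cases hzx : z = x
    · exact Or.inl hzx
    · right
      rw [mem_union] at hz
      rcases hz with h | h
      · exact hQc x hxQ z h (Ne.symm hzx)
      · exact hQ₀ x hxQ₀ z h (Ne.symm hzx)
  have h1 : (Q ∪ Q₀).card ≤ k + 2 :=
    ((Finset.card_le_card hun).trans (Finset.card_insert_le _ _)).trans
      (Nat.add_le_add_right (hdeg x) 1)
  have h2 := Finset.card_union_add_card_inter Q Q₀
  have h3 : (Q ∩ Q₀).card ≤ (Q ∩ nb G v).card + 1 := by
    have h4 : Q ∩ Q₀ ⊆ insert v (Q ∩ nb G v) := by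
      intro z hz
      rw [mem_inter] at hz
      have := hs₀ hz.2
      rw [mem_insert] at this ⊢
      rcases this with h | h
      · exact Or.inl h
      · exact Or.inr (mem_inter.mpr ⟨hz.1, h⟩)
    exact (Finset.card_le_card h4).trans (Finset.card_insert_le _ _)
  omega

/-- two outside vertices with many neighbours in `Q` have at most one common neighbour in `Q` -/
theorem str_two (hA0 : St_A0) (hS2 : St_S2) {G : SimpleGraph V} {k m₀ τ : ℕ}
    (hMB : MinBad V G k) (h100 : 100 ≤ k) (hm : 10 * m₀ ≤ k) (hτ : m₀ + 6 ≤ τ)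
    (hk : 4 * m₀ + 20 ≤ k)
    (hcol : ∀ T : Finset V, T.Nonempty → ∃ c : V → Fin k, PropOn G k c Tᶜ) (v : V)
    (Q : Finset V) (hQ : Clq G Q) (hQc : k + 1 ≤ Q.card + m₀)
    (hQv : k ≤ (Q ∩ nb G v).card + 2 * m₀ + 1)
    (hmax : ∀ Q' : Finset V, Clq G Q' → k ≤ 2 * (Q' ∩ nb G v).card → Q'.card ≤ Q.card)
    (y₁ y₂ : V) (hy₁ : y₁ ∉ Q) (hy₂ : y₂ ∉ Q) (hne : y₁ ≠ y₂) (h₁ : τ ≤ (nb G y₁ ∩ Q).card)
    (h₂ : τ ≤ (nb G y₂ ∩ Q).card) : (nb G y₁ ∩ nb G y₂ ∩ Q).card ≤ 1 := by
  by_contra hno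
  push Not at hno
  have hlt : Q.card < k := hMB.good.2 Q hQ
  -- every outside vertex has a non-neighbour in `Q`
  have hnon : ∀ y, y ∉ Q → ∃ a ∈ Q, ¬ G.Adj y a := by
    intro y hy
    by_contra hall
    push Not at hall
    have hcl : Clq G (insert y Q) := by
      intro a ha b hb hab
      rw [mem_insert] at ha hb
      rcases ha with rfl | ha
      · rcases hb with rfl | hb
        · exact absurd rfl hab
        · exact hall b hb
      · rcases hb with rfl | hb
        · exact (hall a ha).symm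
        · exact hQ a ha b hb hab
    have h3 : (Q ∩ nb G v).card ≤ (insert y Q ∩ nb G v).card :=
      Finset.card_le_card (inter_subset_inter_right (subset_insert _ _))
    have h4 := hmax (insert y Q) hcl (by omega)
    rw [card_insert_of_notMem hy] at h4
    omega
  obtain ⟨a, haQ, hay₁⟩ := hnon y₁ hy₁
  by_cases hex : ∃ a₁ ∈ Q, ∃ a₂ ∈ Q, a₁ ≠ a₂ ∧ ¬ G.Adj y₁ a₁ ∧ ¬ G.Adj y₂ a₂
  · obtain ⟨a₁, ha₁, a₂, ha₂, h12, hn1, hn2⟩ := hex
    exact hS2 V G k hMB Q (k - Q.card) y₁ y₂ a₁ a₂ hQ (by omega) hy₁ hy₂ hne (by omega)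
      (by omega) hno ha₁ ha₂ h12 hn1 hn2
  · push Not at hex
    obtain ⟨a', ha'Q, ha'y₂⟩ := hnon y₂ hy₂
    have haa : a' = a := by
      by_contra h
      exact ha'y₂ (hex a haQ a' ha'Q (Ne.symm h) hay₁)
    subst haa
    -- all other elements of `Q` are adjacent to both
    have hall₁ : ∀ b ∈ Q, b ≠ a' → G.Adj y₁ b := by
      intro b hb hba
      by_contra hn
      exact ha'y₂ (hex b hb a' ha'Q hba hn)
    have hall₂ : ∀ b ∈ Q, b ≠ a' → G.Adj y₂ b := by
      intro b hb hba
      exact hex a' haQ b hb (Ne.symm hba) hay₁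
    set T : Finset V := insert y₁ (insert y₂ Q) with hT
    have hy₁' : y₁ ∉ insert y₂ Q := by
      rw [mem_insert]
      push Not
      exact ⟨hne, hy₁⟩
    have hTc : T.card = Q.card + 2 := by
      rw [hT, card_insert_of_notMem hy₁', card_insert_of_notMem hy₂]
    obtain ⟨w, hw⟩ := hA0 V G k h100 hMB.good.1 hMB.bad hcol T (by omega) (by
      intro x hx
      have hsub : ∃ b : V, T \ nb G x ⊆ {y₁, y₂, b} := by
        rw [hT, mem_insert, mem_insert] at hx
        rcases hx with rfl | rfl | hx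
        · refine ⟨a', ?_⟩
          intro z hz
          rw [mem_sdiff, hT, mem_insert, mem_insert, mem_nb] at hz
          rw [mem_insert, mem_insert, mem_singleton]
          rcases hz.1 with h | h | h
          · exact Or.inl h
          · exact Or.inr (Or.inl h)
          · right; right
            by_contra hza
            exact hz.2 (hall₁ z h hza)
        · refine ⟨a', ?_⟩
          intro z hz
          rw [mem_sdiff, hT, mem_insert, mem_insert, mem_nb] at hz
          rw [mem_insert, mem_insert, mem_singleton]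
          rcases hz.1 with h | h | h
          · exact Or.inl h
          · exact Or.inr (Or.inl h)
          · right; right
            by_contra hza
            exact hz.2 (hall₂ z h hza)
        · refine ⟨x, ?_⟩
          intro z hz
          rw [mem_sdiff, hT, mem_insert, mem_insert, mem_nb] at hz
          rw [mem_insert, mem_insert, mem_singleton]
          rcases hz.1 with h | h | h
          · exact Or.inl h
          · exact Or.inr (Or.inl h)
          · right; right
            by_contra hzx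
            exact hz.2 (hQ x hx z h (Ne.symm hzx))
      obtain ⟨b, hb⟩ := hsub
      have h5 := (Finset.card_le_card hb).trans Finset.card_le_three
      omega)
    have hTa : a' ∈ T := by
      rw [hT, mem_insert, mem_insert]
      exact Or.inr (Or.inr haQ)
    have hT1 : y₁ ∈ T := mem_insert_self _ _
    have hT2 : y₂ ∈ T := by
      rw [hT, mem_insert, mem_insert]
      exact Or.inr (Or.inl rfl)
    have hwa : w = a' := by
      by_contra hwa
      by_cases hw1 : w = y₁
      · have hw2 : w ≠ y₂ := fun h => hne (hw1.symm.trans h)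
        exact ha'y₂ (hw y₂ (mem_erase.mpr ⟨Ne.symm hw2, hT2⟩) a'
          (mem_erase.mpr ⟨Ne.symm hwa, hTa⟩) (fun h => hy₂ (h ▸ haQ)))
      · exact hay₁ (hw y₁ (mem_erase.mpr ⟨Ne.symm hw1, hT1⟩) a'
          (mem_erase.mpr ⟨Ne.symm hwa, hTa⟩) (fun h => hy₁ (h ▸ haQ)))
    subst hwa
    have h6 : (Q ∩ nb G v).card ≤ (T.erase w ∩ nb G v).card + 1 := by
      have h7 : Q ∩ nb G v ⊆ insert w (T.erase w ∩ nb G v) := by
        intro z hz
        rw [mem_inter] at hz
        rw [mem_insert, mem_inter, mem_erase]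
        by_cases hzw : z = w
        · exact Or.inl hzw
        · right
          refine ⟨⟨hzw, ?_⟩, hz.2⟩
          rw [hT, mem_insert, mem_insert]
          exact Or.inr (Or.inr hz.1)
      exact (Finset.card_le_card h7).trans (Finset.card_insert_le _ _)
    have h8 := hmax (T.erase w) hw (by omega)
    rw [card_erase_of_mem hTa, hTc] at h8
    omega

/-- few vertices outside `Q` have many neighbours in `Q` -/
theorem str_few {G : SimpleGraph V} {k m₀ τ r : ℕ} (hτ : 0 < τ)
    (hdeg : ∀ v, (nb G v).card ≤ k + 1)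
    (hr : k * (m₀ + 2) ≤ r * τ) (Q : Finset V) (hQ : Clq G Q) (hQc : k + 1 ≤ Q.card + m₀)
    (hlt : Q.card < k) (B : Finset V) (hB : ∀ y ∈ B, y ∉ Q ∧ τ ≤ (nb G y ∩ Q).card) :
    B.card ≤ r := by
  have h1 : B.card * τ ≤ ∑ y ∈ B, (nb G y ∩ Q).card := by
    rw [← smul_eq_mul]
    exact Finset.card_nsmul_le_sum _ _ _ (fun y hy => (hB y hy).2)
  have h2 : ∑ y ∈ B, (nb G y ∩ Q).card = ∑ u ∈ Q, (nb G u ∩ B).card := by
    have e1 : ∀ y : V, (nb G y ∩ Q).card = ∑ u ∈ Q, if G.Adj y u then 1 else 0 := by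
      intro y
      rw [Finset.card_eq_sum_ones, ← Finset.sum_filter]
      congr 1
      ext z
      rw [mem_inter, mem_filter, mem_nb]
      tauto
    have e2 : ∀ u : V, (nb G u ∩ B).card = ∑ y ∈ B, if G.Adj y u then 1 else 0 := by
      intro u
      rw [Finset.card_eq_sum_ones, ← Finset.sum_filter]
      congr 1
      ext z
      rw [mem_inter, mem_filter, mem_nb, SimpleGraph.adj_comm]
      tauto
    simp only [e1, e2]
    exact Finset.sum_comm
  have h3 : ∑ u ∈ Q, (nb G u ∩ B).card ≤ Q.card * (m₀ + 1) := by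
    rw [← smul_eq_mul]
    refine Finset.sum_le_card_nsmul _ _ _ (fun u hu => ?_)
    have h4 : nb G u ∩ B ⊆ nb G u \ Q := by
      intro z hz
      rw [mem_inter] at hz
      rw [mem_sdiff]
      exact ⟨hz.1, (hB z hz.2).1⟩
    have h5 := Finset.card_le_card h4
    have h6 := str_out hQ hu
    have := hdeg u
    omega
  have h7 : Q.card * (m₀ + 1) ≤ k * (m₀ + 2) := Nat.mul_le_mul (by omega) (by omega)
  have h8 : B.card * τ ≤ r * τ := by
    rw [h2] at h1
    exact h1.trans (h3.trans (h7.trans hr))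
  exact Nat.le_of_mul_le_mul_right h8 hτ

/-- few vertices of `Q` have two neighbours in `B` -/
theorem str_ex {G : SimpleGraph V} {r : ℕ} (Q B : Finset V) (hB : B.card ≤ r)
    (h2 : ∀ y₁ ∈ B, ∀ y₂ ∈ B, y₁ ≠ y₂ → (nb G y₁ ∩ nb G y₂ ∩ Q).card ≤ 1) :
    (Q.filter (fun u => 1 < (nb G u ∩ B).card)).card ≤ r * r := by
  have hch : ∀ u : V, ∃ p : V × V, 1 < (nb G u ∩ B).card →
      p.1 ∈ nb G u ∩ B ∧ p.2 ∈ nb G u ∩ B ∧ p.1 ≠ p.2 := by
    intro u
    by_cases hu : 1 < (nb G u ∩ B).card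
    · obtain ⟨a, ha, b, hb, hab⟩ := Finset.one_lt_card.mp hu
      exact ⟨(a, b), fun _ => ⟨ha, hb, hab⟩⟩
    · exact ⟨(u, u), fun h => absurd h hu⟩
  choose f hf using hch
  have h3 : (Q.filter (fun u => 1 < (nb G u ∩ B).card)).card ≤ (B ×ˢ B).card := by
    refine Finset.card_le_card_of_injOn f ?_ ?_
    · intro u hu
      have hu' := (mem_filter.mp (Finset.mem_coe.mp hu)).2
      have := hf u hu'
      rw [Finset.mem_coe, Finset.mem_product]
      exact ⟨(mem_inter.mp this.1).2, (mem_inter.mp this.2.1).2⟩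
    · intro u hu w hw huw
      rw [Finset.mem_coe, mem_filter] at hu hw
      by_contra hne
      have h4 := hf u hu.2
      have h5 := hf w hw.2
      rw [← huw] at h5
      simp only [mem_inter, mem_nb] at h4 h5
      have h6 := h2 (f u).1 h4.1.2 (f u).2 h4.2.1.2 h4.2.2
      have h7 : 1 < (nb G (f u).1 ∩ nb G (f u).2 ∩ Q).card := by
        rw [Finset.one_lt_card]
        refine ⟨u, ?_, w, ?_, hne⟩
        · simp only [mem_inter, mem_nb]
          exact ⟨⟨h4.1.1.symm, h4.2.1.1.symm⟩, hu.1⟩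
        · simp only [mem_inter, mem_nb]
          exact ⟨⟨h5.1.1.symm, h5.2.1.1.symm⟩, hw.1⟩
      omega
  refine h3.trans ?_
  rw [Finset.card_product]
  exact Nat.mul_le_mul hB hB

/-- the greedy choice -/
theorem str_greedy {G : SimpleGraph V} {M τ : ℕ} (Q C : Finset V) (hCQ : C ⊆ Q)
    (hC : M * (2 * τ + 1) < C.card) (f g : V → V)
    (hf : ∀ u ∈ C, G.Adj u (f u) ∧ f u ∉ Q ∧ (nb G (f u) ∩ Q).card < τ)
    (hg : ∀ u ∈ C, G.Adj u (g u) ∧ g u ∉ Q ∧ (nb G (g u) ∩ Q).card < τ) :
    ∀ n ≤ M, ∃ S ⊆ C, S.card = n ∧ ∀ u ∈ S, ∀ w ∈ S, u ≠ w →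
      Disjoint ({u, f u, g u} : Finset V) {w, f w, g w} := by
  intro n
  induction n with
  | zero =>
    intro _
    exact ⟨∅, empty_subset _, rfl, fun u hu => absurd hu (notMem_empty _)⟩
  | succ n ih =>
    intro hn
    obtain ⟨S, hSC, hSn, hS⟩ := ih (by omega)
    set E : Finset V := S.biUnion (fun u => insert u ((nb G (f u) ∩ Q) ∪ (nb G (g u) ∩ Q))) with hE
    have hEc : E.card ≤ n * (2 * τ + 1) := by
      rw [← hSn]
      refine Finset.card_biUnion_le_card_mul _ _ _ (fun u hu => ?_)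
      have h1 := hf u (hSC hu)
      have h2 := hg u (hSC hu)
      have h3 := Finset.card_insert_le u ((nb G (f u) ∩ Q) ∪ (nb G (g u) ∩ Q))
      have h4 := Finset.card_union_le (nb G (f u) ∩ Q) (nb G (g u) ∩ Q)
      omega
    have hlt : E.card < C.card := by
      have : n * (2 * τ + 1) ≤ M * (2 * τ + 1) := Nat.mul_le_mul_right _ (by omega)
      omega
    obtain ⟨x, hxC, hxE⟩ := Finset.exists_mem_notMem_of_card_lt_card hlt
    have hx : ∀ u ∈ S, x ≠ u ∧ ¬ G.Adj (f u) x ∧ ¬ G.Adj (g u) x := by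
      intro u hu
      refine ⟨?_, ?_, ?_⟩
      · intro h
        apply hxE
        rw [hE, mem_biUnion]
        exact ⟨u, hu, by rw [mem_insert]; exact Or.inl h⟩
      · intro h
        apply hxE
        rw [hE, mem_biUnion]
        exact ⟨u, hu, by
          rw [mem_insert, mem_union, mem_inter, mem_nb]
          exact Or.inr (Or.inl ⟨h, hCQ hxC⟩)⟩
      · intro h
        apply hxE
        rw [hE, mem_biUnion]
        exact ⟨u, hu, by
          rw [mem_insert, mem_union, mem_inter, mem_inter, mem_nb, mem_nb]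
          exact Or.inr (Or.inr ⟨h, hCQ hxC⟩)⟩
    have hxS : x ∉ S := fun h => (hx x h).1 rfl
    have hkey : ∀ u ∈ S, Disjoint ({x, f x, g x} : Finset V) {u, f u, g u} := by
      intro u hu
      have huC := hSC hu
      obtain ⟨a1, a2, a3⟩ := hx u hu
      obtain ⟨b1, b2, b3⟩ := hf u huC
      obtain ⟨c1, c2, c3⟩ := hg u huC
      obtain ⟨d1, d2, d3⟩ := hf x hxC
      obtain ⟨e1, e2, e3⟩ := hg x hxC
      have huQ := hCQ huC
      have hxQ := hCQ hxC
      rw [Finset.disjoint_left]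
      intro z hz hz'
      rw [mem_insert, mem_insert, mem_singleton] at hz hz'
      rcases hz with rfl | rfl | rfl
      · rcases hz' with h | h | h
        · exact a1 h
        · exact b2 (h ▸ hxQ)
        · exact c2 (h ▸ hxQ)
      · rcases hz' with h | h | h
        · exact d2 (h ▸ huQ)
        · exact a2 (h ▸ d1.symm)
        · exact a3 (h ▸ d1.symm)
      · rcases hz' with h | h | h
        · exact e2 (h ▸ huQ)
        · exact a2 (h ▸ e1.symm)
        · exact a3 (h ▸ e1.symm)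
    refine ⟨insert x S, insert_subset hxC hSC, by rw [card_insert_of_notMem hxS, hSn], ?_⟩
    intro u hu w hw huw
    rw [mem_insert] at hu hw
    rcases hu with rfl | hu
    · rcases hw with rfl | hw
      · exact absurd rfl huw
      · exact hkey w hw
    · rcases hw with rfl | hw
      · exact (hkey u hu).symm
      · exact hS u hu w hw huw

end

theorem t_STR (hUSE : St_USE) (hDEG : St_DEG) (hA0 : St_A0) (hS2 : St_S2) : St_STR := by
  intro V _ G k m₀ M τ r hMB h100 hm hm1 hτ hτk hr hsum hk v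
  by_cases hY : m₀ ≤ (Y G k v).card
  · exact Or.inl hY
  right
  have hdeg := hMB.good.1
  have hdeg' := hDEG V G k hMB
  have hcol : ∀ T : Finset V, T.Nonempty → ∃ c : V → Fin k, PropOn G k c Tᶜ := by
    intro T hT
    refine hUSE V G k hMB G T hT ?_ ?_
    · intro x _
      exact (Finset.card_le_card sdiff_subset).trans (hdeg x)
    · intro Q _ hQ
      exact hMB.good.2 Q hQ
  obtain ⟨Q₀, hQ₀, hc₀, hs₀⟩ := str_start hA0 h100 hm hdeg hdeg' hMB.bad hcol v (by omega)
  obtain ⟨Q, hQ, hQc, hQv, hmax⟩ := str_max hk hdeg v Q₀ hQ₀ hc₀ hs₀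
  have hlt : Q.card < k := hMB.good.2 Q hQ
  set B : Finset V := univ.filter (fun y => y ∉ Q ∧ τ ≤ (nb G y ∩ Q).card) with hB
  have hB' : ∀ y ∈ B, y ∉ Q ∧ τ ≤ (nb G y ∩ Q).card := by
    intro y hy
    rw [hB, mem_filter] at hy
    exact hy.2
  have hBr : B.card ≤ r := str_few (by omega) hdeg hr Q hQ hQc hlt B hB'
  have hpair : ∀ y₁ ∈ B, ∀ y₂ ∈ B, y₁ ≠ y₂ → (nb G y₁ ∩ nb G y₂ ∩ Q).card ≤ 1 := by
    intro y₁ h1 y₂ h2 hne
    exact str_two hA0 hS2 hMB h100 hm hτ hk hcol v Q hQ hQc hQv hmax y₁ y₂ (hB' y₁ h1).1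
      (hB' y₂ h2).1 hne (hB' y₁ h1).2 (hB' y₂ h2).2
  have hEx := str_ex Q B hBr hpair
  set Ex : Finset V := Q.filter (fun u => 1 < (nb G u ∩ B).card) with hExd
  set C : Finset V := (Q ∩ nb G v) \ Ex with hCd
  have hCQ : C ⊆ Q := sdiff_subset.trans inter_subset_left
  have hCc : M * (2 * τ + 1) < C.card := by
    have h1 : (Q ∩ nb G v).card ≤ C.card + Ex.card := by
      have := Finset.le_card_sdiff Ex (Q ∩ nb G v)
      rw [hCd]
      omega
    omega
  -- the candidates
  have hch : ∀ u : V, ∃ p : V × V, u ∈ C →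
      (p.1 ∈ (nb G u \ Q) \ B ∧ p.2 ∈ (nb G u \ Q) \ B ∧ ((nb G u).card = k ∨ p.1 ≠ p.2)) := by
    intro u
    by_cases hu : u ∈ C
    · have huQ := hCQ hu
      have hB1 : (nb G u ∩ B).card ≤ 1 := by
        have h1 := (mem_sdiff.mp hu).2
        rw [hExd, mem_filter] at h1
        by_contra h2
        push Not at h2
        exact h1 ⟨huQ, h2⟩
      have h3 := str_out hQ huQ
      have h4 : (nb G u \ Q).card ≤ ((nb G u \ Q) \ B).card + 1 := by
        have h5 := Finset.card_sdiff_add_card_inter (nb G u \ Q) B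
        have h6 : (nb G u \ Q) ∩ B ⊆ nb G u ∩ B := inter_subset_inter_right sdiff_subset
        have h7 := Finset.card_le_card h6
        omega
      have h8 := hdeg u
      have h9 := hdeg' u
      by_cases hd : (nb G u).card = k
      · have h10 : 0 < ((nb G u \ Q) \ B).card := by omega
        obtain ⟨y, hy⟩ := Finset.card_pos.mp h10
        exact ⟨(y, y), fun _ => ⟨hy, hy, Or.inl hd⟩⟩
      · have h10 : 1 < ((nb G u \ Q) \ B).card := by omega
        obtain ⟨y, hy, y', hy', hne⟩ := Finset.one_lt_card.mp h10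
        exact ⟨(y, y'), fun _ => ⟨hy, hy', Or.inr hne⟩⟩
    · exact ⟨(u, u), fun h => absurd h hu⟩
  choose p hp using hch
  have hprop : ∀ u ∈ C, ∀ y ∈ (nb G u \ Q) \ B,
      (G.Adj u y ∧ y ∉ Q ∧ (nb G y ∩ Q).card < τ) ∧ y ∈ Y G k u := by
    intro u hu y hy
    rw [mem_sdiff, mem_sdiff] at hy
    obtain ⟨⟨hyu, hyQ⟩, hyB⟩ := hy
    have hyt : (nb G y ∩ Q).card < τ := by
      by_contra h
      push Not at h
      apply hyB
      rw [hB, mem_filter]
      exact ⟨mem_univ _, hyQ, h⟩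
    refine ⟨⟨mem_nb.mp hyu, hyQ, hyt⟩, ?_⟩
    unfold Y
    rw [mem_filter]
    refine ⟨hyu, ?_⟩
    have huQ := hCQ hu
    have h1 : (Q.erase u) \ (nb G y ∩ Q) ⊆ Bn G u y := by
      intro z hz
      rw [mem_sdiff, mem_erase, mem_inter] at hz
      obtain ⟨⟨hzu, hzQ⟩, hzn⟩ := hz
      unfold Bn
      rw [mem_erase, mem_sdiff]
      refine ⟨fun h => hyQ (h ▸ hzQ), ?_, fun h => hzn ⟨h, hzQ⟩⟩
      rw [mem_nb]
      exact hQ u huQ z hzQ (Ne.symm hzu)
    have h2 := Finset.card_le_card h1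
    have h3 := Finset.le_card_sdiff (nb G y ∩ Q) (Q.erase u)
    rw [card_erase_of_mem huQ] at h3
    omega
  obtain ⟨S, hSC, hSM, hS⟩ := str_greedy (G := G) Q C hCQ hCc (fun u => (p u).1)
    (fun u => (p u).2) (fun u hu => (hprop u hu _ (hp u hu).1).1)
    (fun u hu => (hprop u hu _ (hp u hu).2.1).1) M le_rfl
  let e : S ≃ Fin M := S.equivFinOfCardEq hSM
  refine ⟨fun i => (e.symm i : V), fun i => (p (e.symm i : V)).1, fun i => (p (e.symm i : V)).2,
    ?_, ?_⟩
  · intro i
    have hu : (e.symm i : V) ∈ C := hSC (e.symm i).2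
    refine ⟨?_, (hprop _ hu _ (hp _ hu).1).2, (hprop _ hu _ (hp _ hu).2.1).2, (hp _ hu).2.2⟩
    exact (mem_inter.mp (mem_sdiff.mp hu).1).2
  · intro i j hij
    refine hS _ (e.symm i).2 _ (e.symm j).2 ?_
    intro h
    exact hij (e.symm.injective (Subtype.ext h))

end Pool.Agent.N515.BK
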