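import Mathlib
import Pool.Agent.N515.BK.Stm

set_option autoImplicit false

namespace Pool.Agent.N515.BK

open Finset Classical
open Pool.Agent.Helper805.CHS.LLL (cnt ev mem_ev)

/-- functions with prescribed values on a set -/
theorem tr_card {V : Type} [Fintype V] {L : ℕ} (S : Finset V) (f : V → Fin L) :
    (univ.filter (fun φ : V → Fin L => ∀ s ∈ S, φ s = f s)).card * L ^ S.card =
      Fintype.card (V → Fin L) := by
  have h : univ.filter (fun φ : V → Fin L => ∀ s ∈ S, φ s = f s) =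
      Fintype.piFinset (fun x => if x ∈ S then {f x} else univ) := by
    ext φ
    simp only [mem_filter, mem_univ, true_and, Fintype.mem_piFinset]
    constructor
    · intro h x
      split_ifs with hx
      · simpa using h x hx
      · exact mem_univ _
    · intro h s hs
      have := h s
      rw [if_pos hs] at this
      simpa using this
  rw [h, Fintype.card_piFinset]
  have h2 : ∀ x : V, (if x ∈ S then ({f x} : Finset (Fin L)) else univ).card =
      if x ∈ S then 1 else L := by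
    intro x
    split_ifs <;> simp
  simp_rw [h2]
  rw [Finset.prod_ite, Finset.prod_const_one, one_mul, Finset.prod_const, ← pow_add]
  rw [Fintype.card_fun, Fintype.card_fin]
  congr 1
  have h3 : (univ.filter (fun x => x ∉ S)).card = Sᶜ.card := by
    congr 1
    ext x
    simp
  rw [h3, Finset.card_compl]
  have := Finset.card_le_univ S
  omega

/-- the number of colourings with `φ y = φ a = c` and no further vertex of `Z` of colour `c`,
and colours at least `κ` on `X` -/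
theorem tr_D {V : Type} [Fintype V] {L : ℕ} (κ m : ℕ) (y a : V) (hya : y ≠ a) (c : Fin L)
    (Z X : Finset V) (hZy : y ∉ Z) (hZa : a ∉ Z) (hXy : y ∉ X) (hXa : a ∉ X) (hZ : Z.card ≤ m)
    (hX : X.card ≤ 1) (hL : 2 * (m + κ) ≤ L) :
    (Fintype.card (V → Fin L) : ℝ) ≤ 2 * (L : ℝ) ^ 2 *
      ((univ.filter (fun φ : V → Fin L => φ y = c ∧ φ a = c ∧ (∀ z ∈ Z, φ z ≠ c) ∧
        ∀ x ∈ X, κ ≤ (φ x : ℕ))).card : ℝ) := by
  have hLpos : 0 < L := lt_of_le_of_lt (Nat.zero_le _) c.isLt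
  have hLr : (0 : ℝ) < L := by exact_mod_cast hLpos
  set D := univ.filter (fun φ : V → Fin L => φ y = c ∧ φ a = c ∧ (∀ z ∈ Z, φ z ≠ c) ∧
        ∀ x ∈ X, κ ≤ (φ x : ℕ)) with hD
  set A := univ.filter (fun φ : V → Fin L => φ y = c ∧ φ a = c) with hA
  let B : V → Fin L → Finset (V → Fin L) := fun z d =>
    univ.filter (fun φ : V → Fin L => φ y = c ∧ φ a = c ∧ φ z = d)
  have hAcard : (A.card : ℝ) * (L : ℝ) ^ 2 = Fintype.card (V → Fin L) := by
    have h := tr_card (L := L) ({y, a} : Finset V) (fun _ => c)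
    rw [Finset.card_pair hya] at h
    have h2 : univ.filter (fun φ : V → Fin L => ∀ s ∈ ({y, a} : Finset V), φ s = c) = A := by
      ext φ
      simp [hA]
    rw [h2] at h
    exact_mod_cast h
  have hBcard : ∀ z d, z ≠ y → z ≠ a → ((B z d).card : ℝ) * (L : ℝ) ^ 3 =
      Fintype.card (V → Fin L) := by
    intro z d hzy hza
    have h := tr_card (L := L) ({y, a, z} : Finset V) (fun x => if x = z then d else c)
    have h3 : ({y, a, z} : Finset V).card = 3 := by
      rw [Finset.card_eq_three]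
      exact ⟨y, a, z, hya, hzy.symm, hza.symm, rfl⟩
    rw [h3] at h
    have h2 : univ.filter (fun φ : V → Fin L => ∀ s ∈ ({y, a, z} : Finset V),
        φ s = if s = z then d else c) = B z d := by
      ext φ
      simp [B, hzy.symm, hza.symm]
    rw [h2] at h
    exact_mod_cast h
  have hsub : A ⊆ D ∪ (Z.biUnion (fun z => B z c)) ∪
      (X ×ˢ (univ.filter (fun d : Fin L => (d : ℕ) < κ))).biUnion (fun p => B p.1 p.2) := by
    intro φ hφ
    rw [hA, mem_filter] at hφ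
    obtain ⟨-, h1, h2⟩ := hφ
    simp only [mem_union, mem_biUnion, B, mem_filter, mem_univ, true_and, hD, mem_product,
      Prod.exists]
    by_cases hz : ∀ z ∈ Z, φ z ≠ c
    · by_cases hx : ∀ x ∈ X, κ ≤ (φ x : ℕ)
      · exact Or.inl (Or.inl ⟨h1, h2, hz, hx⟩)
      · push Not at hx
        obtain ⟨x, hx, hlt⟩ := hx
        exact Or.inr ⟨x, φ x, ⟨hx, hlt⟩, h1, h2, rfl⟩
    · push Not at hz
      obtain ⟨z, hz, he⟩ := hz
      exact Or.inl (Or.inr ⟨z, hz, h1, h2, he⟩)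
  have hcard : (A.card : ℝ) ≤ D.card + ∑ z ∈ Z, ((B z c).card : ℝ) +
      ∑ p ∈ X ×ˢ (univ.filter (fun d : Fin L => (d : ℕ) < κ)), ((B p.1 p.2).card : ℝ) := by
    have h1 := Finset.card_le_card hsub
    have h2 := Finset.card_union_le (D ∪ (Z.biUnion (fun z => B z c)))
      ((X ×ˢ (univ.filter (fun d : Fin L => (d : ℕ) < κ))).biUnion (fun p => B p.1 p.2))
    have h3 := Finset.card_union_le D (Z.biUnion (fun z => B z c))
    have h4 : (Z.biUnion (fun z => B z c)).card ≤ ∑ z ∈ Z, (B z c).card := Finset.card_biUnion_le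
    have h5 : ((X ×ˢ (univ.filter (fun d : Fin L => (d : ℕ) < κ))).biUnion
        (fun p => B p.1 p.2)).card ≤ ∑ p ∈ X ×ˢ (univ.filter (fun d : Fin L => (d : ℕ) < κ)),
          (B p.1 p.2).card := Finset.card_biUnion_le
    have h6 : A.card ≤ D.card + ∑ z ∈ Z, (B z c).card +
      ∑ p ∈ X ×ˢ (univ.filter (fun d : Fin L => (d : ℕ) < κ)), (B p.1 p.2).card := by omega
    exact_mod_cast h6
  have hN : (0 : ℝ) ≤ Fintype.card (V → Fin L) := by positivity
  set N : ℝ := ((Fintype.card (V → Fin L) : ℕ) : ℝ) with hNdef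
  have hL3 : (0 : ℝ) < (L : ℝ) ^ 3 := by positivity
  have hB' : ∀ z d, z ≠ y → z ≠ a → ((B z d).card : ℝ) = N / (L : ℝ) ^ 3 := by
    intro z d h1 h2
    rw [eq_div_iff hL3.ne']
    exact hBcard z d h1 h2
  have hs1 : ∑ z ∈ Z, ((B z c).card : ℝ) = Z.card * (N / (L : ℝ) ^ 3) := by
    rw [← nsmul_eq_mul, ← Finset.sum_const]
    refine Finset.sum_congr rfl ?_
    intro z hz
    exact hB' z c (fun h => hZy (h ▸ hz)) (fun h => hZa (h ▸ hz))
  have hκcard : (univ.filter (fun d : Fin L => (d : ℕ) < κ)).card ≤ κ := by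
    have : (univ.filter (fun d : Fin L => (d : ℕ) < κ)).card ≤ (Finset.range κ).card := by
      refine Finset.card_le_card_of_injOn (fun d => (d : ℕ)) ?_ ?_
      · intro d hd
        simp only [coe_filter, Set.mem_ofPred_eq, mem_univ, true_and] at hd
        simpa using hd
      · intro d _ e _ h
        exact Fin.ext h
    simpa using this
  have hs2 : ∑ p ∈ X ×ˢ (univ.filter (fun d : Fin L => (d : ℕ) < κ)), ((B p.1 p.2).card : ℝ) ≤
      κ * (N / (L : ℝ) ^ 3) := by
    have h1 : ∑ p ∈ X ×ˢ (univ.filter (fun d : Fin L => (d : ℕ) < κ)), ((B p.1 p.2).card : ℝ) =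
        (X ×ˢ (univ.filter (fun d : Fin L => (d : ℕ) < κ))).card * (N / (L : ℝ) ^ 3) := by
      rw [← nsmul_eq_mul, ← Finset.sum_const]
      refine Finset.sum_congr rfl ?_
      intro p hp
      rw [mem_product] at hp
      exact hB' p.1 p.2 (fun h => hXy (h ▸ hp.1)) (fun h => hXa (h ▸ hp.1))
    rw [h1]
    refine mul_le_mul_of_nonneg_right ?_ (by positivity)
    rw [Finset.card_product]
    have : X.card * (univ.filter (fun d : Fin L => (d : ℕ) < κ)).card ≤ 1 * κ :=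
      Nat.mul_le_mul hX hκcard
    rw [one_mul] at this
    exact_mod_cast this
  have hs1' : ∑ z ∈ Z, ((B z c).card : ℝ) ≤ m * (N / (L : ℝ) ^ 3) := by
    rw [hs1]
    refine mul_le_mul_of_nonneg_right ?_ (by positivity)
    exact_mod_cast hZ
  have hLr2 : (2 : ℝ) * (m + κ) ≤ L := by exact_mod_cast hL
  have hmain : (m + κ : ℝ) * (N / (L : ℝ) ^ 3) ≤ N / (2 * (L : ℝ) ^ 2) := by
    have h1 : (m + κ : ℝ) * (N / (L : ℝ) ^ 3) ≤ (L / 2 : ℝ) * (N / (L : ℝ) ^ 3) :=
      mul_le_mul_of_nonneg_right (by linarith) (by positivity)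
    refine h1.trans (le_of_eq ?_)
    field_simp
  have hA' : (A.card : ℝ) = N / (L : ℝ) ^ 2 := by
    rw [eq_div_iff (by positivity)]
    exact hAcard
  have hfin : N / (2 * (L : ℝ) ^ 2) ≤ (D.card : ℝ) := by
    have h1 : N / (L : ℝ) ^ 2 = N / (2 * (L : ℝ) ^ 2) + N / (2 * (L : ℝ) ^ 2) := by
      field_simp
      ring
    have h2 : (m + κ : ℝ) * (N / (L : ℝ) ^ 3) = m * (N / (L : ℝ) ^ 3) + κ * (N / (L : ℝ) ^ 3) := by
      ring
    linarith
  rw [div_le_iff₀ (by positivity)] at hfin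
  linarith

theorem t_TR : St_TR := by
  intro V _ G h κ L a₀ b β q hL1 hL hdeg u y X hX hyX hXB hyu hβy hb
  set Bq := (Bn G u y).filter (fun z => β z = q) with hBq
  let Z : V → Finset V := fun a =>
    ((nb G y ∪ nb G a ∪ Bn G u y).filter (fun z => β z = q)) \ {y, a}
  let D : Fin L → V → Finset (V → Fin L) := fun c a =>
    univ.filter (fun φ : V → Fin L => φ y = c ∧ φ a = c ∧ (∀ z ∈ Z a, φ z ≠ c) ∧
        ∀ x ∈ X, κ ≤ (φ x : ℕ))
  have hBn : ∀ a ∈ Bn G u y, a ≠ y ∧ G.Adj u a ∧ ¬ G.Adj y a := by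
    intro a ha
    simp only [Bn, mem_erase, mem_sdiff, mem_nb] at ha
    exact ⟨ha.1, ha.2.1, ha.2.2⟩
  have hZcard : ∀ a, (Z a).card ≤ 3 * a₀ := by
    intro a
    have h1 : (Z a).card ≤ ((nb G y ∪ nb G a ∪ Bn G u y).filter (fun z => β z = q)).card :=
      Finset.card_le_card Finset.sdiff_subset
    have h2 : ((nb G y ∪ nb G a ∪ Bn G u y).filter (fun z => β z = q)) ⊆
        (nb G y).filter (fun z => β z = q) ∪ (nb G a).filter (fun z => β z = q) ∪
          (nb G u).filter (fun z => β z = q) := by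
      intro z hz
      simp only [mem_filter, mem_union] at hz ⊢
      obtain ⟨(h1 | h1) | h1, h2⟩ := hz
      · exact Or.inl (Or.inl ⟨h1, h2⟩)
      · exact Or.inl (Or.inr ⟨h1, h2⟩)
      · exact Or.inr ⟨mem_nb.mpr (hBn z h1).2.1, h2⟩
    have h3 := Finset.card_le_card h2
    have h4 := Finset.card_union_le ((nb G y).filter (fun z => β z = q) ∪
      (nb G a).filter (fun z => β z = q)) ((nb G u).filter (fun z => β z = q))
    have h5 := Finset.card_union_le ((nb G y).filter (fun z => β z = q))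
      ((nb G a).filter (fun z => β z = q))
    have := hdeg y
    have := hdeg a
    have := hdeg u
    omega
  have hDcard : ∀ c, ∀ a ∈ Bq, (Fintype.card (V → Fin L) : ℝ) ≤
      2 * (L : ℝ) ^ 2 * ((D c a).card : ℝ) := by
    intro c a ha
    rw [hBq, mem_filter] at ha
    refine tr_D κ (3 * a₀) y a (hBn a ha.1).1.symm c (Z a) X ?_ ?_ hyX ?_ (hZcard a) hX hL
    · simp [Z]
    · simp [Z]
    · intro h
      exact (Finset.disjoint_left.mp hXB) h ha.1
  set K := (univ.filter (fun d : Fin L => (d : ℕ) < κ)) with hK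
  have hKcard : K.card = κ := by
    rw [hK, Fin.card_filter_val_lt]
    omega
  have hsub : ((K ×ˢ Bq).biUnion (fun p => D p.1 p.2)) ⊆
      ev (fun φ : V → Fin L => Sv G κ β φ u q ∧ ∀ x ∈ X, κ ≤ (φ x : ℕ)) := by
    intro φ hφ
    rw [mem_biUnion] at hφ
    obtain ⟨⟨c, a⟩, hp, hφ⟩ := hφ
    rw [mem_product] at hp
    obtain ⟨hc, ha⟩ := hp
    simp only at hc ha hφ
    rw [hBq, mem_filter] at ha
    rw [hK, mem_filter] at hc
    simp only [D, mem_filter, mem_univ, true_and] at hφ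
    obtain ⟨h1, h2, h3, h4⟩ := hφ
    obtain ⟨hay, hua, hnya⟩ := hBn a ha.1
    rw [mem_ev]
    refine ⟨⟨y, hyu, a, ha.1, by rw [hβy], by rw [ha.2], ?_, ?_, by rw [h1, h2]⟩, h4⟩
    · refine ⟨by rw [h1]; exact hc.2, ?_⟩
      intro z hz hβ
      rw [h1]
      apply h3
      simp only [Z, mem_sdiff, mem_filter, mem_union, mem_insert, mem_singleton, not_or]
      rw [mem_nb] at hz
      refine ⟨⟨Or.inl (Or.inl (mem_nb.mpr hz)), by rw [hβ, hβy]⟩, hz.ne', ?_⟩
      rintro rfl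
      exact hnya hz
    · refine ⟨by rw [h2]; exact hc.2, ?_⟩
      intro z hz hβ
      rw [h2]
      apply h3
      simp only [Z, mem_sdiff, mem_filter, mem_union, mem_insert, mem_singleton, not_or]
      rw [mem_nb] at hz
      refine ⟨⟨Or.inl (Or.inr (mem_nb.mpr hz)), by rw [hβ, ha.2]⟩, ?_, hz.ne'⟩
      rintro rfl
      exact hnya hz.symm
  have hdisj : ∀ p ∈ K ×ˢ Bq, ∀ p' ∈ K ×ˢ Bq, p ≠ p' →
      Disjoint (D p.1 p.2) (D p'.1 p'.2) := by
    rintro ⟨c, a⟩ hp ⟨c', a'⟩ hp' hne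
    rw [Finset.disjoint_left]
    intro φ hφ hφ'
    simp only [D, mem_filter, mem_univ, true_and] at hφ hφ'
    obtain ⟨h1, h2, h3, h4⟩ := hφ
    obtain ⟨h1', h2', h3', h4'⟩ := hφ'
    have hcc : c = c' := by rw [← h1, ← h1']
    subst hcc
    have haa : a ≠ a' := by
      rintro rfl
      exact hne rfl
    rw [mem_product] at hp hp'
    obtain ⟨-, ha'⟩ := hp'
    simp only at ha'
    rw [hBq, mem_filter] at ha'
    refine h3 a' ?_ h2'
    simp only [Z, mem_sdiff, mem_filter, mem_union, mem_insert, mem_singleton, not_or]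
    exact ⟨⟨Or.inr ha'.1, ha'.2⟩, (hBn a' ha'.1).1, haa.symm⟩
  have hcnt : (cnt (fun φ : V → Fin L => Sv G κ β φ u q ∧ ∀ x ∈ X, κ ≤ (φ x : ℕ)) : ℝ) ≥
      ∑ p ∈ K ×ˢ Bq, ((D p.1 p.2).card : ℝ) := by
    have h1 := Finset.card_le_card hsub
    rw [Finset.card_biUnion hdisj] at h1
    have h2 : ∑ p ∈ K ×ˢ Bq, (D p.1 p.2).card ≤
      cnt (fun φ : V → Fin L => Sv G κ β φ u q ∧ ∀ x ∈ X, κ ≤ (φ x : ℕ)) := h1
    exact_mod_cast h2
  refine le_trans ?_ hcnt
  have hLr : (0 : ℝ) < L := by exact_mod_cast hL1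
  have hlow : ∑ p ∈ K ×ˢ Bq, (Fintype.card (V → Fin L) : ℝ) / (2 * (L : ℝ) ^ 2) ≤
      ∑ p ∈ K ×ˢ Bq, ((D p.1 p.2).card : ℝ) := by
    refine Finset.sum_le_sum ?_
    rintro ⟨c, a⟩ hp
    rw [mem_product] at hp
    have := hDcard c a hp.2
    rw [div_le_iff₀ (by positivity)]
    linarith
  refine le_trans ?_ hlow
  rw [Finset.sum_const, nsmul_eq_mul, Finset.card_product, hKcard]
  have hNn : (0 : ℝ) ≤ (Fintype.card (V → Fin L) : ℝ) / (2 * (L : ℝ) ^ 2) := by positivity
  have hb' : (b : ℝ) ≤ Bq.card := by exact_mod_cast hb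
  calc (κ * b : ℝ) / (2 * (L : ℝ) ^ 2) * Fintype.card (V → Fin L) =
      (κ * b : ℝ) * ((Fintype.card (V → Fin L) : ℝ) / (2 * (L : ℝ) ^ 2)) := by ring
    _ ≤ (((κ * Bq.card : ℕ)) : ℝ) * ((Fintype.card (V → Fin L) : ℝ) / (2 * (L : ℝ) ^ 2)) := by
      refine mul_le_mul_of_nonneg_right ?_ hNn
      push_cast
      exact mul_le_mul_of_nonneg_left hb' (by positivity)

end Pool.Agent.N515.BK
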